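import Pool.Agent.TH936.AD.Stmts
import Pool.Agent.TH936.AC.Asm4

/-!
# Project AD: assembly, inequalities between numbers
-/

set_option autoImplicit false

open Complex

namespace Pool.Agent.TH936.AD

/-- a power of the logarithm is small -/
theorem log_pow_small (B : ℝ) (n : ℕ) : ∃ l1 : ℝ, ∀ l : ℝ, l1 ≤ l → B * (Real.log l) ^ n ≤ l := by
  have h := (Real.isLittleO_pow_log_id_atTop (n := n)).const_mul_left B
  have h1 := h.bound (show (0 : ℝ) < 1 by norm_num)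
  obtain ⟨l1, hl1⟩ := Filter.eventually_atTop.1 h1
  refine ⟨max l1 0, fun l hl => ?_⟩
  have h2 := hl1 l ((le_max_left _ _).trans hl)
  have h3 : 0 ≤ l := (le_max_right _ _).trans hl
  rw [one_mul, id, Real.norm_of_nonneg h3] at h2
  exact (le_abs_self _).trans h2

/-- no small prime -/
theorem point0 {P L0 L1 : ℂ} {δ D n X l Λ E Ln L1n ly CM : ℝ} (hn1 : 1 ≤ n)
    (hnl : Real.log n ≤ l) (hX1 : 1 ≤ X) (hδ0 : 0 ≤ δ) (hδ1 : 1 ≤ CM * ly ^ 5 * δ)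
    (hD0 : 0 ≤ D) (hD1 : D ≤ 4 * (1 + ly) ^ 2) (hLn : Ln = ‖L0‖) (hL1n : L1n = ‖L1‖)
    (hΛ : Λ = Ln * (Real.log X + l) + L1n + Ln * (4 * (1 + ly) ^ 2 * (CM * ly ^ 5)))
    (hP : ‖P - ((L0 * (Real.log (X / n) : ℂ) + L1) * (δ : ℂ) + L0 * (D : ℂ))‖ ≤ E) :
    ‖P‖ ≤ Λ * δ + E := by
  have hn0 : 0 < n := by linarith only [hn1]
  have hX0 : 0 < X := by linarith only [hX1]
  have hLn0 : 0 ≤ Ln := by rw [hLn]; exact norm_nonneg _
  have e9 := Real.log_nonneg hn1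
  have e12 := Real.log_nonneg hX1
  have e6 : |Real.log (X / n)| ≤ Real.log X + l := by
    have e7 : Real.log (X / n) = Real.log X - Real.log n := Real.log_div hX0.ne' hn0.ne'
    rw [e7, abs_le]
    constructor
    · linarith only [e9, e12, hnl]
    · linarith only [e9, e12, hnl]
  have e10 : ‖(L0 * (Real.log (X / n) : ℂ) + L1) * (δ : ℂ)‖ ≤
      (Ln * (Real.log X + l) + L1n) * δ := by
    rw [norm_mul, Complex.norm_real, Real.norm_of_nonneg hδ0]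
    refine mul_le_mul_of_nonneg_right ?_ hδ0
    refine (norm_add_le _ _).trans ?_
    rw [norm_mul, Complex.norm_real, Real.norm_eq_abs, ← hLn, ← hL1n]
    exact add_le_add (mul_le_mul_of_nonneg_left e6 hLn0) le_rfl
  have e11 : ‖L0 * (D : ℂ)‖ ≤ Ln * (4 * (1 + ly) ^ 2 * (CM * ly ^ 5)) * δ := by
    rw [norm_mul, Complex.norm_real, Real.norm_of_nonneg hD0, ← hLn]
    calc Ln * D ≤ Ln * (4 * (1 + ly) ^ 2) := mul_le_mul_of_nonneg_left hD1 hLn0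
      _ = Ln * (4 * (1 + ly) ^ 2) * 1 := (mul_one _).symm
      _ ≤ Ln * (4 * (1 + ly) ^ 2) * (CM * ly ^ 5 * δ) :=
          mul_le_mul_of_nonneg_left hδ1 (by positivity)
      _ = _ := by ring
  calc ‖P‖ = ‖((L0 * (Real.log (X / n) : ℂ) + L1) * (δ : ℂ) + L0 * (D : ℂ)) +
        (P - ((L0 * (Real.log (X / n) : ℂ) + L1) * (δ : ℂ) + L0 * (D : ℂ)))‖ := by
        rw [add_sub_cancel]
    _ ≤ ‖(L0 * (Real.log (X / n) : ℂ) + L1) * (δ : ℂ)‖ + ‖L0 * (D : ℂ)‖ + E :=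
        (norm_add_le _ _).trans (add_le_add (norm_add_le _ _) hP)
    _ ≤ (Ln * (Real.log X + l) + L1n) * δ + Ln * (4 * (1 + ly) ^ 2 * (CM * ly ^ 5)) * δ + E := by
        linarith only [e10, e11]
    _ = Λ * δ + E := by rw [hΛ]; ring

/-- one small prime -/
theorem point1 {P L0 L1 : ℂ} {D n X E Ln dT : ℝ} (hLn : Ln = ‖L0‖)
    (hD : |D| ≤ Real.log n * dT)
    (hP : ‖P - ((L0 * (Real.log (X / n) : ℂ) + L1) * ((0 : ℝ) : ℂ) + L0 * (D : ℂ))‖ ≤ E) :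
    ‖P‖ ≤ Ln * (Real.log n * dT) + E := by
  have hLn0 : 0 ≤ Ln := by rw [hLn]; exact norm_nonneg _
  rw [Complex.ofReal_zero, mul_zero, zero_add] at hP
  calc ‖P‖ = ‖L0 * (D : ℂ) + (P - L0 * (D : ℂ))‖ := by rw [add_sub_cancel]
    _ ≤ ‖L0 * (D : ℂ)‖ + ‖P - L0 * (D : ℂ)‖ := norm_add_le _ _
    _ ≤ Ln * (Real.log n * dT) + E := by
        rw [norm_mul, Complex.norm_real, Real.norm_eq_abs, ← hLn]
        exact add_le_add (mul_le_mul_of_nonneg_left hD hLn0) hP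

/-- the unit ideal -/
theorem pointT {P L0 L1 : ℂ} {D lX E Ln L1n dT : ℝ} (hLn : Ln = ‖L0‖) (hL1n : L1n = ‖L1‖)
    (hD : 0 ≤ D) (hlX : 0 ≤ lX) (hdT : 0 ≤ dT)
    (hP : ‖P - ((L0 * (lX : ℂ) + L1) * (dT : ℂ) + L0 * (D : ℂ))‖ ≤ E) :
    dT * (Ln * lX - L1n) - E ≤ ‖P‖ := by
  have hLn0 : 0 ≤ Ln := by rw [hLn]; exact norm_nonneg _
  have e2 : (L0 * (lX : ℂ) + L1) * (dT : ℂ) + L0 * (D : ℂ) =
      L0 * ((lX * dT + D : ℝ) : ℂ) + L1 * (dT : ℂ) := by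
    push_cast
    ring
  rw [e2] at hP
  have e0 : 0 ≤ lX * dT + D := by positivity
  have e3 : Ln * (lX * dT + D) - L1n * dT ≤ ‖L0 * ((lX * dT + D : ℝ) : ℂ) + L1 * (dT : ℂ)‖ := by
    have e4 := norm_sub_norm_le (L0 * ((lX * dT + D : ℝ) : ℂ)) (-(L1 * (dT : ℂ)))
    rw [sub_neg_eq_add, norm_neg, norm_mul, norm_mul, Complex.norm_real, Complex.norm_real,
      Real.norm_of_nonneg hdT, Real.norm_of_nonneg e0, ← hLn, ← hL1n] at e4
    exact e4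
  have e5 := norm_sub_norm_le (L0 * ((lX * dT + D : ℝ) : ℂ) + L1 * (dT : ℂ)) P
  rw [norm_sub_rev] at e5
  have e6 : 0 ≤ Ln * D := mul_nonneg hLn0 hD
  have e7 : Ln * (lX * dT + D) - L1n * dT = dT * (Ln * lX - L1n) + Ln * D := by ring
  rw [e7] at e3
  linarith only [e3, e5, e6, hP]

/-- the bound of `Λ` -/
theorem lam_le {Ln L1n lx CM l lX logx0 ly Λ : ℝ} (hLn0 : 0 ≤ Ln) (hL1n0 : 0 ≤ L1n) (hlx0 : 0 ≤ lx)
    (hCM : 0 < CM) (hl3 : 3 ≤ l) (hlX : lX = logx0 + l) (hlx : logx0 ≤ lx)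
    (hly : ly = 200 * Real.log l) (hl1 : Ln * (4 * 201 ^ 2 * (CM * 200 ^ 5)) * Real.log l ^ 7 ≤ l)
    (hΛ : Λ = Ln * (lX + l) + L1n + Ln * (4 * (1 + ly) ^ 2 * (CM * ly ^ 5))) :
    Λ ≤ (Ln * (2 + lx) + L1n + 1) * l := by
  have hlpos : 0 < l := by linarith only [hl3]
  have hlogl1 : 1 ≤ Real.log l := by
    have e1 : Real.exp 1 ≤ l := le_trans (by linarith [Real.exp_one_lt_d9]) hl3
    exact (Real.le_log_iff_exp_le hlpos).2 e1
  have e1 : Ln * (4 * (1 + ly) ^ 2 * (CM * ly ^ 5)) ≤ l := by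
    refine le_trans ?_ hl1
    rw [hly]
    have e2 : 1 + 200 * Real.log l ≤ 201 * Real.log l := by linarith only [hlogl1]
    calc Ln * (4 * (1 + 200 * Real.log l) ^ 2 * (CM * (200 * Real.log l) ^ 5))
        ≤ Ln * (4 * (201 * Real.log l) ^ 2 * (CM * (200 * Real.log l) ^ 5)) := by gcongr
      _ = _ := by ring
  have e3 : Ln * (lX + l) ≤ Ln * (2 + lx) * l := by
    rw [hlX, mul_assoc]
    refine mul_le_mul_of_nonneg_left ?_ hLn0
    have e5 : lx ≤ lx * l := le_mul_of_one_le_right hlx0 (by linarith only [hl3])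
    have e6 : (2 + lx) * l = 2 * l + lx * l := by ring
    rw [e6]
    linarith only [hlx, e5]
  have e4 : L1n ≤ L1n * l := le_mul_of_one_le_right hL1n0 (by linarith only [hl3])
  rw [hΛ]
  calc _ ≤ Ln * (2 + lx) * l + L1n * l + l := by linarith only [e1, e3, e4]
    _ = _ := by ring

/-- the final contradiction -/
theorem numbers {Ln L1n lx CΛ C3 C2 CT CR CK CM Cτ C5 a δ η2 η3 Q l Y Y1 E A Λ τ K D dT lX Ph ld mm : ℝ}
    (hLn0 : 0 < Ln) (hL1n0 : 0 ≤ L1n) (hlx0 : 0 ≤ lx) (hCΛ0 : 0 < CΛ) (hC3 : 0 < C3)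
    (hC2 : 0 < C2) (hCT : 0 < CT) (hCR : 0 < CR) (hCK : 0 < CK) (hCM : 0 < CM) (hCτ : 0 < Cτ)
    (hC5 : 0 < C5) (hmm : 1 ≤ mm)
    (ha0 : 0 < a) (haa : a ≤ 1 / 400) (hab : a ≤ δ / 4) (hac : a ≤ 1 / 100000)
    (hη2b : η2 ≤ δ / 20) (hη3a : η3 ≤ δ / 12) (hη3b : η3 ≤ 1 / 1500)
    (hQ1 : 1 ≤ Q) (hl : l = Real.log Q) (hl3 : 3 ≤ l) (hY : Y = Q ^ (1 / 100000 : ℝ))
    (hY1 : Y1 = Q ^ (1 / 100 : ℝ)) (hE : E = Q ^ (-1 / 50000 : ℝ))
    (hA0 : 0 ≤ A) (hAle : A ≤ C2 * Q ^ (24 / 5 * η2)) (hτ0 : 0 ≤ τ) (hτd : τ ≤ Cτ * Q ^ (3 * η3))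
    (hΛ0 : 0 ≤ Λ) (hΛle : Λ ≤ CΛ * l) (hld0 : 0 ≤ ld) (hld : ld ≤ 3 * l) (hD0 : 0 < D)
    (hK0 : 0 ≤ K) (hdK : D ≤ K * (mm * CK * ld ^ 5)) (hdT0 : 0 ≤ dT)
    (hdlT : 1 / (CM * (200 * Real.log l) ^ 5) ≤ dT)
    (hll2 : 2 * (lx + L1n / Ln) ≤ l) (hlX : l - lx ≤ lX)
    (hPhT : dT * (Ln * lX - L1n) - E ≤ Ph)
    (hmain : K * Ph ≤ D * (Λ * ((1 + ld) * (CR * l ^ (-10 : ℝ)) + τ * (Y1⁻¹ * (C3 * Y)))) +
      K * E * (C3 * Y) + D * (τ * (A * CT * Q ^ (-δ))) + Ln * dT * (1 / 8 * l * K) +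
      D * (C5 * Q ^ (-1 / 200 : ℝ)))
    (hstrict : 243 * mm * CK * (CΛ * 4 * CR) * l ^ (-4 : ℝ) +
      (243 * mm * CK * (CΛ * Cτ * C3 + (Cτ * C2 * CT + C5)) + (C3 + 1)) * l ^ 5 *
        Real.exp (-(a * l)) < Ln / 4 / (CM * 200 ^ 5) / (Real.log l) ^ 5) : False := by
  have hQ0 : 0 < Q := by linarith only [hQ1]
  have hlpos : 0 < l := by linarith only [hl3]
  have hl1 : 1 ≤ l := by linarith only [hl3]
  have hmm0 : 0 < mm := by linarith only [hmm]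
  obtain ⟨e, he⟩ : ∃ e : ℝ, e = Real.exp (-(a * l)) := ⟨_, rfl⟩
  have he0 : 0 < e := by rw [he]; exact Real.exp_pos _
  have hQe : ∀ t : ℝ, t ≤ -a → Q ^ t ≤ e := by
    intro t ht
    rw [he, Real.rpow_def_of_pos hQ0, ← hl]
    apply Real.exp_le_exp.2
    calc l * t ≤ l * (-a) := mul_le_mul_of_nonneg_left ht hlpos.le
      _ = -(a * l) := by ring
  have hYpos : 0 < Y := by rw [hY]; exact Real.rpow_pos_of_pos hQ0 _
  have hY1pos : 0 < Y1 := by rw [hY1]; exact Real.rpow_pos_of_pos hQ0 _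
  have hE0 : 0 ≤ E := by rw [hE]; exact Real.rpow_nonneg hQ0.le _
  have hQη : 0 ≤ Q ^ (3 * η3) := Real.rpow_nonneg hQ0.le _
  have hl10 : 0 < l ^ (-10 : ℝ) := Real.rpow_pos_of_pos hlpos _
  have t1 : τ * (Y1⁻¹ * (C3 * Y)) ≤ Cτ * C3 * e := by
    have e1 : Y1⁻¹ * Y = Q ^ (-1 / 100 + 1 / 100000 : ℝ) := by
      rw [hY1, hY, ← Real.rpow_neg hQ0.le, ← Real.rpow_add hQ0]
      norm_num
    have e2 : Q ^ (3 * η3) * (Y1⁻¹ * Y) ≤ e := by
      rw [e1, ← Real.rpow_add hQ0]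
      exact hQe _ (by linarith only [hη3b, haa])
    have e3 : 0 ≤ Y1⁻¹ * Y := by positivity
    calc τ * (Y1⁻¹ * (C3 * Y)) = C3 * (τ * (Y1⁻¹ * Y)) := by ring
      _ ≤ C3 * ((Cτ * Q ^ (3 * η3)) * (Y1⁻¹ * Y)) :=
          mul_le_mul_of_nonneg_left (mul_le_mul_of_nonneg_right hτd e3) hC3.le
      _ = Cτ * C3 * (Q ^ (3 * η3) * (Y1⁻¹ * Y)) := by ring
      _ ≤ Cτ * C3 * e := mul_le_mul_of_nonneg_left e2 (by positivity)
  have t2 : τ * (A * CT * Q ^ (-δ)) ≤ Cτ * C2 * CT * e := by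
    have e2 : Q ^ (3 * η3) * (Q ^ (24 / 5 * η2) * Q ^ (-δ)) ≤ e := by
      rw [← Real.rpow_add hQ0, ← Real.rpow_add hQ0]
      exact hQe _ (by linarith only [hη3a, hη2b, hab, ha0])
    have e3 : 0 ≤ Q ^ (-δ) := Real.rpow_nonneg hQ0.le _
    calc τ * (A * CT * Q ^ (-δ)) ≤ (Cτ * Q ^ (3 * η3)) * ((C2 * Q ^ (24 / 5 * η2)) * CT * Q ^ (-δ)) := by
          gcongr
      _ = Cτ * C2 * CT * (Q ^ (3 * η3) * (Q ^ (24 / 5 * η2) * Q ^ (-δ))) := by ring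
      _ ≤ _ := mul_le_mul_of_nonneg_left e2 (by positivity)
  have t3 : E * (C3 * Y) ≤ C3 * e := by
    have e1 : E * Y ≤ e := by
      rw [hE, hY, ← Real.rpow_add hQ0]
      exact hQe _ (by norm_num; linarith only [hac])
    calc E * (C3 * Y) = C3 * (E * Y) := by ring
      _ ≤ C3 * e := mul_le_mul_of_nonneg_left e1 hC3.le
  have t4 : E ≤ e := by
    rw [hE]
    exact hQe _ (by linarith only [hac])
  have t5 : (1 + ld) * (CR * l ^ (-10 : ℝ)) ≤ 4 * CR * (l * l ^ (-10 : ℝ)) := by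
    have e1 : 1 + ld ≤ 4 * l := by linarith only [hld, hl1]
    have e2 : 0 ≤ CR * l ^ (-10 : ℝ) := by positivity
    calc (1 + ld) * (CR * l ^ (-10 : ℝ)) ≤ (4 * l) * (CR * l ^ (-10 : ℝ)) :=
          mul_le_mul_of_nonneg_right e1 e2
      _ = _ := by ring
  have t7 : C5 * Q ^ (-1 / 200 : ℝ) ≤ C5 * e :=
    mul_le_mul_of_nonneg_left (hQe _ (by linarith only [haa])) hC5.le
  have hdK2 : D ≤ K * (243 * mm * CK * l ^ 5) := by
    refine hdK.trans ?_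
    refine mul_le_mul_of_nonneg_left ?_ hK0
    have e3 : ld ^ 5 ≤ (3 * l) ^ 5 := pow_le_pow_left₀ hld0 hld 5
    calc mm * CK * ld ^ 5 ≤ mm * CK * (3 * l) ^ 5 :=
          mul_le_mul_of_nonneg_left e3 (by positivity)
      _ = _ := by ring
  have hKpos : 0 < K := by
    by_contra hno
    have : K = 0 := le_antisymm (not_lt.1 hno) hK0
    rw [this, zero_mul] at hdK2
    linarith only [hdK2, hD0]
  have t6 : l ^ 5 * (l * l ^ (-10 : ℝ)) = l ^ (-4 : ℝ) := by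
    rw [← Real.rpow_natCast l 5]
    nth_rewrite 2 [← Real.rpow_one l]
    rw [← Real.rpow_add hlpos, ← Real.rpow_add hlpos]
    norm_num
  have hl5 : 1 ≤ l ^ 5 := one_le_pow₀ hl1
  obtain ⟨C6, hC6⟩ : ∃ C6 : ℝ, C6 = Cτ * C2 * CT + C5 := ⟨_, rfl⟩
  have hC60 : 0 < C6 := by rw [hC6]; positivity
  obtain ⟨B, hB⟩ : ∃ B : ℝ, B = (CΛ * l) * (4 * CR * (l * l ^ (-10 : ℝ)) + Cτ * C3 * e) + C6 * e :=
    ⟨_, rfl⟩
  have hB0 : 0 ≤ B := by rw [hB]; positivity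
  have hsum : D * (Λ * ((1 + ld) * (CR * l ^ (-10 : ℝ)) + τ * (Y1⁻¹ * (C3 * Y)))) +
      D * (τ * (A * CT * Q ^ (-δ))) + D * (C5 * Q ^ (-1 / 200 : ℝ)) ≤ D * B := by
    have e1 : Λ * ((1 + ld) * (CR * l ^ (-10 : ℝ)) + τ * (Y1⁻¹ * (C3 * Y))) ≤
        (CΛ * l) * (4 * CR * (l * l ^ (-10 : ℝ)) + Cτ * C3 * e) := by
      refine mul_le_mul hΛle (add_le_add t5 t1) ?_ (by positivity)
      positivity
    have e2 : Λ * ((1 + ld) * (CR * l ^ (-10 : ℝ)) + τ * (Y1⁻¹ * (C3 * Y))) +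
        τ * (A * CT * Q ^ (-δ)) + C5 * Q ^ (-1 / 200 : ℝ) ≤ B := by
      have e3 : C6 * e = Cτ * C2 * CT * e + C5 * e := by rw [hC6]; ring
      rw [hB, e3]
      linarith only [e1, t2, t7]
    calc _ = D * (Λ * ((1 + ld) * (CR * l ^ (-10 : ℝ)) + τ * (Y1⁻¹ * (C3 * Y))) +
        τ * (A * CT * Q ^ (-δ)) + C5 * Q ^ (-1 / 200 : ℝ)) := by ring
      _ ≤ D * B := mul_le_mul_of_nonneg_left e2 hD0.le
  have hfinal : K * (dT * (Ln * lX - L1n) - E) ≤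
      K * (243 * mm * CK * (CΛ * 4 * CR) * (l * l ^ (-4 : ℝ)) +
      243 * mm * CK * (CΛ * Cτ * C3 * l + C6) * (l ^ 5 * e) + C3 * e +
        Ln * dT * (1 / 8 * l)) := by
    have e1 : K * (dT * (Ln * lX - L1n) - E) ≤ K * Ph := mul_le_mul_of_nonneg_left hPhT hK0
    have e2 : K * E * (C3 * Y) ≤ K * (C3 * e) := by
      rw [mul_assoc]
      exact mul_le_mul_of_nonneg_left t3 hK0
    have e3 : D * B ≤ (K * (243 * mm * CK * l ^ 5)) * B := mul_le_mul_of_nonneg_right hdK2 hB0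
    calc K * (dT * (Ln * lX - L1n) - E) ≤ (K * (243 * mm * CK * l ^ 5)) * B + K * (C3 * e) +
          Ln * dT * (1 / 8 * l * K) := by linarith only [e1, e2, e3, hsum, hmain]
      _ = K * (243 * mm * CK * (CΛ * 4 * CR) * (l * (l ^ 5 * (l * l ^ (-10 : ℝ)))) +
          243 * mm * CK * (CΛ * Cτ * C3 * l + C6) * (l ^ 5 * e) + C3 * e +
          Ln * dT * (1 / 8 * l)) := by rw [hB]; ring
      _ = _ := by rw [t6]
  have hfinal2 := le_of_mul_le_mul_left hfinal hKpos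
  rw [← he, ← hC6] at hstrict
  have hc1 : Ln / 4 / (CM * 200 ^ 5) / Real.log l ^ 5 ≤ Ln / 4 * dT := by
    calc Ln / 4 / (CM * 200 ^ 5) / Real.log l ^ 5 =
          Ln / 4 * (1 / (CM * (200 * Real.log l) ^ 5)) := by
          rw [mul_pow, div_div, mul_one_div]
          congr 1
          ring
      _ ≤ _ := mul_le_mul_of_nonneg_left hdlT (by positivity)
  have hlow : Ln / 4 * l ≤ Ln * lX - L1n - Ln * (1 / 8 * l) := by
    have e1 : Ln * (lx + L1n / Ln) = Ln * lx + L1n := by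
      field_simp
    have e2 : Ln * (2 * (lx + L1n / Ln)) ≤ Ln * l := mul_le_mul_of_nonneg_left hll2 hLn0.le
    have e3 : Ln * (l - lx) ≤ Ln * lX := mul_le_mul_of_nonneg_left hlX hLn0.le
    have e4 : 0 ≤ Ln * l := by positivity
    have e5 : Ln * (2 * (lx + L1n / Ln)) = 2 * (Ln * lx + L1n) := by rw [← e1]; ring
    rw [e5] at e2
    have e7 : Ln * (l - lx) = Ln * l - Ln * lx := by ring
    rw [e7] at e3
    have e8 : Ln / 4 * l = (Ln * l) / 4 := by ring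
    have e9 : Ln * (1 / 8 * l) = (Ln * l) / 8 := by ring
    rw [e8, e9]
    linarith only [e2, e3, e4, hL1n0]
  have hle1 : dT * (Ln / 4 * l) ≤ 243 * mm * CK * (CΛ * 4 * CR) * (l * l ^ (-4 : ℝ)) +
      243 * mm * CK * (CΛ * Cτ * C3 * l + C6) * (l ^ 5 * e) + (C3 + 1) * e := by
    have e1 := mul_le_mul_of_nonneg_left hlow hdT0
    have e2 : dT * (Ln * lX - L1n - Ln * (1 / 8 * l)) =
        dT * (Ln * lX - L1n) - Ln * dT * (1 / 8 * l) := by ring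
    rw [e2] at e1
    have e3 : (C3 + 1) * e = C3 * e + e := by ring
    rw [e3]
    linarith only [e1, hfinal2, t4]
  have hle2 : l * (Ln / 4 * dT) ≤ l * (243 * mm * CK * (CΛ * 4 * CR) * l ^ (-4 : ℝ) +
      (243 * mm * CK * (CΛ * Cτ * C3 + C6) + (C3 + 1)) * l ^ 5 * e) := by
    have e1 : (C3 + 1) * e ≤ l * ((C3 + 1) * (l ^ 5 * e)) := by
      have e2 : e ≤ l ^ 5 * e := le_mul_of_one_le_left he0.le hl5
      have e3 : (C3 + 1) * e ≤ (C3 + 1) * (l ^ 5 * e) :=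
        mul_le_mul_of_nonneg_left e2 (by linarith only [hC3])
      refine e3.trans (le_mul_of_one_le_left (by positivity) hl1)
    have e2 : 243 * mm * CK * (CΛ * Cτ * C3 * l + C6) * (l ^ 5 * e) ≤
        l * (243 * mm * CK * (CΛ * Cτ * C3 + C6) * (l ^ 5 * e)) := by
      have e3 : CΛ * Cτ * C3 * l + C6 ≤ l * (CΛ * Cτ * C3 + C6) := by
        have e4 : C6 ≤ l * C6 := le_mul_of_one_le_left hC60.le hl1
        have e5 : l * (CΛ * Cτ * C3 + C6) = CΛ * Cτ * C3 * l + l * C6 := by ring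
        rw [e5]
        linarith only [e4]
      calc _ ≤ 243 * mm * CK * (l * (CΛ * Cτ * C3 + C6)) * (l ^ 5 * e) := by gcongr
        _ = _ := by ring
    calc l * (Ln / 4 * dT) = dT * (Ln / 4 * l) := by ring
      _ ≤ 243 * mm * CK * (CΛ * 4 * CR) * (l * l ^ (-4 : ℝ)) +
          l * (243 * mm * CK * (CΛ * Cτ * C3 + C6) * (l ^ 5 * e)) +
          l * ((C3 + 1) * (l ^ 5 * e)) := by linarith only [hle1, e1, e2]
      _ = _ := by ring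
  have hle3 := le_of_mul_le_mul_left hle2 hlpos
  linarith only [hle3, hc1, hstrict]

end Pool.Agent.TH936.AD
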