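import Pool.Agent.TH936.AD.Stmts
import Pool.Agent.TH936.AC.Prd

/-!
# DL: values of the logarithmic derivative of the product formula
-/

set_option autoImplicit false

open Complex

namespace Pool.Agent.TH936.AD

open Pool.Agent.W192.HK Pool.Agent.TH936.AC Pool.Agent.TH936.AW

namespace Dl

theorem sum_pairs_mul (S : Finset ℕ) (φ ν : ℕ → Bool → Bool → ℝ) :
    ∑ b ∈ S.powerset ×ˢ S.powerset,
      (∏ p ∈ S, φ p (decide (p ∈ b.1)) (decide (p ∈ b.2))) *
        (∑ p ∈ S, ν p (decide (p ∈ b.1)) (decide (p ∈ b.2))) =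
    ∑ p ∈ S, ∏ r ∈ S, (if r = p then
        ((φ r true true * ν r true true + φ r true false * ν r true false) +
          (φ r false true * ν r false true + φ r false false * ν r false false))
      else ((φ r true true + φ r true false) + (φ r false true + φ r false false))) := by
  classical
  simp_rw [Finset.mul_sum]
  rw [Finset.sum_comm]
  apply Finset.sum_congr rfl
  intro p hp
  have h := AC.Prd.sum_pairs S (fun r s t => if r = p then φ r s t * ν r s t else φ r s t)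
  have h2 : ∀ b ∈ S.powerset ×ˢ S.powerset,
      (∏ r ∈ S, φ r (decide (r ∈ b.1)) (decide (r ∈ b.2))) *
        ν p (decide (p ∈ b.1)) (decide (p ∈ b.2)) =
      ∏ r ∈ S, (fun r s t => if r = p then φ r s t * ν r s t else φ r s t) r
        (decide (r ∈ b.1)) (decide (r ∈ b.2)) := by
    intro b _
    rw [← Finset.mul_prod_erase S _ hp, ← Finset.mul_prod_erase S
      (fun r => (fun r s t => if r = p then φ r s t * ν r s t else φ r s t) r
        (decide (r ∈ b.1)) (decide (r ∈ b.2))) hp]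
    dsimp only
    rw [if_pos rfl]
    have h3 : ∏ x ∈ S.erase p, (if x = p then
        φ x (decide (x ∈ b.1)) (decide (x ∈ b.2)) * ν x (decide (x ∈ b.1)) (decide (x ∈ b.2))
        else φ x (decide (x ∈ b.1)) (decide (x ∈ b.2))) =
        ∏ x ∈ S.erase p, φ x (decide (x ∈ b.1)) (decide (x ∈ b.2)) :=
      Finset.prod_congr rfl fun x hx => if_neg (Finset.ne_of_mem_erase hx)
    rw [h3]
    ring
  rw [Finset.sum_congr rfl h2, h]
  apply Finset.prod_congr rfl
  intro r _
  by_cases hr : r = p <;> simp [hr]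

variable {R : Subring ℂ} {ω : ℂ}

open Classical in
/-- the local factors -/
noncomputable def Ub (f c : Ideal R) (p : ℕ) : ℝ :=
  if PP f p ∣ c ∨ bar (PP f p) ∣ c then 0 else 1 - 1 / (p : ℝ)

open Classical in
/-- the derivatives of the local factors -/
noncomputable def Wb (f c : Ideal R) (p : ℕ) : ℝ :=
  if PP f p ∣ c ∨ bar (PP f p) ∣ c then -(Real.log p * (1 - 1 / (p : ℝ)))
  else 2 * Real.log p / p

open Classical in
theorem dL_eq (hA : A_BAR) (hR : QP R ω) {f : Ideal R} {y : ℝ} {c : Ideal R} (hc : Pri c) :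
    dL f y c = ∑ p ∈ SP f y, ∏ r ∈ SP f y, (if r = p then Wb f c r else Ub f c r) := by
  obtain ⟨φ, hφ⟩ : ∃ φ : ℕ → Bool → Bool → ℝ, φ = fun p s t =>
      if s then (if t then 1 / (p : ℝ) else -(1 / (if PP f p ∣ c then 1 else (p : ℝ))))
      else (if t then -(1 / (if bar (PP f p) ∣ c then 1 else (p : ℝ))) else 1) := ⟨_, rfl⟩
  obtain ⟨ν, hν⟩ : ∃ ν : ℕ → Bool → Bool → ℝ, ν = fun p s t =>
      if s then (if t then 0 else (if PP f p ∣ c then Real.log p else -Real.log p))
      else (if t then (if bar (PP f p) ∣ c then Real.log p else -Real.log p) else 0) := ⟨_, rfl⟩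
  have hterm : ∀ b ∈ (SP f y).powerset ×ˢ (SP f y).powerset,
      (sB b : ℝ) / mc f y c b * Real.log ((nB b : ℝ) / (mc f y c b : ℝ) ^ 2) =
      (∏ p ∈ SP f y, φ p (decide (p ∈ b.1)) (decide (p ∈ b.2))) *
        ∑ p ∈ SP f y, ν p (decide (p ∈ b.1)) (decide (p ∈ b.2)) := by
    intro b hb
    rw [Finset.mem_product, Finset.mem_powerset, Finset.mem_powerset] at hb
    have h1 : (sB b : ℝ) = ∏ p ∈ SP f y, ((if p ∈ b.1 then (-1 : ℝ) else 1) *
        (if p ∈ b.2 then (-1 : ℝ) else 1)) := by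
      rw [Finset.prod_mul_distrib, Finset.prod_ite_mem, Finset.prod_ite_mem,
        Finset.inter_eq_right.2 hb.1, Finset.inter_eq_right.2 hb.2, Finset.prod_const,
        Finset.prod_const]
      unfold sB
      push_cast
      rw [pow_add]
    have h2 : (mc f y c b : ℝ) = ∏ p ∈ SP f y, (mloc f c b p : ℝ) := by
      unfold mc; push_cast; rfl
    have h3 : (nB b : ℝ) = ∏ p ∈ SP f y, ((if p ∈ b.1 then (p : ℝ) else 1) *
        (if p ∈ b.2 then (p : ℝ) else 1)) := by
      rw [Finset.prod_mul_distrib, Finset.prod_ite_mem, Finset.prod_ite_mem,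
        Finset.inter_eq_right.2 hb.1, Finset.inter_eq_right.2 hb.2]
      unfold nB
      push_cast
      rfl
    have hp0 : ∀ p ∈ SP f y, (p : ℝ) ≠ 0 := fun p hp =>
      Nat.cast_ne_zero.2 (AC.Prd.mem_SP hp).1.ne_zero
    have hm0 : ∀ p ∈ SP f y, (mloc f c b p : ℝ) ≠ 0 := by
      intro p hp
      rcases AC.Prd.mloc_cases f c b p with h | h <;> rw [h]
      · simp
      · exact hp0 p hp
    congr 1
    · rw [h1, h2, ← Finset.prod_div_distrib]
      apply Finset.prod_congr rfl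
      intro p _
      rw [hφ]
      unfold mloc
      by_cases c1 : p ∈ b.1 <;> by_cases c2 : p ∈ b.2 <;> by_cases c3 : PP f p ∣ c <;>
        by_cases c4 : bar (PP f p) ∣ c <;> simp [c1, c2, c3, c4, neg_div]
    · rw [h3, h2, ← Finset.prod_pow, ← Finset.prod_div_distrib, Real.log_prod]
      · apply Finset.sum_congr rfl
        intro p hp
        have hp1 := hp0 p hp
        have e1 : (p : ℝ) * p / (p : ℝ) ^ 2 = 1 := by
          field_simp
        have e2 : (p : ℝ) / (p : ℝ) ^ 2 = (p : ℝ)⁻¹ := by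
          field_simp
        rw [hν]
        unfold mloc
        by_cases c1 : p ∈ b.1 <;> by_cases c2 : p ∈ b.2 <;> by_cases c3 : PP f p ∣ c <;>
          by_cases c4 : bar (PP f p) ∣ c <;> simp [c1, c2, c3, c4, e1, e2]
      · intro p hp
        have hp1 := hp0 p hp
        apply div_ne_zero _ (pow_ne_zero _ (hm0 p hp))
        apply mul_ne_zero <;> split_ifs <;> simp [hp1]
  unfold dL
  rw [Finset.sum_congr rfl hterm, sum_pairs_mul]
  apply Finset.sum_congr rfl
  intro p _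
  apply Finset.prod_congr rfl
  intro r hr
  have hr0 : (r : ℝ) ≠ 0 := Nat.cast_ne_zero.2 (AC.Prd.mem_SP hr).1.ne_zero
  unfold Wb Ub
  rw [hφ, hν]
  by_cases c3 : PP f r ∣ c
  · have c4 : ¬ bar (PP f r) ∣ c := fun c4 =>
      AC.Prd.not_both hA hR (AC.Prd.mem_SP hr).2.1 hc c3 c4
    simp only [if_true, if_false, Bool.false_eq_true, c3, c4, true_or]
    split_ifs
    · ring
    · ring
  · by_cases c4 : bar (PP f r) ∣ c
    · simp only [if_true, if_false, Bool.false_eq_true, c3, c4, or_true]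
      split_ifs
      · ring
      · ring
    · simp only [if_true, if_false, Bool.false_eq_true, c3, c4, or_self]
      split_ifs
      · ring
      · ring

theorem sdv_mem {f : Ideal R} {y : ℝ} {c : Ideal R} {p : ℕ} (hp : p ∈ SP f y) :
    p ∈ sdv f y c ↔ (PP f p ∣ c ∨ bar (PP f p) ∣ c) := by
  classical
  unfold sdv
  rw [Finset.mem_filter]
  exact ⟨fun h => h.2, fun h => ⟨hp, h⟩⟩

theorem Ub_zero {f : Ideal R} {y : ℝ} {c : Ideal R} {p : ℕ} (hp : p ∈ sdv f y c) :
    Ub f c p = 0 := by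
  classical
  unfold sdv at hp
  rw [Finset.mem_filter] at hp
  unfold Ub
  rw [if_pos hp.2]

theorem fac_bd {p : ℕ} (hp : p.Prime) : 0 ≤ 1 - 1 / (p : ℝ) ∧ 1 - 1 / (p : ℝ) ≤ 1 := by
  have h1 : (1 : ℝ) ≤ p := by exact_mod_cast hp.one_lt.le
  have h2 : 1 / (p : ℝ) ≤ 1 := (div_le_one (by linarith)).2 h1
  have h3 : 0 ≤ 1 / (p : ℝ) := by positivity
  constructor <;> linarith

theorem sum_inv_le {f : Ideal R} {y : ℝ} (hy : 1 ≤ y) :
    ∑ p ∈ SP f y, 1 / (p : ℝ) ≤ 1 + Real.log y := by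
  classical
  have h1 := harmonic_floor_le_one_add_log y hy
  refine le_trans ?_ h1
  have h2 : ((harmonic ⌊y⌋₊ : ℚ) : ℝ) = ∑ i ∈ Finset.range ⌊y⌋₊, 1 / ((i : ℝ) + 1) := by
    unfold harmonic
    push_cast
    apply Finset.sum_congr rfl
    intro i _
    rw [one_div]
  have h3 : ∑ i ∈ Finset.range (⌊y⌋₊ + 1), 1 / (i : ℝ) =
      ∑ i ∈ Finset.range ⌊y⌋₊, 1 / ((i : ℝ) + 1) := by
    rw [Finset.sum_range_succ']
    push_cast
    simp
  rw [h2, ← h3]
  apply Finset.sum_le_sum_of_subset_of_nonneg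
  · unfold SP
    exact Finset.filter_subset _ _
  · intro i _ _
    positivity

theorem case0 (hA : A_BAR) (hR : QP R ω) {f : Ideal R} {y : ℝ} (hy : 1 ≤ y) {c : Ideal R}
    (hc : Pri c) (h0 : (sdv f y c).card = 0) :
    0 ≤ dL f y c ∧ dL f y c ≤ 4 * (1 + Real.log y) ^ 2 := by
  classical
  rw [Finset.card_eq_zero] at h0
  have hn : ∀ p ∈ SP f y, ¬ (PP f p ∣ c ∨ bar (PP f p) ∣ c) := by
    intro p hp h
    have := (sdv_mem (c := c) hp).2 h
    rw [h0] at this
    exact absurd this (Finset.notMem_empty _)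
  have hly : 0 ≤ Real.log y := Real.log_nonneg hy
  have hterm : ∀ p ∈ SP f y,
      0 ≤ ∏ r ∈ SP f y, (if r = p then Wb f c r else Ub f c r) ∧
      ∏ r ∈ SP f y, (if r = p then Wb f c r else Ub f c r) ≤ 2 * Real.log y * (1 / (p : ℝ)) := by
    intro p hp
    have hpp := (AC.Prd.mem_SP hp).1
    have hp0 : (0 : ℝ) < p := by exact_mod_cast hpp.pos
    have hp1 : (1 : ℝ) ≤ p := by exact_mod_cast hpp.one_lt.le
    have hpy : (p : ℝ) ≤ y := by
      have hp' := hp
      unfold SP at hp'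
      rw [Finset.mem_filter, Finset.mem_range] at hp'
      exact (Nat.cast_le.2 (Nat.lt_succ_iff.1 hp'.1)).trans (Nat.floor_le (by linarith))
    rw [← Finset.mul_prod_erase _ _ hp, if_pos rfl]
    have e1 : ∏ r ∈ (SP f y).erase p, (if r = p then Wb f c r else Ub f c r) =
        ∏ r ∈ (SP f y).erase p, (1 - 1 / (r : ℝ)) := by
      apply Finset.prod_congr rfl
      intro r hr
      rw [if_neg (Finset.ne_of_mem_erase hr)]
      unfold Ub
      rw [if_neg (hn r (Finset.mem_of_mem_erase hr))]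
    have e2 : 0 ≤ ∏ r ∈ (SP f y).erase p, (1 - 1 / (r : ℝ)) :=
      Finset.prod_nonneg fun r hr => (fac_bd (AC.Prd.mem_SP (Finset.mem_of_mem_erase hr)).1).1
    have e3 : ∏ r ∈ (SP f y).erase p, (1 - 1 / (r : ℝ)) ≤ 1 :=
      Finset.prod_le_one
        (fun r hr => (fac_bd (AC.Prd.mem_SP (Finset.mem_of_mem_erase hr)).1).1)
        (fun r hr => (fac_bd (AC.Prd.mem_SP (Finset.mem_of_mem_erase hr)).1).2)
    have e4 : Wb f c p = 2 * Real.log p / p := by
      unfold Wb
      rw [if_neg (hn p hp)]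
    have e5 : 0 ≤ Real.log p := Real.log_nonneg hp1
    have e6 : Real.log p ≤ Real.log y := Real.log_le_log hp0 hpy
    rw [e1, e4]
    refine ⟨by positivity, ?_⟩
    calc 2 * Real.log p / p * ∏ r ∈ (SP f y).erase p, (1 - 1 / (r : ℝ)) ≤ 2 * Real.log p / p * 1 :=
          mul_le_mul_of_nonneg_left e3 (by positivity)
      _ = 2 * Real.log p * (1 / (p : ℝ)) := by ring
      _ ≤ 2 * Real.log y * (1 / (p : ℝ)) := by gcongr
  rw [dL_eq hA hR hc]
  refine ⟨Finset.sum_nonneg fun p hp => (hterm p hp).1, ?_⟩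
  refine (Finset.sum_le_sum fun p hp => (hterm p hp).2).trans ?_
  rw [← Finset.mul_sum]
  have h1 := sum_inv_le (f := f) hy
  have h2 : 2 * Real.log y * ∑ p ∈ SP f y, 1 / (p : ℝ) ≤ 2 * Real.log y * (1 + Real.log y) :=
    mul_le_mul_of_nonneg_left h1 (by positivity)
  nlinarith

theorem dl_top (hB : H_BASIC) (hA : A_BAR) (hR : QP R ω) {f : Ideal R} {y : ℝ} :
    dl f y (⊤ : Ideal R) = ∏ p ∈ SP f y, (1 - 1 / (p : ℝ)) := by
  unfold dl
  rw [if_pos]
  intro p hp
  obtain ⟨hp1, hp2⟩ := AC.Prd.mem_SP hp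
  obtain ⟨f1, f2, f3, f4, f5, -⟩ := AC.Prd.facts hB hA hR hp1 hp2
  constructor
  · intro h
    exact hp2.1.ne_top (top_le_iff.1 (Ideal.le_of_dvd h))
  · intro h
    exact f3.ne_top (top_le_iff.1 (Ideal.le_of_dvd h))

theorem case1 (hB : H_BASIC) (hA : A_BAR) (hR : QP R ω) {f : Ideal R} {y : ℝ} {c : Ideal R}
    (hc : Pri c) (h1 : (sdv f y c).card = 1) :
    |dL f y c| ≤ Real.log (nm c) * dl f y ⊤ := by
  classical
  obtain ⟨p, hp⟩ := Finset.card_eq_one.1 h1
  have hps : p ∈ sdv f y c := by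
    rw [hp]
    exact Finset.mem_singleton_self p
  have hpS : p ∈ SP f y := by
    unfold sdv at hps
    exact (Finset.mem_filter.1 hps).1
  have hdv := (sdv_mem (c := c) hpS).1 hps
  have hn : ∀ r ∈ SP f y, r ≠ p → ¬ (PP f r ∣ c ∨ bar (PP f r) ∣ c) := by
    intro r hr hrp h
    have := (sdv_mem (c := c) hr).2 h
    rw [hp, Finset.mem_singleton] at this
    exact hrp this
  have hsum : dL f y c = -(Real.log p * dl f y ⊤) := by
    rw [dL_eq hA hR hc, Finset.sum_eq_single_of_mem p hpS]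
    · rw [← Finset.mul_prod_erase _ _ hpS, if_pos rfl, dl_top hB hA hR,
        ← Finset.mul_prod_erase (SP f y) (fun r => 1 - 1 / (r : ℝ)) hpS]
      have e1 : ∏ r ∈ (SP f y).erase p, (if r = p then Wb f c r else Ub f c r) =
          ∏ r ∈ (SP f y).erase p, (1 - 1 / (r : ℝ)) := by
        apply Finset.prod_congr rfl
        intro r hr
        rw [if_neg (Finset.ne_of_mem_erase hr)]
        unfold Ub
        rw [if_neg (hn r (Finset.mem_of_mem_erase hr) (Finset.ne_of_mem_erase hr))]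
      rw [e1]
      unfold Wb
      rw [if_pos hdv]
      ring
    · intro r _ hrp
      apply Finset.prod_eq_zero hpS
      rw [if_neg (fun h => hrp h.symm)]
      exact Ub_zero hps
  obtain ⟨hp1, hp2⟩ := AC.Prd.mem_SP hpS
  obtain ⟨f1, f2, f3, f4, f5, -⟩ := AC.Prd.facts hB hA hR hp1 hp2
  have hp0 : (0 : ℝ) < p := by exact_mod_cast hp1.pos
  have hp1' : (1 : ℝ) ≤ p := by exact_mod_cast hp1.one_lt.le
  have hle : (p : ℝ) ≤ nm c := by
    have hm := (hB R ω hR.qr).2.2.2.2.2.1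
    rcases hdv with h | h
    · rw [← f4]
      exact hm c _ hc.1 h
    · rw [← f5]
      exact hm c _ hc.1 h
  have hd : 0 ≤ dl f y (⊤ : Ideal R) := by
    rw [dl_top hB hA hR]
    exact Finset.prod_nonneg fun r hr => (fac_bd (AC.Prd.mem_SP hr).1).1
  have hl : 0 ≤ Real.log p := Real.log_nonneg hp1'
  rw [hsum, abs_neg, abs_of_nonneg (mul_nonneg hl hd)]
  exact mul_le_mul_of_nonneg_right (Real.log_le_log hp0 hle) hd

theorem case2 (hA : A_BAR) (hR : QP R ω) {f : Ideal R} {y : ℝ} {c : Ideal R}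
    (hc : Pri c) (h2 : 2 ≤ (sdv f y c).card) : dL f y c = 0 := by
  classical
  rw [dL_eq hA hR hc]
  apply Finset.sum_eq_zero
  intro p _
  obtain ⟨a, b, ha, hb, hab⟩ := Finset.one_lt_card_iff.1 h2
  obtain ⟨r, hr, hrp⟩ : ∃ r ∈ sdv f y c, r ≠ p := by
    by_cases h : a = p
    · exact ⟨b, hb, fun h' => hab (h.trans h'.symm)⟩
    · exact ⟨a, ha, h⟩
  have hrS : r ∈ SP f y := by
    have hr' := hr
    unfold sdv at hr'
    exact (Finset.mem_filter.1 hr').1
  apply Finset.prod_eq_zero hrS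
  rw [if_neg hrp]
  exact Ub_zero hr

end Dl

theorem d_dl (h1 : H_BASIC) (h2 : A_BAR) (_h3 : A_PROD) : D_DL := by
  intro R ω hR f y _ hy c hc
  exact ⟨Dl.case0 h2 hR hy hc, Dl.case1 h1 h2 hR hc, Dl.case2 h2 hR hc⟩

end Pool.Agent.TH936.AD
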