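import Pool.Agent.TH936.AW.Stmts

/-!
# Project AD (owner helper936): the derivative at the centre for sign `-1`

Notation as in the projects AC and AW.  If the sign of `L(ψ χ, s)` is `-1`, its derivative at the
centre is twice a smoothed sum with a weight function `U` (in the end `U = Vd m`) that has a logarithmic
singularity at `0`.  Aim: for every ring class character `χ` of prime conductor `q` and order
`≥ q ^ (2/3 + ε)` some Galois conjugate has a simple zero.  Every `def D_... : Prop` is the statement of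
one part.
-/

set_option autoImplicit false

open Complex

namespace Pool.Agent.TH936.AD

open Pool.Agent.W192.HK Pool.Agent.TH936.AC Pool.Agent.TH936.AW
open Pool.Agent.W192.CY (VW Vk)

/-- weight functions with a logarithmic singularity at `0` -/
structure WL (U : ℝ → ℝ) (κ C : ℝ) : Prop where
  pos : 0 < C
  nonneg : ∀ x : ℝ, 0 < x → 0 ≤ U x
  dec : ∀ x : ℝ, 1 ≤ x → U x ≤ C * Real.exp (-(x / 2))
  log : ∀ x : ℝ, 0 < x → x ≤ 1 → |U x + Real.log x - κ| ≤ C * x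
  anti : AntitoneOn U (Set.Ioi 0)

/-- the weight function of the derivative -/
noncomputable def Vd (m : ℕ) (x : ℝ) : ℝ := ∫ u in Set.Ioi x, Vk m u / u

open Classical in
/-- the small split primes dividing `c` -/
noncomputable def sdv {R : Subring ℂ} (f : Ideal R) (y : ℝ) (c : Ideal R) : Finset ℕ :=
  (SP f y).filter (fun p => PP f p ∣ c ∨ bar (PP f p) ∣ c)

/-- primitive ideals prime to `f` and its conjugate that are divisible by exactly one prime ideal above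
the split primes `≤ y` -/
structure C1 {R : Subring ℂ} (f : Ideal R) (y : ℝ) (c : Ideal R) : Prop where
  pri : Pri c
  cop : IsCoprime c f
  copb : IsCoprime (bar c) f
  one : (sdv f y c).card = 1

open Classical in
/-- the logarithmic derivative of the product formula -/
noncomputable def dL {R : Subring ℂ} (f : Ideal R) (y : ℝ) (c : Ideal R) : ℝ :=
  ∑ b ∈ (SP f y).powerset ×ˢ (SP f y).powerset,
    (sB b : ℝ) / mc f y c b * Real.log ((nB b : ℝ) / (mc f y c b : ℝ) ^ 2)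

/-- WL : the weight function `Vd m` -/
def D_WL : Prop := ∀ m : ℕ, 1 ≤ m → ∃ κ C : ℝ, WL (Vd m) κ C

/-- VLOG : another formula for `Vd m` -/
def D_VLOG : Prop := ∀ m : ℕ, 1 ≤ m → ∀ x : ℝ, 0 < x →
  MeasureTheory.IntegrableOn
    (fun t : ℝ => Real.exp (-(x * t)) * t ^ (m - 1) * Real.log t) (Set.Ioi 1) ∧
  Vd m x = x ^ m / ((m - 1).factorial : ℝ) *
    ∫ t in Set.Ioi (1 : ℝ), Real.exp (-(x * t)) * t ^ (m - 1) * Real.log t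

/-- EPS : the sum over the rational integers -/
def D_EPS : Prop := ∀ (R : Subring ℂ) (ω : ℂ), QP R ω → ∀ (U : ℝ → ℝ) (κ CU : ℝ), WL U κ CU →
  ∀ (f : Ideal R) (g : Ideal R → ℂ), GC f g → ∃ (L0 L1 : ℂ) (C : ℝ), L0 ≠ 0 ∧ 0 < C ∧
  ∀ q : ℕ, q.Prime → IsCoprime f (sp (q : R)) → ∀ w : ℝ, 0 < w →
  Summable (fun m : ℕ => if Nat.Coprime m q then g (sp (m : R)) / (m : ℂ) ^ 2 *
      (U ((m : ℝ) ^ 2 * w) : ℂ) else 0) ∧
  (w ≤ 1 → ‖∑' m : ℕ, (if Nat.Coprime m q then g (sp (m : R)) / (m : ℂ) ^ 2 *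
      (U ((m : ℝ) ^ 2 * w) : ℂ) else 0) - (L0 * ((-Real.log w : ℝ) : ℂ) + L1)‖ ≤
    C * (w ^ (3 / 10 : ℝ) + (1 + |Real.log w| + Real.log q) / q))

/-- DL : the values of `dL` -/
def D_DL : Prop := ∀ (R : Subring ℂ) (ω : ℂ), QP R ω → ∀ (f : Ideal R) (y : ℝ), f ≠ ⊥ → 1 ≤ y →
  ∀ c : Ideal R, Pri c →
    ((sdv f y c).card = 0 → 0 ≤ dL f y c ∧ dL f y c ≤ 4 * (1 + Real.log y) ^ 2) ∧
    ((sdv f y c).card = 1 → |dL f y c| ≤ Real.log (nm c) * dl f y ⊤) ∧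
    (2 ≤ (sdv f y c).card → dL f y c = 0)

/-- PHI : the coefficients of the small primitive ideals (compare `B_PHI`) -/
def D_PHI : Prop := ∀ (R : Subring ℂ) (ω : ℂ), QP R ω → ∀ (U : ℝ → ℝ) (κ CU : ℝ), WL U κ CU →
  ∀ (f : Ideal R) (g : Ideal R → ℂ), GC f g → CS g → ∀ c0 C0 : ℝ, 0 < c0 → 0 < C0 →
  ∃ (L0 L1 : ℂ) (q0 : ℝ), L0 ≠ 0 ∧
  ∀ q : ℕ, q.Prime → IsCoprime f (sp (q : R)) → q0 ≤ q → ∀ X : ℝ, c0 * q ≤ X → X ≤ C0 * q →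
  ∀ c : Ideal R, Pri c → nm c ≤ (q : ℝ) ^ (1 / 100000 : ℝ) →
    ‖PhV U f ((Real.log q) ^ 200) ((q : ℝ) ^ (1 / 10 : ℝ)) X q g c -
      ((L0 * (Real.log (X / nm c) : ℂ) + L1) * (dl f ((Real.log q) ^ 200) c : ℂ) +
        L0 * (dL f ((Real.log q) ^ 200) c : ℂ))‖ ≤ (q : ℝ) ^ (-1 / 50000 : ℝ)

/-- PHI2 : the coefficients of all primitive ideals (compare `B_PHI2`; note `4 η` and `8`) -/
def D_PHI2 : Prop := ∀ (R : Subring ℂ) (ω : ℂ), QP R ω → ∀ (U : ℝ → ℝ) (κ CU : ℝ), WL U κ CU →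
  ∀ (f : Ideal R) (g : Ideal R → ℂ), GC f g → ∀ η : ℝ, 0 < η → ∃ C : ℝ, 0 < C ∧
  ∀ (y Z X : ℝ) (q : ℕ), q.Prime → 1 ≤ Z → 1 ≤ X → ∀ c : Ideal R, Pri c →
    ‖PhV U f y Z X q g c‖ ≤ C * (Z * X) ^ (4 * η) * (nm c) ^ η * Real.exp (-(nm c / (8 * (Z * X))))

open Classical in
/-- REG : the product of the mollifier and the smoothed sum as a sum over the primitive ideals
(compare `B_REG`) -/
def D_REG : Prop := ∀ (R : Subring ℂ) (ω : ℂ), QP R ω → ∀ (U : ℝ → ℝ) (κ CU : ℝ), WL U κ CU →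
  ∀ (f : Ideal R) (g : Ideal R → ℂ), GC f g → Ram f → ∀ (q : ℕ) (χ : Ideal R → ℂ), RG q χ →
  ∀ (y Z X : ℝ), 1 ≤ Z → 1 ≤ X →
    Summable (fun c : Ideal R => if Pri c then ‖g c / (nm c : ℂ) * PhV U f y Z X q g c‖ else 0) ∧
    Ml f y Z g χ * smo U g X χ =
      ∑' c : Ideal R, if Pri c then χ c * (g c / (nm c : ℂ) * PhV U f y Z X q g c) else 0

/-- FE : the derivative at the centre if the sign is `-1` (compare `B_FE`) -/
def D_FE : Prop := ∀ (R : Subring ℂ) (ω : ℂ), QP R ω → ∀ m : ℕ, 1 ≤ m →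
  ∀ (Q : Ideal R) (θ : Ideal R → ℂ),
  HC (2 * m - 1) Q θ → CS θ → ∀ (s : Finset (Ideal R)) (hh : Ideal R) (μ : R) (T : Finset R),
  Sys Q s hh μ T → Wc ω m Q hh μ T θ = -1 → ∀ F : ℂ → ℂ, Differentiable ℂ F →
  (∀ z : ℂ, (m : ℝ) + 1 / 2 < z.re →
    HasSum (fun I : Ideal R => θ I * (nm I : ℂ) ^ (-z)) (F z)) →
  F m = 0 ∧ deriv F m = 2 * ∑' I : Ideal R, θ I / (nm I : ℂ) ^ m *
    (Vd m (nm I / (ω.im * Real.sqrt (nm Q) / Real.pi)) : ℂ)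

/-- RBD : the average over the Galois conjugates, sharp form -/
def D_RBD : Prop := ∀ (R : Subring ℂ) (q : ℕ) (χ : Ideal R → ℂ), RG q χ → ∀ d : ℕ, Od χ d →
  ∀ M : ℕ, 1 ≤ M → M ∣ d → ∀ c : Ideal R, χ c ≠ 0 →
    ((orderOf (χ c)).totient : ℝ) * ‖∑ a ∈ Ea d M, pw χ a c‖ ≤ M * ((Ea d M).card : ℝ)

/-- SCOUNT : counting the ideals `P ^ k c'`, `P` a small split prime and `c'` rough -/
def D_SCOUNT : Prop := ∀ (R : Subring ℂ) (ω : ℂ), QP R ω → ∀ f : Ideal R, f ≠ ⊥ → Ram f →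
  ∃ C q0 : ℝ, 0 < C ∧
  ∀ (q : ℕ) (χ : Ideal R → ℂ), RG q χ → q0 ≤ q → ∀ d : ℕ, Od χ d → (q : ℝ) ^ (2 / 3 : ℝ) ≤ d →
  ∀ r : ℕ, r ∣ d → (r : ℝ) ≤ (q : ℝ) ^ (1 / 100 : ℝ) →
  ∀ Y : ℝ, 1 ≤ Y → Y ≤ (q : ℝ) ^ (1 / 100 : ℝ) →
    (Set.ncard {c : Ideal R | C1 f ((Real.log q) ^ 200) c ∧ nm c ≤ Y ∧ χ c ≠ 0 ∧ χ c ^ r = 1} : ℝ) ≤
      C * Real.log q * Y ^ (2 / 5 : ℝ)

open Classical in
/-- SSUM : the sum over the ideals `P ^ k c'` is a small part of `log q` -/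
def D_SSUM : Prop := ∀ (R : Subring ℂ) (ω : ℂ), QP R ω → ∀ f : Ideal R, f ≠ ⊥ → Ram f →
  ∀ M : ℕ, 1 ≤ M → ∀ δ : ℝ, 0 < δ → ∃ q0 : ℝ,
  ∀ (q : ℕ) (χ : Ideal R → ℂ), RG q χ → q0 ≤ q → ∀ d : ℕ, Od χ d → (q : ℝ) ^ (2 / 3 : ℝ) ≤ d →
  ∀ M₁ : ℕ, 1 ≤ M₁ → M₁ ≤ M → M₁ ∣ d →
    ∑' c : Ideal R, (if C1 f ((Real.log q) ^ 200) c ∧ nm c ≤ (q : ℝ) ^ (1 / 100000 : ℝ) ∧ χ c ≠ 0
      then ‖∑ a ∈ Ea d M₁, pw χ a c‖ * (Real.log (nm c) * (nm c) ^ (-1 / 2 : ℝ)) else 0) ≤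
      δ * Real.log q * ((Ea d M₁).card : ℝ)

end Pool.Agent.TH936.AD
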