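import Pool.Agent.TH936.AW.Phi
import Pool.Agent.TH936.AD.Stmts

/-!
# AD-PHI: the coefficients of the small primitive ideals, logarithmic weight (helper150 for helper936)

Adapted from Pool/Agent/TH936/AW/Phi.lean (helper574) and Pool/Agent/TH936/AC/Phi.lean (helper147).
-/

set_option autoImplicit false

open Complex

namespace Pool.Agent.TH936.AD.Phi

open Pool.Agent.W192.HK Filter Topology
open Pool.Agent.TH936.AC Pool.Agent.TH936.AC.Phi

/-! ### sizes -/

section sizes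
variable {R : Subring ℂ} {f : Ideal R}

lemma mloc_le (c : Ideal R) (b : Finset ℕ × Finset ℕ) {p : ℕ} (hp : 1 ≤ p) :
    mloc f c b p ≤ (if p ∈ b.1 then p else 1) * (if p ∈ b.2 then p else 1) := by
  classical
  have hpp : p ≤ p * p := Nat.le_mul_of_pos_left p hp
  unfold mloc
  by_cases h1 : p ∈ b.1 <;> by_cases h2 : p ∈ b.2 <;>
    simp only [h1, h2, and_true, and_false, if_true, if_false, mul_one, one_mul, le_refl] <;>
    first
      | exact hpp
      | (split_ifs <;> omega)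

lemma mc_le_nB {y : ℝ} (c : Ideal R) {b : Finset ℕ × Finset ℕ}
    (hb : b ∈ (SP f y).powerset ×ˢ (SP f y).powerset) : mc f y c b ≤ nB b := by
  classical
  rw [Finset.mem_product, Finset.mem_powerset, Finset.mem_powerset] at hb
  have h1 : ∏ p ∈ SP f y, (if p ∈ b.1 then p else 1) = ∏ p ∈ b.1, p := by
    rw [Finset.prod_ite_mem, Finset.inter_eq_right.2 hb.1]
  have h2 : ∏ p ∈ SP f y, (if p ∈ b.2 then p else 1) = ∏ p ∈ b.2, p := by
    rw [Finset.prod_ite_mem, Finset.inter_eq_right.2 hb.2]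
  unfold mc nB
  rw [← h1, ← h2, ← Finset.prod_mul_distrib]
  exact Finset.prod_le_prod' fun p hp => mloc_le c b (mem_SP hp).1.one_lt.le

lemma log_prod_le {y : ℝ} (hy : 1 ≤ y) {s : Finset ℕ} (hs : s ⊆ SP f y) :
    Real.log ((∏ p ∈ s, p : ℕ) : ℝ) ≤ 2 * y ^ 2 := by
  classical
  have hcard : (s.card : ℝ) ≤ 2 * y := by
    have h1 : s.card ≤ ⌊y⌋₊ + 1 := by
      have h2 : s ⊆ Finset.range (⌊y⌋₊ + 1) := by
        intro p hp
        have := (mem_SP (hs hp)).2.2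
        exact Finset.mem_range.2 (by omega)
      have := Finset.card_le_card h2
      rwa [Finset.card_range] at this
    have h3 : (s.card : ℝ) ≤ (⌊y⌋₊ : ℝ) + 1 := by exact_mod_cast h1
    have h4 := Nat.floor_le (show (0 : ℝ) ≤ y by linarith)
    linarith
  push_cast
  rw [Real.log_prod fun p hp => by
    have := (mem_SP (hs hp)).1.pos
    positivity]
  calc ∑ p ∈ s, Real.log (p : ℝ) ≤ ∑ _p ∈ s, y := by
        refine Finset.sum_le_sum fun p hp => ?_
        obtain ⟨h1, -, h3⟩ := mem_SP (hs hp)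
        have h4 : (0 : ℝ) < p := by exact_mod_cast h1.pos
        have h5 : Real.log p ≤ p - 1 := Real.log_le_sub_one_of_pos h4
        have h6 : (p : ℝ) ≤ ⌊y⌋₊ := by exact_mod_cast h3
        have h7 := Nat.floor_le (show (0 : ℝ) ≤ y by linarith)
        linarith
    _ = s.card * y := by rw [Finset.sum_const, nsmul_eq_mul]
    _ ≤ 2 * y * y := by gcongr
    _ = 2 * y ^ 2 := by ring

lemma log_nB_le {y : ℝ} (hy : 1 ≤ y) {b : Finset ℕ × Finset ℕ}
    (hb : b ∈ (SP f y).powerset ×ˢ (SP f y).powerset) : Real.log (nB b : ℝ) ≤ 4 * y ^ 2 := by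
  classical
  obtain ⟨p1, p2⟩ := primes_of hb
  rw [Finset.mem_product, Finset.mem_powerset, Finset.mem_powerset] at hb
  have h1 := log_prod_le hy hb.1
  have h2 := log_prod_le hy hb.2
  have h3 : (((∏ p ∈ b.1, p : ℕ)) : ℝ) ≠ 0 := by
    have : 0 < ∏ p ∈ b.1, p := Finset.prod_pos fun p hp => (p1 p hp).pos
    exact_mod_cast this.ne'
  have h4 : (((∏ p ∈ b.2, p : ℕ)) : ℝ) ≠ 0 := by
    have : 0 < ∏ p ∈ b.2, p := Finset.prod_pos fun p hp => (p2 p hp).pos
    exact_mod_cast this.ne'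
  unfold nB
  rw [Nat.cast_mul, Real.log_mul h3 h4]
  linarith

lemma abs_log_le {y : ℝ} (hy : 1 ≤ y) (c : Ideal R) {b : Finset ℕ × Finset ℕ}
    (hb : b ∈ (SP f y).powerset ×ˢ (SP f y).powerset) :
    |Real.log ((nB b : ℝ) / (mc f y c b : ℝ) ^ 2)| ≤ 4 * y ^ 2 := by
  have h1 := log_nB_le hy hb
  have h2 : (1 : ℝ) ≤ mc f y c b := by exact_mod_cast (mc_pos (f := f) y c b)
  have h3 : (mc f y c b : ℝ) ≤ nB b := by exact_mod_cast mc_le_nB c hb
  have h4 : (0 : ℝ) < mc f y c b := by linarith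
  have h5 : (0 : ℝ) < nB b := by linarith
  rw [Real.log_div h5.ne' (by positivity), Real.log_pow]
  have h6 := Real.log_nonneg h2
  have h7 := Real.log_le_log h4 h3
  push_cast
  rw [abs_le]
  constructor <;> linarith

end sizes

/-! ### numerical inequalities -/

lemma ev_log400 (δ : ℝ) (hδ : 0 < δ) : ∀ᶠ q : ℝ in atTop, (Real.log q) ^ 400 ≤ q ^ δ := by
  have h1 := (isLittleO_log_rpow_rpow_atTop (400 : ℝ) hδ).bound (show (0 : ℝ) < 1 by norm_num)
  have h2 : ∀ᶠ q : ℝ in atTop, 1 ≤ Real.log q :=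
    Real.tendsto_log_atTop.eventually_ge_atTop 1
  filter_upwards [h1, h2, eventually_gt_atTop 0] with q h3 h4 h5
  rw [one_mul, Real.norm_eq_abs, Real.norm_eq_abs, abs_of_nonneg (by positivity),
    abs_of_nonneg (by positivity)] at h3
  have h6 : (Real.log q) ^ (400 : ℝ) = (Real.log q) ^ 400 := by
    rw [show (400 : ℝ) = ((400 : ℕ) : ℝ) by norm_num, Real.rpow_natCast]
  rwa [h6] at h3

lemma ev_small' (K a : ℝ) (ha : 0 < a) (e : ℝ) (he : 0 < e) :
    ∀ᶠ q : ℝ in atTop, K * q ^ (-a) ≤ e := by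
  have h := (tendsto_rpow_neg_atTop ha).const_mul K
  rw [mul_zero] at h
  exact (h.eventually (gt_mem_nhds he)).mono fun _ h => h.le

lemma numeric2 (K C c0 C0 : ℝ) (hc0 : 0 < c0) (hK : 0 ≤ K) (hC : 0 ≤ C) :
    ∃ q0 : ℝ, ∀ q : ℝ, q0 ≤ q →
    1 ≤ q ∧ (Real.log q) ^ 200 < q ∧ 1 ≤ Real.log q ∧ C0 ≤ q ∧
    q ^ (1 / 10 : ℝ) * (q ^ (1 / 100000 : ℝ) / (c0 * q)) ≤ q ^ (-(8 / 10) : ℝ) ∧
    q ^ (1 / 100000 : ℝ) ≤ c0 * q ∧
    (q ^ (1 / 10 : ℝ)) ^ 2 * (C * (q ^ (-(24 / 100) : ℝ) + (1 + 4 * Real.log q) / q)) +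
      (K * (Real.log q) ^ 400) * (q ^ (1 / 100000 : ℝ) * ((q ^ (1 / 10 : ℝ)) ^ (-(1 / 1600) : ℝ) *
        Real.exp (3 * (1 + ((Real.log q) ^ 200) ^ (2 * (1 / 1600) : ℝ) / (2 * (1 / 1600))))))
      ≤ q ^ (-1 / 50000 : ℝ) := by
  have hA := ev_small' (2 * C) (1 / 25 - 1 / 50000) (by norm_num) (1 / 2) (by norm_num)
  have hB := ev_small' (1 / c0) (1 / 10 - 1 / 100000) (by norm_num) 1 (by norm_num)
  have hB2 := ev_small' (1 / c0) (1 - 1 / 100000) (by norm_num) 1 (by norm_num)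
  have hL := ev_log400 (1 / 2) (by norm_num)
  have hL2 := ev_log400 (6 / 800000) (by norm_num)
  have hS := ev_small' 5 (26 / 100) (by norm_num) 1 (by norm_num)
  have hD := ev_small' (K * Real.exp 3) (10 / 800000) (by norm_num) (1 / 2) (by norm_num)
  have hE := ev_quarter (10 / (800000 * 2400)) (by norm_num)
  obtain ⟨q0, h⟩ := eventually_atTop.1 ((((hA.and hB).and (hB2.and hL)).and
    ((hL2.and hS).and (hD.and hE))).and (ev_pow.and ((eventually_ge_atTop (1 : ℝ)).and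
    (eventually_ge_atTop C0))))
  refine ⟨q0, fun q hq => ?_⟩
  obtain ⟨⟨⟨⟨a1, a2⟩, a3, a4⟩, ⟨a5, a6⟩, a7, a8⟩, ⟨a9, a10⟩, a11, a12⟩ := h q hq
  have hq0 : 0 < q := by linarith
  have hP : 0 < q ^ (-1 / 50000 : ℝ) := Real.rpow_pos_of_pos hq0 _
  refine ⟨a11, a9, a10, a12, ?_, ?_, ?_⟩
  · -- the bound for `w`
    have e1 : q ^ (1 / 10 : ℝ) * (q ^ (1 / 100000 : ℝ) / (c0 * q)) =
        (1 / c0 * q ^ (-(1 / 10 - 1 / 100000) : ℝ)) * q ^ (-(8 / 10) : ℝ) := by
      have : q ^ (-(1 / 10 - 1 / 100000) : ℝ) * q ^ (-(8 / 10) : ℝ) * q =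
          q ^ (1 / 10 : ℝ) * q ^ (1 / 100000 : ℝ) := by
        conv_lhs => rw [← Real.rpow_add hq0]
        nth_rewrite 2 [← Real.rpow_one q]
        rw [← Real.rpow_add hq0, ← Real.rpow_add hq0]
        norm_num
      field_simp
      linarith
    rw [e1]
    have : 0 < q ^ (-(8 / 10) : ℝ) := Real.rpow_pos_of_pos hq0 _
    nlinarith
  · have e1 : q ^ (1 / 100000 : ℝ) = (1 / c0 * q ^ (-(1 - 1 / 100000) : ℝ)) * (c0 * q) := by
      have : q ^ (-(1 - 1 / 100000) : ℝ) * q = q ^ (1 / 100000 : ℝ) := by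
        nth_rewrite 2 [← Real.rpow_one q]
        rw [← Real.rpow_add hq0]
        norm_num
      rw [← this]
      field_simp
    rw [e1]
    have : 0 < c0 * q := by positivity
    nlinarith
  -- the first term
  have f1 : (q ^ (1 / 10 : ℝ)) ^ 2 * (C * (q ^ (-(24 / 100) : ℝ) + (1 + 4 * Real.log q) / q)) ≤
      (1 / 2) * q ^ (-1 / 50000 : ℝ) := by
    have b1 : (q ^ (1 / 10 : ℝ)) ^ 2 = q ^ (1 / 5 : ℝ) := by
      rw [← Real.rpow_natCast, ← Real.rpow_mul hq0.le]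
      norm_num
    have b2 : (1 + 4 * Real.log q) / q ≤ q ^ (-(24 / 100) : ℝ) := by
      have c1 : Real.log q ≤ q ^ (1 / 2 : ℝ) := by
        refine le_trans ?_ a4
        exact le_self_pow₀ a10 (by norm_num)
      have c2 : 1 + 4 * Real.log q ≤ 5 * q ^ (1 / 2 : ℝ) := by
        have : 1 ≤ q ^ (1 / 2 : ℝ) := Real.one_le_rpow a11 (by norm_num)
        linarith
      rw [div_le_iff₀ hq0]
      refine c2.trans ?_
      have c3 : q ^ (-(24 / 100) : ℝ) * q = q ^ (1 / 2 : ℝ) * q ^ (26 / 100 : ℝ) := by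
        nth_rewrite 2 [← Real.rpow_one q]
        rw [← Real.rpow_add hq0, ← Real.rpow_add hq0]
        norm_num
      have c4 : (5 : ℝ) ≤ q ^ (26 / 100 : ℝ) := by
        have c5 : q ^ (-(26 / 100) : ℝ) * q ^ (26 / 100 : ℝ) = 1 := by
          rw [← Real.rpow_add hq0]
          norm_num
        have c6 : 0 < q ^ (26 / 100 : ℝ) := Real.rpow_pos_of_pos hq0 _
        nlinarith
      rw [c3, mul_comm (5 : ℝ)]
      gcongr
    calc (q ^ (1 / 10 : ℝ)) ^ 2 * (C * (q ^ (-(24 / 100) : ℝ) + (1 + 4 * Real.log q) / q))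
        ≤ q ^ (1 / 5 : ℝ) * (C * (q ^ (-(24 / 100) : ℝ) + q ^ (-(24 / 100) : ℝ))) := by
          rw [b1]
          gcongr
      _ = (2 * C * q ^ (-(1 / 25 - 1 / 50000) : ℝ)) * q ^ (-1 / 50000 : ℝ) := by
          have c1 : q ^ (1 / 5 : ℝ) * q ^ (-(24 / 100) : ℝ) =
              q ^ (-(1 / 25 - 1 / 50000) : ℝ) * q ^ (-1 / 50000 : ℝ) := by
            rw [← Real.rpow_add hq0, ← Real.rpow_add hq0]
            norm_num
          linear_combination (2 * C) * c1
      _ ≤ _ := by gcongr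
  have f2 : (K * (Real.log q) ^ 400) *
      (q ^ (1 / 100000 : ℝ) * ((q ^ (1 / 10 : ℝ)) ^ (-(1 / 1600) : ℝ) *
        Real.exp (3 * (1 + ((Real.log q) ^ 200) ^ (2 * (1 / 1600) : ℝ) / (2 * (1 / 1600)))))) ≤
      (1 / 2) * q ^ (-1 / 50000 : ℝ) := by
    have hx : 0 ≤ Real.log q := by linarith
    have b1 : ((Real.log q) ^ 200) ^ (2 * (1 / 1600) : ℝ) = (Real.log q) ^ (1 / 4 : ℝ) := by
      rw [← Real.rpow_natCast, ← Real.rpow_mul hx]
      norm_num
    have b2 : (q ^ (1 / 10 : ℝ)) ^ (-(1 / 1600) : ℝ) = q ^ (-(1 / 16000) : ℝ) := by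
      rw [← Real.rpow_mul hq0.le]
      norm_num
    rw [b1, b2]
    have b3 : q ^ (6 / 800000 : ℝ) * (q ^ (1 / 100000 : ℝ) * (q ^ (-(1 / 16000) : ℝ) *
        Real.exp (3 * (1 + Real.log q ^ (1 / 4 : ℝ) / (2 * (1 / 1600)))))) ≤
        Real.exp 3 * q ^ (-(10 / 800000) : ℝ) * q ^ (-1 / 50000 : ℝ) := by
      rw [Real.rpow_def_of_pos hq0, Real.rpow_def_of_pos hq0, Real.rpow_def_of_pos hq0,
        Real.rpow_def_of_pos hq0, Real.rpow_def_of_pos hq0, ← Real.exp_add, ← Real.exp_add,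
        ← Real.exp_add, ← Real.exp_add, ← Real.exp_add]
      apply Real.exp_le_exp.2
      generalize (Real.log q) ^ (1 / 4 : ℝ) = t at a8
      generalize Real.log q = x at a8 hx ⊢
      norm_num
      norm_num at a8
      linarith
    calc (K * (Real.log q) ^ 400) * (q ^ (1 / 100000 : ℝ) * (q ^ (-(1 / 16000) : ℝ) *
        Real.exp (3 * (1 + Real.log q ^ (1 / 4 : ℝ) / (2 * (1 / 1600))))))
        ≤ (K * q ^ (6 / 800000 : ℝ)) * (q ^ (1 / 100000 : ℝ) * (q ^ (-(1 / 16000) : ℝ) *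
        Real.exp (3 * (1 + Real.log q ^ (1 / 4 : ℝ) / (2 * (1 / 1600)))))) := by
          gcongr
      _ = K * (q ^ (6 / 800000 : ℝ) * (q ^ (1 / 100000 : ℝ) * (q ^ (-(1 / 16000) : ℝ) *
        Real.exp (3 * (1 + Real.log q ^ (1 / 4 : ℝ) / (2 * (1 / 1600))))))) := by ring
      _ ≤ K * (Real.exp 3 * q ^ (-(10 / 800000) : ℝ) * q ^ (-1 / 50000 : ℝ)) := by gcongr
      _ = (K * Real.exp 3 * q ^ (-(10 / 800000) : ℝ)) * q ^ (-1 / 50000 : ℝ) := by ring
      _ ≤ _ := by gcongr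
  linarith

end Pool.Agent.TH936.AD.Phi

namespace Pool.Agent.TH936.AD

open Pool.Agent.W192.HK Pool.Agent.TH936.AC Pool.Agent.TH936.AW
open Pool.Agent.TH936.AC.Phi (mc_pos mc_coprime mem_BB primes_of nB_pos card_BB)
open Pool.Agent.TH936.AW.Phi (us Ph_eq g_mc)
open Pool.Agent.TH936.AD.Phi

theorem d_phi (h1 : H_BASIC) (h3 : A_BAR) (h4 : D_EPS) (h5 : A_PROD) (h6 : A_RANK) :
    D_PHI := by
  classical
  intro R ω hR U κ CU hU f g hg cs c0 C0 hc0 hC0
  obtain ⟨L0, L1, C, hL0, hC, hE⟩ := h4 R ω hR U κ CU hU f g hg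
  obtain ⟨q0, hq0⟩ := numeric2 (6 * ‖L0‖ + ‖L1‖) C c0 C0 hc0 (by positivity) hC.le
  refine ⟨L0, L1, q0, hL0, ?_⟩
  intro q hq hfq hqq0 X hX1 hX2 c hc hcn
  obtain ⟨n1, n2, n3, n4, n5, n6, n7⟩ := hq0 q hqq0
  set y : ℝ := (Real.log q) ^ 200 with hy
  set Z : ℝ := (q : ℝ) ^ (1 / 10 : ℝ) with hZ
  have hq0' : (0 : ℝ) < q := by linarith
  have hy1 : 1 ≤ y := one_le_pow₀ n3
  have hZ1 : 1 ≤ Z := Real.one_le_rpow n1 (by norm_num)
  have hZq : Z ≤ q := by
    rw [hZ]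
    conv_rhs => rw [← Real.rpow_one (q : ℝ)]
    exact Real.rpow_le_rpow_of_exponent_le n1 (by norm_num)
  obtain ⟨-, -, hnorm1, -, -, -⟩ := h1 R ω hR.qr
  have hX : 0 < X := lt_of_lt_of_le (by positivity) hX1
  have hnc : 1 ≤ nm c := hnorm1 c hc.1
  have hnc0 : 0 < nm c := by linarith
  obtain ⟨-, -, hP⟩ := h5 R ω hR f y hg.ne
  obtain ⟨hPd, hPs⟩ := hP c hc
  have hyq : ⌊y⌋₊ < q := by
    rw [Nat.floor_lt (by linarith)]
    exact n2
  have hsum : ∀ w : ℝ, 0 < w → Summable (us U g q w) ∧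
      (w ≤ 1 → ‖∑' m, us U g q w m - (L0 * ((-Real.log w : ℝ) : ℂ) + L1)‖ ≤
        C * (w ^ (3 / 10 : ℝ) + (1 + |Real.log w| + Real.log q) / q)) :=
    fun w hw => hE q hq hfq w hw
  have hPh := Ph_eq (V := U) (g := g) (f := f) (y := y) (Z := Z) (X := X) (q := q) (c := c) hg.mul
    (fun b hb m => (hPd b (mem_BB.1 hb).1).1 m) (fun b => mc_coprime hq hyq c b)
    (fun b => g_mc h1 h3 hR hg cs y c b) (fun w hw => (hsum w hw).1) hnc0 hX
    (fun b hb => nB_pos (mem_BB.1 hb).1)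
  have hsB : ∀ b, ‖(sB b : ℂ)‖ = 1 := by
    intro b
    unfold sB
    push_cast
    rw [norm_pow, norm_neg, norm_one, one_pow]
  have hmc1 : ∀ b, (1 : ℝ) ≤ mc f y c b := fun b => by
    exact_mod_cast (mc_pos (f := f) y c b)
  -- the function that is summed
  set A : ℂ := L0 * (Real.log (X / nm c) : ℂ) + L1 with hA
  have hmain : A * (dl f y c : ℂ) + L0 * (dL f y c : ℂ) =
      ∑ b ∈ BB f y Z, (sB b : ℂ) / ((mc f y c b : ℕ) : ℂ) *
        (A + L0 * (Real.log ((nB b : ℝ) / (mc f y c b : ℝ) ^ 2) : ℂ)) +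
      ∑ b ∈ ((SP f y).powerset ×ˢ (SP f y).powerset).filter (fun b => ¬ ((nB b : ℝ) ≤ Z)),
        (sB b : ℂ) / ((mc f y c b : ℕ) : ℂ) *
        (A + L0 * (Real.log ((nB b : ℝ) / (mc f y c b : ℝ) ^ 2) : ℂ)) := by
    have e1 : A * (dl f y c : ℂ) + L0 * (dL f y c : ℂ) =
        ∑ b ∈ (SP f y).powerset ×ˢ (SP f y).powerset, (sB b : ℂ) / ((mc f y c b : ℕ) : ℂ) *
        (A + L0 * (Real.log ((nB b : ℝ) / (mc f y c b : ℝ) ^ 2) : ℂ)) := by
      rw [← hPs]
      unfold dL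
      push_cast
      rw [Finset.mul_sum, Finset.mul_sum, ← Finset.sum_add_distrib]
      refine Finset.sum_congr rfl fun b _ => ?_
      ring
    rw [e1, ← Finset.sum_filter_add_sum_filter_not _ (fun b => (nB b : ℝ) ≤ Z)]
    congr 1
  have hdec : PhV U f y Z X q g c - (A * (dl f y c : ℂ) + L0 * (dL f y c : ℂ)) =
      ∑ b ∈ BB f y Z, (sB b : ℂ) / ((mc f y c b : ℕ) : ℂ) *
        (∑' m, us U g q (((mc f y c b : ℕ) : ℝ) ^ 2 * (nm c / (nB b * X))) m -
          (A + L0 * (Real.log ((nB b : ℝ) / (mc f y c b : ℝ) ^ 2) : ℂ))) -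
      ∑ b ∈ ((SP f y).powerset ×ˢ (SP f y).powerset).filter (fun b => ¬ ((nB b : ℝ) ≤ Z)),
        (sB b : ℂ) / ((mc f y c b : ℕ) : ℂ) *
        (A + L0 * (Real.log ((nB b : ℝ) / (mc f y c b : ℝ) ^ 2) : ℂ)) := by
    rw [hPh, hmain, ← sub_sub, ← Finset.sum_sub_distrib]
    congr 1
    refine Finset.sum_congr rfl fun b _ => ?_
    ring
  rw [hdec]
  have hA1 : ‖∑ b ∈ BB f y Z, (sB b : ℂ) / ((mc f y c b : ℕ) : ℂ) *
        (∑' m, us U g q (((mc f y c b : ℕ) : ℝ) ^ 2 * (nm c / (nB b * X))) m -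
          (A + L0 * (Real.log ((nB b : ℝ) / (mc f y c b : ℝ) ^ 2) : ℂ)))‖ ≤
      Z ^ 2 * (C * ((q : ℝ) ^ (-(24 / 100) : ℝ) + (1 + 4 * Real.log q) / q)) := by
    have hB : ∀ b ∈ BB f y Z, ‖(sB b : ℂ) / ((mc f y c b : ℕ) : ℂ) *
        (∑' m, us U g q (((mc f y c b : ℕ) : ℝ) ^ 2 * (nm c / (nB b * X))) m -
          (A + L0 * (Real.log ((nB b : ℝ) / (mc f y c b : ℝ) ^ 2) : ℂ)))‖ ≤
        C * ((q : ℝ) ^ (-(24 / 100) : ℝ) + (1 + 4 * Real.log q) / q) := by
      intro b hb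
      obtain ⟨hb1, hb2⟩ := mem_BB.1 hb
      have hnB : (1 : ℝ) ≤ nB b := by exact_mod_cast nB_pos hb1
      have hm := hmc1 b
      have hm0 : (0 : ℝ) < mc f y c b := by linarith
      have hmn : (mc f y c b : ℝ) ≤ nB b := by exact_mod_cast mc_le_nB c hb1
      have hmZ : (mc f y c b : ℝ) ≤ Z := hmn.trans hb2
      have hw : 0 < ((mc f y c b : ℕ) : ℝ) ^ 2 * (nm c / (nB b * X)) := by positivity
      have hw8 : ((mc f y c b : ℕ) : ℝ) ^ 2 * (nm c / (nB b * X)) ≤ (q : ℝ) ^ (-(8 / 10) : ℝ) := by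
        refine le_trans ?_ n5
        have e1 : ((mc f y c b : ℕ) : ℝ) ^ 2 * (nm c / (nB b * X)) =
            (mc f y c b : ℝ) * ((mc f y c b : ℝ) / nB b) * (nm c / X) := by
          field_simp
        rw [e1]
        have e2 : (mc f y c b : ℝ) / nB b ≤ 1 := (div_le_one (by linarith)).2 hmn
        calc (mc f y c b : ℝ) * ((mc f y c b : ℝ) / nB b) * (nm c / X)
            ≤ Z * 1 * ((q : ℝ) ^ (1 / 100000 : ℝ) / (c0 * q)) := by gcongr
          _ = _ := by rw [mul_one]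
      have hw1 : ((mc f y c b : ℕ) : ℝ) ^ 2 * (nm c / (nB b * X)) ≤ 1 :=
        hw8.trans (Real.rpow_le_one_of_one_le_of_nonpos n1 (by norm_num))
      have hlw : Real.log (((mc f y c b : ℕ) : ℝ) ^ 2 * (nm c / (nB b * X))) =
          -(Real.log (X / nm c) + Real.log ((nB b : ℝ) / (mc f y c b : ℝ) ^ 2)) := by
        rw [← Real.log_mul (by positivity) (by positivity), ← Real.log_inv]
        congr 1
        field_simp
      have hlog : |Real.log (((mc f y c b : ℕ) : ℝ) ^ 2 * (nm c / (nB b * X)))| ≤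
          3 * Real.log q := by
        rw [abs_of_nonpos (Real.log_nonpos hw.le hw1), ← Real.log_inv]
        have e1 : (((mc f y c b : ℕ) : ℝ) ^ 2 * (nm c / (nB b * X)))⁻¹ ≤ (q : ℝ) ^ 3 := by
          have e2 : (((mc f y c b : ℕ) : ℝ) ^ 2 * (nm c / (nB b * X)))⁻¹ =
              (nB b * X) / (((mc f y c b : ℕ) : ℝ) ^ 2 * nm c) := by
            field_simp
          rw [e2]
          have e3 : (1 : ℝ) ≤ ((mc f y c b : ℕ) : ℝ) ^ 2 * nm c :=
            one_le_mul_of_one_le_of_one_le (one_le_pow₀ hm) hnc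
          calc (nB b * X) / (((mc f y c b : ℕ) : ℝ) ^ 2 * nm c) ≤ (nB b * X) / 1 := by
                gcongr
            _ = nB b * X := div_one _
            _ ≤ q * (q * q) := by
                have e4 : (nB b : ℝ) ≤ q := hb2.trans hZq
                have e5 : X ≤ q * q := hX2.trans (by gcongr)
                gcongr
            _ = (q : ℝ) ^ 3 := by ring
        calc Real.log (((mc f y c b : ℕ) : ℝ) ^ 2 * (nm c / (nB b * X)))⁻¹
            ≤ Real.log ((q : ℝ) ^ 3) := Real.log_le_log (by positivity) e1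
          _ = 3 * Real.log q := by rw [Real.log_pow]; norm_num
      have h7 := (hsum _ hw).2 hw1
      have e8 : L0 * ((-Real.log (((mc f y c b : ℕ) : ℝ) ^ 2 * (nm c / (nB b * X))) : ℝ) : ℂ) + L1
          = A + L0 * (Real.log ((nB b : ℝ) / (mc f y c b : ℝ) ^ 2) : ℂ) := by
        rw [hlw, hA]
        push_cast
        ring
      rw [e8] at h7
      rw [norm_mul, norm_div, hsB, Complex.norm_natCast]
      have h8 : 1 / ((mc f y c b : ℕ) : ℝ) ≤ 1 := by
        rw [div_le_one hm0]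
        exact hm
      calc 1 / ((mc f y c b : ℕ) : ℝ) *
            ‖∑' m, us U g q (((mc f y c b : ℕ) : ℝ) ^ 2 * (nm c / (nB b * X))) m -
              (A + L0 * (Real.log ((nB b : ℝ) / (mc f y c b : ℝ) ^ 2) : ℂ))‖
          ≤ 1 * ‖∑' m, us U g q (((mc f y c b : ℕ) : ℝ) ^ 2 * (nm c / (nB b * X))) m -
              (A + L0 * (Real.log ((nB b : ℝ) / (mc f y c b : ℝ) ^ 2) : ℂ))‖ :=
            mul_le_mul_of_nonneg_right h8 (norm_nonneg _)
        _ ≤ C * ((((mc f y c b : ℕ) : ℝ) ^ 2 * (nm c / (nB b * X))) ^ (3 / 10 : ℝ) +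
            (1 + |Real.log (((mc f y c b : ℕ) : ℝ) ^ 2 * (nm c / (nB b * X)))| + Real.log q) / q) := by
            rw [one_mul]
            exact h7
        _ ≤ _ := by
            refine mul_le_mul_of_nonneg_left (add_le_add ?_ ?_) hC.le
            · calc (((mc f y c b : ℕ) : ℝ) ^ 2 * (nm c / (nB b * X))) ^ (3 / 10 : ℝ)
                  ≤ ((q : ℝ) ^ (-(8 / 10) : ℝ)) ^ (3 / 10 : ℝ) :=
                    Real.rpow_le_rpow hw.le hw8 (by norm_num)
                _ = (q : ℝ) ^ (-(24 / 100) : ℝ) := by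
                    rw [← Real.rpow_mul hq0'.le]
                    norm_num
            · refine div_le_div_of_nonneg_right ?_ hq0'.le
              linarith
    calc _ ≤ ∑ b ∈ BB f y Z, C * ((q : ℝ) ^ (-(24 / 100) : ℝ) + (1 + 4 * Real.log q) / q) :=
          (norm_sum_le _ _).trans (Finset.sum_le_sum hB)
      _ = (BB f y Z).card * (C * ((q : ℝ) ^ (-(24 / 100) : ℝ) + (1 + 4 * Real.log q) / q)) := by
          rw [Finset.sum_const, nsmul_eq_mul]
      _ ≤ _ := by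
          have := card_BB (f := f) y Z (by linarith)
          have h9 : 0 ≤ C * ((q : ℝ) ^ (-(24 / 100) : ℝ) + (1 + 4 * Real.log q) / q) := by
            positivity
          exact mul_le_mul_of_nonneg_right this h9
  have hAn : ‖A‖ ≤ 2 * ‖L0‖ * Real.log q + ‖L1‖ := by
    have e0 : 0 ≤ Real.log (X / nm c) := by
      apply Real.log_nonneg
      rw [le_div_iff₀ hnc0, one_mul]
      exact hcn.trans (n6.trans hX1)
    have e1 : Real.log (X / nm c) ≤ 2 * Real.log q := by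
      have e2 : X / nm c ≤ (q : ℝ) ^ 2 := by
        calc X / nm c ≤ X / 1 := by gcongr
          _ = X := div_one _
          _ ≤ C0 * q := hX2
          _ ≤ q * q := by gcongr
          _ = (q : ℝ) ^ 2 := by ring
      calc Real.log (X / nm c) ≤ Real.log ((q : ℝ) ^ 2) := Real.log_le_log (by positivity) e2
        _ = 2 * Real.log q := by rw [Real.log_pow]; norm_num
    rw [hA]
    refine (norm_add_le _ _).trans ?_
    rw [norm_mul, Complex.norm_real, Real.norm_eq_abs, abs_of_nonneg e0]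
    have := mul_le_mul_of_nonneg_left e1 (norm_nonneg L0)
    linarith
  have hD : ‖∑ b ∈ ((SP f y).powerset ×ˢ (SP f y).powerset).filter
        (fun b => ¬ ((nB b : ℝ) ≤ Z)), (sB b : ℂ) / ((mc f y c b : ℕ) : ℂ) *
        (A + L0 * (Real.log ((nB b : ℝ) / (mc f y c b : ℝ) ^ 2) : ℂ))‖ ≤
      ((6 * ‖L0‖ + ‖L1‖) * (Real.log q) ^ 400) *
        ((q : ℝ) ^ (1 / 100000 : ℝ) * (Z ^ (-(1 / 1600) : ℝ) *
        Real.exp (3 * (1 + y ^ (2 * (1 / 1600) : ℝ) / (2 * (1 / 1600)))))) := by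
    have h7 := h6 R f y Z (1 / 1600) hy1 hZ1 (by norm_num) (by norm_num)
    have hl400 : Real.log q ≤ (Real.log q) ^ 400 := le_self_pow₀ n3 (by norm_num)
    have hl1 : (1 : ℝ) ≤ (Real.log q) ^ 400 := one_le_pow₀ n3
    have hy2 : y ^ 2 = (Real.log q) ^ 400 := by
      rw [hy, ← pow_mul]
    calc _ ≤ ∑ b ∈ ((SP f y).powerset ×ˢ (SP f y).powerset).filter
          (fun b => ¬ ((nB b : ℝ) ≤ Z)), ((6 * ‖L0‖ + ‖L1‖) * (Real.log q) ^ 400) *
            (nm c * (1 / (∏ p ∈ b.1 ∪ b.2, (p : ℝ)))) := by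
          refine (norm_sum_le _ _).trans (Finset.sum_le_sum fun b hb => ?_)
          have hb1 := (Finset.mem_filter.1 hb).1
          have h8 := (hPd b hb1).2
          rw [norm_mul, norm_div, hsB, Complex.norm_natCast, mul_comm]
          have h9 : 0 < ∏ p ∈ b.1 ∪ b.2, (p : ℝ) := by
            refine Finset.prod_pos fun p hp => ?_
            rcases Finset.mem_union.1 hp with h | h
            · exact_mod_cast ((primes_of hb1).1 p h).pos
            · exact_mod_cast ((primes_of hb1).2 p h).pos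
          have hm0 : (0 : ℝ) < mc f y c b := by linarith [hmc1 b]
          refine mul_le_mul ?_ ?_ (by positivity) (by positivity)
          · refine (norm_add_le _ _).trans ?_
            rw [norm_mul, Complex.norm_real, Real.norm_eq_abs]
            have e1 := abs_log_le hy1 c hb1
            rw [hy2] at e1
            have e2 := mul_le_mul_of_nonneg_left e1 (norm_nonneg L0)
            have e3 := mul_le_mul_of_nonneg_left hl400 (norm_nonneg L0)
            have e4 := mul_le_mul_of_nonneg_left hl1 (norm_nonneg L1)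
            linarith
          · rw [mul_one_div, div_le_div_iff₀ hm0 h9, one_mul, mul_comm (nm c)]
            exact h8
      _ = ((6 * ‖L0‖ + ‖L1‖) * (Real.log q) ^ 400) *
          (nm c * ∑ b ∈ ((SP f y).powerset ×ˢ (SP f y).powerset).filter
          (fun b => ¬ ((nB b : ℝ) ≤ Z)), 1 / (∏ p ∈ b.1 ∪ b.2, (p : ℝ))) := by
          rw [Finset.mul_sum, Finset.mul_sum]
      _ ≤ _ := by
          refine mul_le_mul_of_nonneg_left ?_ (by positivity)
          refine mul_le_mul hcn ?_ ?_ (by positivity)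
          · convert h7 using 2
          · refine Finset.sum_nonneg fun b _ => ?_
            positivity
  calc _ ≤ _ := norm_sub_le _ _
    _ ≤ _ := add_le_add hA1 hD
    _ ≤ _ := n7

end Pool.Agent.TH936.AD
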