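import Pool.Agent.TH936.AD.Stmts
import Pool.Agent.W930.HK.Mob

/-!
# AD-RBD (helper480, job 4291): the average of `χ(c) ^ a` over the exponents prime to `d`, `a ≡ 1 mod M`

Let `r` be the order of `z = χ(c)` and `g = gcd(r, M)`.  The reduction modulo `r` maps the exponents
`a mod d`, prime to `d`, `a ≡ 1 mod M`, onto the exponents `b mod r`, prime to `r`, `b ≡ 1 mod g`, with
fibres of equal size, and the sum of `z ^ b` over the latter has absolute value at most `1` (Möbius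
inversion).
-/

set_option autoImplicit false

open Complex

namespace Pool.Agent.TH936.AD

open Pool.Agent.W192.HK Pool.Agent.TH936.AC Pool.Agent.TH936.AW

namespace Rbd

lemma mem_Ea {d M a : ℕ} : a ∈ Ea d M ↔ a < d ∧ Nat.Coprime a d ∧ a % M = 1 % M := by
  simp [Ea]

/-- the exponents as a kernel -/
lemma Ea_sum {d M : ℕ} [NeZero d] [NeZero M] (hMd : M ∣ d) (F : ℕ → ℂ) :
    ∑ a ∈ Ea d M, F a = ∑ u : (ZMod.unitsMap hMd).ker, F (((u : (ZMod d)ˣ) : ZMod d).val) := by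
  symm
  refine Finset.sum_bij (fun u _ => ((u : (ZMod d)ˣ) : ZMod d).val) ?_ ?_ ?_ (fun _ _ => rfl)
  · rintro ⟨u, hu⟩ _
    rw [mem_Ea]
    refine ⟨ZMod.val_lt _, ZMod.val_coe_unit_coprime u, ?_⟩
    rw [← ZMod.natCast_eq_natCast_iff']
    rw [MonoidHom.mem_ker] at hu
    have h2 := congrArg (fun z : (ZMod M)ˣ => (z : ZMod M)) hu
    simp only [ZMod.unitsMap_val, Units.val_one] at h2
    rw [Nat.cast_one, ← h2, ZMod.natCast_val]
  · rintro ⟨u, hu⟩ _ ⟨v, hv⟩ _ huv
    refine Subtype.ext (Units.ext ?_)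
    exact ZMod.val_injective d huv
  · intro a ha'
    obtain ⟨had, ha, haM⟩ := mem_Ea.1 ha'
    refine ⟨⟨ZMod.unitOfCoprime a ha, ?_⟩, Finset.mem_univ _, ?_⟩
    · rw [MonoidHom.mem_ker]
      refine Units.ext ?_
      rw [ZMod.unitsMap_val, ZMod.coe_unitOfCoprime, Units.val_one, ZMod.cast_natCast hMd,
        ← Nat.cast_one, ZMod.natCast_eq_natCast_iff']
      exact haM
    · simp only [ZMod.coe_unitOfCoprime, ZMod.val_natCast]
      exact Nat.mod_eq_of_lt had

/-- averages of a function pulled back along a surjective homomorphism -/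
lemma avg {G H : Type*} [Group G] [Group H] [Fintype G] [Fintype H] (f : G →* H)
    (hf : Function.Surjective f) (F : H → ℂ) :
    (Fintype.card H : ℂ) * ∑ u : G, F (f u) = (Fintype.card G : ℂ) * ∑ v : H, F v := by
  have h1 : ∑ u : G, ∑ v : H, F (f u * v) = (Fintype.card G : ℂ) * ∑ v : H, F v := by
    have h3 : ∀ u : G, ∑ v : H, F (f u * v) = ∑ v : H, F v := fun u =>
      Equiv.sum_comp (Equiv.mulLeft (f u)) F
    rw [Finset.sum_congr rfl (fun u _ => h3 u), Finset.sum_const, nsmul_eq_mul, Finset.card_univ]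
  have h2 : ∑ v : H, ∑ u : G, F (f u * v) = (Fintype.card H : ℂ) * ∑ u : G, F (f u) := by
    have h3 : ∀ v : H, ∑ u : G, F (f u * v) = ∑ u : G, F (f u) := by
      intro v
      obtain ⟨w, rfl⟩ := hf v
      simp only [← map_mul]
      exact Equiv.sum_comp (Equiv.mulRight w) (fun u => F (f u))
    rw [Finset.sum_congr rfl (fun v _ => h3 v), Finset.sum_const, nsmul_eq_mul, Finset.card_univ]
  rw [← h1, ← h2, Finset.sum_comm]

/-- the reduction modulo `r` is onto -/
lemma surj {d M r : ℕ} [NeZero d] (hMd : M ∣ d) (hrd : r ∣ d) (v : (ZMod r)ˣ)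
    (hv : v ∈ (ZMod.unitsMap (Nat.gcd_dvd_left r M)).ker) :
    ∃ u ∈ (ZMod.unitsMap hMd).ker, ZMod.unitsMap hrd u = v := by
  have hr0 : r ≠ 0 := fun h => NeZero.ne d (by rw [h] at hrd; exact Nat.eq_zero_of_zero_dvd hrd)
  have hM0 : M ≠ 0 := fun h => NeZero.ne d (by rw [h] at hMd; exact Nat.eq_zero_of_zero_dvd hMd)
  have : NeZero r := ⟨hr0⟩
  have : NeZero M := ⟨hM0⟩
  -- the residue of `v`
  have h1 : (v : ZMod r).val ≡ 1 [MOD Nat.gcd r M] := by
    have : NeZero (Nat.gcd r M) := ⟨Nat.gcd_ne_zero_left hr0⟩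
    rw [MonoidHom.mem_ker] at hv
    have h2 := congrArg (fun z : (ZMod (Nat.gcd r M))ˣ => (z : ZMod (Nat.gcd r M))) hv
    simp only [ZMod.unitsMap_val, Units.val_one] at h2
    rw [← ZMod.natCast_eq_natCast_iff, Nat.cast_one, ← h2, ZMod.natCast_val]
  obtain ⟨w, hw1, hw2⟩ := Nat.chineseRemainder' h1
  -- `w` is prime to the least common multiple
  have hl : Nat.Coprime w (Nat.lcm r M) := by
    have h3 : Nat.Coprime w r := by
      have h4 : Nat.Coprime (v : ZMod r).val r := ZMod.val_coe_unit_coprime v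
      have h5 := hw1.gcd_eq
      unfold Nat.Coprime at h4 ⊢
      rw [h5, h4]
    have h6 : Nat.Coprime w M := by
      have h5 := hw2.gcd_eq
      unfold Nat.Coprime
      rw [h5, Nat.gcd_one_left]
    exact (Nat.Coprime.mul_right h3 h6).coprime_dvd_right (Nat.lcm_dvd_mul r M)
  have hld : Nat.lcm r M ∣ d := Nat.lcm_dvd hrd hMd
  obtain ⟨u, hu⟩ := ZMod.unitsMap_surjective hld (ZMod.unitOfCoprime w hl)
  have hu' : ((u : ZMod d).cast : ZMod (Nat.lcm r M)) = (w : ZMod (Nat.lcm r M)) := by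
    have h2 := congrArg (fun z : (ZMod (Nat.lcm r M))ˣ => (z : ZMod (Nat.lcm r M))) hu
    simpa only [ZMod.unitsMap_val, ZMod.coe_unitOfCoprime] using h2
  have hmod : (u : ZMod d).val ≡ w [MOD Nat.lcm r M] := by
    rw [← ZMod.natCast_eq_natCast_iff, ZMod.natCast_val]
    exact hu'
  refine ⟨u, ?_, ?_⟩
  · rw [MonoidHom.mem_ker]
    refine Units.ext ?_
    rw [ZMod.unitsMap_val, Units.val_one, ← ZMod.natCast_val, ← Nat.cast_one,
      ZMod.natCast_eq_natCast_iff]
    exact (hmod.of_dvd (Nat.dvd_lcm_right r M)).trans hw2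
  · refine Units.ext ?_
    rw [ZMod.unitsMap_val, ← ZMod.natCast_val, ← ZMod.natCast_zmod_val (v : ZMod r),
      ZMod.natCast_eq_natCast_iff]
    exact (hmod.of_dvd (Nat.dvd_lcm_left r M)).trans hw1

/-- the transfer from `d` to `r` -/
lemma transfer {d M r : ℕ} [NeZero d] (hMd : M ∣ d) (hrd : r ∣ d) (z : ℂ) (hz : z ^ r = 1) :
    ((Ea r (Nat.gcd r M)).card : ℂ) * ∑ a ∈ Ea d M, z ^ a =
      ((Ea d M).card : ℂ) * ∑ b ∈ Ea r (Nat.gcd r M), z ^ b := by
  have hr0 : r ≠ 0 := fun h => NeZero.ne d (by rw [h] at hrd; exact Nat.eq_zero_of_zero_dvd hrd)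
  have hM0 : M ≠ 0 := fun h => NeZero.ne d (by rw [h] at hMd; exact Nat.eq_zero_of_zero_dvd hMd)
  have : NeZero r := ⟨hr0⟩
  have : NeZero M := ⟨hM0⟩
  have : NeZero (Nat.gcd r M) := ⟨Nat.gcd_ne_zero_left hr0⟩
  have hgr : Nat.gcd r M ∣ r := Nat.gcd_dvd_left r M
  have hmem : ∀ u : (ZMod.unitsMap hMd).ker,
      ZMod.unitsMap hrd (u : (ZMod d)ˣ) ∈ (ZMod.unitsMap hgr).ker := by
    rintro ⟨u, hu⟩
    rw [MonoidHom.mem_ker] at hu ⊢
    have h2 := congrArg (fun z : (ZMod M)ˣ => (z : ZMod M)) hu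
    simp only [ZMod.unitsMap_val, Units.val_one] at h2
    have h3 : (u : ZMod d).val ≡ 1 [MOD M] := by
      rw [← ZMod.natCast_eq_natCast_iff, Nat.cast_one, ← h2, ZMod.natCast_val]
    refine Units.ext ?_
    rw [ZMod.unitsMap_val, ZMod.unitsMap_val, Units.val_one, ← ZMod.natCast_val,
      ← ZMod.natCast_val, ← Nat.cast_one, ZMod.natCast_eq_natCast_iff, ZMod.val_natCast]
    exact ((Nat.mod_modEq _ _).of_dvd hgr).trans (h3.of_dvd (Nat.gcd_dvd_right r M))
  let f : (ZMod.unitsMap hMd).ker →* (ZMod.unitsMap hgr).ker :=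
    ((ZMod.unitsMap hrd).comp (Subgroup.subtype _)).codRestrict _ hmem
  have hf : Function.Surjective f := by
    rintro ⟨v, hv⟩
    obtain ⟨u, hu1, hu2⟩ := surj hMd hrd v hv
    exact ⟨⟨u, hu1⟩, Subtype.ext hu2⟩
  have h := avg f hf (fun v => z ^ (((v : (ZMod r)ˣ) : ZMod r).val))
  have e1 : ((Ea r (Nat.gcd r M)).card : ℂ) = (Fintype.card (ZMod.unitsMap hgr).ker : ℂ) := by
    have := Ea_sum hgr (fun _ => (1 : ℂ))
    simpa using this
  have e2 : ((Ea d M).card : ℂ) = (Fintype.card (ZMod.unitsMap hMd).ker : ℂ) := by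
    have := Ea_sum hMd (fun _ => (1 : ℂ))
    simpa using this
  rw [e1, e2, Ea_sum hMd, Ea_sum hgr, ← h]
  congr 1
  refine Finset.sum_congr rfl fun u _ => ?_
  show z ^ (((u : (ZMod d)ˣ) : ZMod d).val) =
    z ^ (((ZMod.unitsMap hrd (u : (ZMod d)ˣ) : (ZMod r)ˣ) : ZMod r).val)
  rw [ZMod.unitsMap_val, ← ZMod.natCast_val, ZMod.val_natCast]
  conv_lhs => rw [← Nat.div_add_mod (((u : (ZMod d)ˣ) : ZMod d).val) r]
  rw [pow_add, pow_mul, hz, one_pow, one_mul]

/-- the sum over the exponents modulo the order -/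
lemma small {r g : ℕ} (hr : 0 < r) (hg : 0 < g) (hgr : g ∣ r) (z : ℂ) (hz : orderOf z = r) :
    ‖∑ b ∈ Ea r g, z ^ b‖ ≤ 1 := by
  obtain ⟨t, _, ht⟩ := Pool.Agent.W930.HK.h_mob r g hr hg hgr
  have hzr : z ^ r = 1 := by rw [← hz]; exact pow_orderOf_eq_one z
  have hz1 : ‖z‖ = 1 := norm_eq_one_of_pow_eq_one hzr hr.ne'
  rw [ht (fun a => z ^ a) (fun a => by simp only [pow_add, hzr, mul_one])]
  have hterm : ∀ e ∈ r.divisors.filter (fun e => Nat.Coprime e g), e ≠ r / g →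
      ((ArithmeticFunction.moebius e : ℤ) : ℂ) *
        ∑ j ∈ Finset.range (r / (e * g)), z ^ (t e + e * g * j) = 0 := by
    intro e he hne
    rw [Finset.mem_filter, Nat.mem_divisors] at he
    have heg : e * g ∣ r := Nat.Coprime.mul_dvd_of_dvd_of_dvd he.2 he.1.1 hgr
    have hne1 : z ^ (e * g) ≠ 1 := by
      intro h
      have h1 : r ∣ e * g := by rw [← hz]; exact orderOf_dvd_of_pow_eq_one h
      have h2 : e * g = r := Nat.dvd_antisymm heg h1
      exact hne (by rw [← h2, Nat.mul_div_cancel _ hg])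
    have hs : ∑ j ∈ Finset.range (r / (e * g)), z ^ (t e + e * g * j) = 0 := by
      have h3 : ∀ j ∈ Finset.range (r / (e * g)), z ^ (t e + e * g * j) =
          z ^ t e * (z ^ (e * g)) ^ j := by
        intro j _
        rw [pow_add, pow_mul]
      rw [Finset.sum_congr rfl h3, ← Finset.mul_sum, geom_sum_eq hne1, ← pow_mul,
        Nat.mul_div_cancel' heg, hzr, sub_self, zero_div, mul_zero]
    rw [hs, mul_zero]
  by_cases hc : r / g ∈ r.divisors.filter (fun e => Nat.Coprime e g)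
  · rw [Finset.sum_eq_single_of_mem _ hc (fun e he hne => hterm e he hne)]
    have h4 : r / (r / g * g) = 1 := by
      rw [Nat.div_mul_cancel hgr, Nat.div_self hr]
    rw [h4, Finset.sum_range_one, norm_mul, norm_pow, hz1, one_pow, mul_one]
    have h5 : |ArithmeticFunction.moebius (r / g)| ≤ 1 := ArithmeticFunction.abs_moebius_le_one
    rw [Complex.norm_intCast]
    exact_mod_cast h5
  · rw [Finset.sum_eq_zero]
    · simp
    · intro e he
      exact hterm e he (fun h => hc (h ▸ he))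

/-- the bound -/
lemma main {d M : ℕ} (hd : 0 < d) (hM : 1 ≤ M) (hMd : M ∣ d) (z : ℂ) (hz : z ^ d = 1) :
    ((orderOf z).totient : ℝ) * ‖∑ a ∈ Ea d M, z ^ a‖ ≤ M * ((Ea d M).card : ℝ) := by
  have : NeZero d := ⟨hd.ne'⟩
  have hrd : orderOf z ∣ d := orderOf_dvd_of_pow_eq_one hz
  have hr : 0 < orderOf z := Nat.pos_of_dvd_of_pos hrd hd
  have hg : 0 < Nat.gcd (orderOf z) M := Nat.gcd_pos_of_pos_left _ hr
  have h1 := transfer hMd hrd z (pow_orderOf_eq_one z)
  have h2 := small hr hg (Nat.gcd_dvd_left _ _) z rfl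
  obtain ⟨_, h3, _⟩ := Pool.Agent.W930.HK.h_mob (orderOf z) _ hr hg (Nat.gcd_dvd_left (orderOf z) M)
  have h4 : ((Ea (orderOf z) (Nat.gcd (orderOf z) M)).card : ℝ) * ‖∑ a ∈ Ea d M, z ^ a‖ ≤
      (Ea d M).card := by
    have h5 := congrArg norm h1
    rw [norm_mul, norm_mul, Complex.norm_natCast, Complex.norm_natCast] at h5
    rw [h5]
    calc ((Ea d M).card : ℝ) * _ ≤ (Ea d M).card * 1 :=
          mul_le_mul_of_nonneg_left h2 (Nat.cast_nonneg _)
      _ = _ := mul_one _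
  have h6 : ((Nat.gcd (orderOf z) M).totient : ℝ) ≤ M := by
    have h7 : (Nat.gcd (orderOf z) M).totient ≤ M :=
      (Nat.totient_le _).trans (Nat.le_of_dvd (by omega) (Nat.gcd_dvd_right _ _))
    exact_mod_cast h7
  rw [← h3]
  push_cast
  calc ((Ea (orderOf z) (Nat.gcd (orderOf z) M)).card : ℝ) *
        ((Nat.gcd (orderOf z) M).totient : ℝ) * ‖∑ a ∈ Ea d M, z ^ a‖
      = ((Nat.gcd (orderOf z) M).totient : ℝ) *
        (((Ea (orderOf z) (Nat.gcd (orderOf z) M)).card : ℝ) * ‖∑ a ∈ Ea d M, z ^ a‖) := by ring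
    _ ≤ M * ((Ea d M).card : ℝ) := by
        apply mul_le_mul h6 h4 (by positivity) (by positivity)

end Rbd

theorem d_rbd : D_RBD := by
  intro R q χ _ d hd M hM hMd c hc
  have hpw : ∀ a, pw χ a c = χ c ^ a := by
    intro a
    simp [pw, hc]
  simp only [hpw]
  exact Rbd.main hd.pos hM hMd (χ c) (hd.pow c hc)

end Pool.Agent.TH936.AD
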