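import Pool.Agent.TH936.AD.Stmts
import Pool.Agent.TH936.AC.Count
import Pool.Agent.TH936.AC.Asm1

/-!
Project AD, part SCOUNT: counting the ideals `P ^ k c1`, `P` a small split prime and `c1` rough.
-/

set_option autoImplicit false

namespace Pool.Agent.TH936.AD

open Pool.Agent.W192.HK Pool.Agent.TH936.AC Pool.Agent.TH936.AC.Count

namespace Scount

open Finset

section

variable {R : Subring ℂ} {ω : ℂ}

theorem pp_spec {f : Ideal R} {y : ℝ} {p : ℕ} (h : p ∈ SP f y) : IsPP f p (PP f p) := by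
  classical
  unfold SP at h
  rw [Finset.mem_filter] at h
  have hex := h.2.2
  have hPP : PP f p = Classical.choose hex := by
    unfold PP
    rw [dif_pos hex]
  rw [hPP]
  exact Classical.choose_spec hex

theorem pp_ne {f : Ideal R} {y : ℝ} {p : ℕ} (h : p ∈ SP f y) : sp (p : R) ≠ ⊥ := by
  classical
  unfold SP at h
  rw [Finset.mem_filter] at h
  intro h0
  rw [Ideal.span_singleton_eq_bot] at h0
  exact h.2.1.ne_zero (by exact_mod_cast (congrArg Subtype.val h0))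

theorem small (h1 : H_BASIC) (h2 : A_BAR) (hR : QP R ω) {f : Ideal R} {y : ℝ} {c : Ideal R}
    (hc : Pri c) (hcf : IsCoprime c f) (hcf' : IsCoprime (bar c) f) {Q : Ideal R}
    (hQ : Q.IsPrime) (hQ0 : Q ≠ ⊥) (hQc : Q ∣ c) (hn : nm Q ≤ y) :
    ∃ p ∈ SP f y, (PP f p ∣ c ∨ bar (PP f p) ∣ c) ∧ (Q = PP f p ∨ Q = bar (PP f p)) := by
  classical
  have hded := hR.qr.ded
  obtain ⟨-, -, -, -, -, -, -, -, -, -, -, k12, k13, -⟩ := h2 R ω hR
  have hbQ : bar Q ∣ bar c := (k13 Q c).2 hQc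
  have hPQ : Pri Q := ⟨hQ0, (hc.2.of_isCoprime_of_dvd_left hQc).of_isCoprime_of_dvd_right hbQ⟩
  have hQm : Q.IsMaximal := hQ.isMaximal hQ0
  by_contra hno
  push Not at hno
  have hr : Rgh y Q := rgh_of h1 h2 hR hPQ (hcf.of_isCoprime_of_dvd_left hQc)
    (hcf'.of_isCoprime_of_dvd_left hbQ) (by
      intro p hp
      have hs := pp_spec hp
      constructor
      · intro hd
        have he : Q = PP f p := hQm.eq_of_le hs.1.ne_top (Ideal.dvd_iff_le.1 hd)
        exact (hno p hp (Or.inl (hd.trans hQc))).1 he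
      · intro hd
        have he : Q = bar (PP f p) := hQm.eq_of_le (k12 _ hs.1).ne_top (Ideal.dvd_iff_le.1 hd)
        exact (hno p hp (Or.inr (hd.trans hQc))).2 he)
  have := hr Q hQ hQ0 dvd_rfl
  linarith

theorem dec1 (h1 : H_BASIC) (h2 : A_BAR) (hR : QP R ω) {f : Ideal R} {y : ℝ} {c : Ideal R}
    (hc : C1 f y c) : ∃ (P : Ideal R) (k : ℕ) (c' : Ideal R), Prime P ∧ 1 ≤ k ∧ c = P ^ k * c' ∧
      ∀ Q : Ideal R, Prime Q → Q ∣ c' → y < nm Q := by
  classical
  have hded := hR.qr.ded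
  obtain ⟨-, -, k3, -, -, -, -, -, -, kbot, -, k12, k13, -⟩ := h2 R ω hR
  obtain ⟨p, hp⟩ := Finset.card_eq_one.1 hc.one
  have hpm : p ∈ sdv f y c := by rw [hp]; exact Finset.mem_singleton_self _
  have hpm' := hpm
  unfold sdv at hpm'
  rw [Finset.mem_filter] at hpm'
  obtain ⟨hpS, hpd⟩ := hpm'
  obtain ⟨s1, s2, s3, -⟩ := pp_spec hpS
  have hp0 : sp (p : R) ≠ ⊥ := pp_ne hpS
  have s0 : PP f p ≠ ⊥ := by
    intro h0
    rw [h0, Ideal.bot_mul] at s2
    exact hp0 s2.symm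
  have s0' : bar (PP f p) ≠ ⊥ := by
    intro h0
    rw [h0, Ideal.mul_bot] at s2
    exact hp0 s2.symm
  obtain ⟨P, hP, hP0, hPc, hPQ⟩ : ∃ P : Ideal R, P.IsPrime ∧ P ≠ ⊥ ∧ P ∣ c ∧
      ∀ Q : Ideal R, (Q = PP f p ∨ Q = bar (PP f p)) → Q = P ∨ Q = bar P := by
    rcases hpd with h | h
    · exact ⟨PP f p, s1, s0, h, fun Q hQ => hQ⟩
    · exact ⟨bar (PP f p), k12 _ s1, s0', h, fun Q hQ => by rw [k3]; exact hQ.symm⟩
  have hPr : Prime P := Ideal.prime_of_isPrime hP0 hP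
  obtain ⟨k, a, hka, hca⟩ := WfDvdMonoid.max_power_factor (a₀ := c) hc.pri.1 hPr.irreducible
  refine ⟨P, k, a, hPr, ?_, hca, ?_⟩
  · rcases Nat.eq_zero_or_pos k with h0 | h0
    · exfalso
      rw [h0, pow_zero, one_mul] at hca
      exact hka (hca ▸ hPc)
    · exact h0
  · intro Q hQ hQa
    by_contra hle
    push Not at hle
    have hQc : Q ∣ c := by rw [hca]; exact hQa.mul_left _
    obtain ⟨p', hp'S, hp'd, hQp⟩ := small h1 h2 hR hc.pri hc.cop hc.copb
      (Ideal.isPrime_of_prime hQ) hQ.ne_zero hQc hle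
    have hp'm : p' ∈ sdv f y c := by
      unfold sdv
      rw [Finset.mem_filter]
      exact ⟨hp'S, hp'd⟩
    rw [hp, Finset.mem_singleton] at hp'm
    rw [hp'm] at hQp
    rcases hPQ Q hQp with h | h
    · exact hka (h ▸ hQa)
    · have hb : bar P ∣ c := h ▸ hQc
      have hb' : bar P ∣ bar c := (k13 P c).2 hPc
      have h4 : IsCoprime (bar P) (bar P) :=
        (hc.pri.2.of_isCoprime_of_dvd_left hb).of_isCoprime_of_dvd_right hb'
      rw [Ideal.isCoprime_iff_sup_eq, sup_idem] at h4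
      exact (k12 P hP).ne_top h4

/-- the prime powers dividing `K` -/
def Wp (K : Ideal R) : Set (Ideal R) :=
  {A | A ∣ K ∧ ∃ (P : Ideal R) (k : ℕ), Prime P ∧ 1 ≤ k ∧ A = P ^ k}

theorem wp_bound [IsDedekindDomain R] (hmul : ∀ I J : Ideal R, nm (I * J) = nm I * nm J)
    (hnm : ∀ I : Ideal R, I ≠ ⊥ → 1 ≤ nm I)
    (hnm2 : ∀ P : Ideal R, Prime P → 2 ≤ nm P) (K : Ideal R) :
    K ≠ 0 → (Wp K).Finite ∧ ((Wp K).ncard : ℝ) ≤ Real.log (nm K) / Real.log 2 := by
  classical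
  have hl2 : 0 < Real.log 2 := Real.log_pos (by norm_num)
  induction K using UniqueFactorizationMonoid.induction_on_prime with
  | h₁ => intro h; exact absurd rfl h
  | h₂ x hx =>
    intro hx0
    have hW : Wp x = ∅ := by
      ext A
      simp only [Wp, Set.mem_ofPred_eq, Set.mem_empty_iff_false, iff_false]
      rintro ⟨hA, P, k, hP, hk, rfl⟩
      exact hP.not_isUnit (isUnit_of_dvd_unit ((dvd_pow_self P (by omega)).trans hA) hx)
    rw [hW]
    refine ⟨Set.finite_empty, ?_⟩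
    rw [Set.ncard_empty, Nat.cast_zero]
    exact div_nonneg (Real.log_nonneg (hnm x hx0)) hl2.le
  | h₃ K P hK hP ih =>
    intro _
    obtain ⟨hfin, hcard⟩ := ih hK
    obtain ⟨m, a, hm, hKm⟩ := WfDvdMonoid.max_power_factor hK hP.irreducible
    have hsub : Wp (P * K) ⊆ insert (P ^ (m + 1)) (Wp K) := by
      rintro A ⟨hA, Q, k, hQ, hk, rfl⟩
      by_cases hQP : Q = P
      · subst hQP
        by_cases hkm : k ≤ m
        · right
          refine ⟨(pow_dvd_pow Q hkm).trans ?_, Q, k, hQ, hk, rfl⟩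
          rw [hKm]
          exact dvd_mul_right _ _
        · left
          by_cases hk2 : k = m + 1
          · rw [hk2]
          · exfalso
            have h3 : Q ^ (m + 1) * Q ∣ Q ^ (m + 1) * a := by
              have h4 : Q ^ (m + 1) * Q ∣ Q ^ k := by
                rw [← pow_succ]
                exact pow_dvd_pow Q (by omega)
              refine h4.trans (hA.trans ?_)
              rw [hKm, ← mul_assoc, ← pow_succ']
            exact hm ((mul_dvd_mul_iff_left (pow_ne_zero _ hQ.ne_zero)).1 h3)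
      · right
        refine ⟨?_, Q, k, hQ, hk, rfl⟩
        refine hQ.pow_dvd_of_dvd_mul_left k ?_ hA
        intro hd
        exact hQP (associated_iff_eq.1 (hQ.associated_of_dvd hP hd))
    refine ⟨(hfin.insert _).subset hsub, ?_⟩
    have h1 : (Wp (P * K)).ncard ≤ (Wp K).ncard + 1 :=
      (Set.ncard_le_ncard hsub (hfin.insert _)).trans (Set.ncard_insert_le _ _)
    have hK1 : 1 ≤ nm K := hnm K hK
    have hP2 := hnm2 P hP
    calc ((Wp (P * K)).ncard : ℝ) ≤ (Wp K).ncard + 1 := by exact_mod_cast h1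
      _ ≤ Real.log (nm K) / Real.log 2 + 1 := by linarith
      _ ≤ Real.log (nm (P * K)) / Real.log 2 := by
        rw [hmul, Real.log_mul (by linarith) (by linarith), add_div, add_comm]
        gcongr
        rw [le_div_iff₀ hl2, one_mul]
        exact Real.log_le_log (by norm_num) hP2

theorem fib_bound [IsDedekindDomain R] (hmul : ∀ I J : Ideal R, nm (I * J) = nm I * nm J)
    (nm1 : nm (1 : Ideal R) = 1) (hnm : ∀ I : Ideal R, I ≠ ⊥ → 1 ≤ nm I)
    (hnm2 : ∀ P : Ideal R, Prime P → 2 ≤ nm P) {j : ℕ} (hj : 1 ≤ j) {z : ℝ} (hz : 1 < z)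
    (S : Finset (Ideal R))
    (hS : ∀ c ∈ S, ∃ (P : Ideal R) (k : ℕ) (c' : Ideal R), Prime P ∧ 1 ≤ k ∧ c = P ^ k * c' ∧
      ∀ Q : Ideal R, Prime Q → Q ∣ c' → z < nm Q) {K : Ideal R} (hK : K ≠ 0) :
    (Finset.card {g ∈ Fintype.piFinset (fun _ : Fin j => S) | ∏ i, g i = K} : ℝ) ≤
      (Real.log (nm K) / Real.log 2) ^ j * (j : ℝ) ^ (Real.log (nm K) / Real.log z) := by
  classical
  have hlz : 0 < Real.log z := Real.log_pos hz
  have hj1 : (1 : ℝ) ≤ j := by exact_mod_cast hj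
  have hS' : ∀ c : Ideal R, ∃ A B : Ideal R, c ∈ S → (∃ (P : Ideal R) (k : ℕ), Prime P ∧ 1 ≤ k ∧
      A = P ^ k) ∧ c = A * B ∧ ∀ Q : Ideal R, Prime Q → Q ∣ B → z < nm Q := by
    intro c
    by_cases hc : c ∈ S
    · obtain ⟨P, k, c', h1, h2, h3, h4⟩ := hS c hc
      exact ⟨P ^ k, c', fun _ => ⟨⟨P, k, h1, h2, rfl⟩, h3, h4⟩⟩
    · exact ⟨1, 1, fun h => absurd h hc⟩
  choose A B hAB using hS'
  obtain ⟨hWf, hWc⟩ := wp_bound hmul hnm hnm2 K hK
  obtain ⟨F, hF⟩ : ∃ F : Finset (Fin j → Ideal R),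
    F = {g ∈ Fintype.piFinset (fun _ : Fin j => S) | ∏ i, g i = K} := ⟨_, rfl⟩
  have hFm : ∀ g, g ∈ F ↔ (∀ i, g i ∈ S) ∧ ∏ i, g i = K := by
    intro g
    rw [hF, Finset.mem_filter, Fintype.mem_piFinset]
  have hmaps : ∀ g ∈ F, (fun i => A (g i)) ∈ Fintype.piFinset (fun _ : Fin j => hWf.toFinset) := by
    intro g hg
    obtain ⟨hg1, hg2⟩ := (hFm g).1 hg
    rw [Fintype.mem_piFinset]
    intro i
    rw [Set.Finite.mem_toFinset]
    obtain ⟨h3, h4, -⟩ := hAB (g i) (hg1 i)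
    refine ⟨?_, h3⟩
    have h5 : A (g i) ∣ g i := by
      nth_rewrite 2 [h4]
      exact dvd_mul_right _ _
    refine h5.trans ?_
    rw [← hg2]
    exact Finset.dvd_prod_of_mem g (Finset.mem_univ i)
  have hfib : ∀ a ∈ Fintype.piFinset (fun _ : Fin j => hWf.toFinset),
      (Finset.card {g ∈ F | (fun i => A (g i)) = a} : ℝ) ≤
        (j : ℝ) ^ (Real.log (nm K) / Real.log z) := by
    intro a _
    rcases Finset.eq_empty_or_nonempty {g ∈ F | (fun i => A (g i)) = a} with h | ⟨g0, hg0⟩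
    · rw [h, Finset.card_empty, Nat.cast_zero]
      positivity
    · rw [Finset.mem_filter] at hg0
      obtain ⟨hg0F, hg0a⟩ := hg0
      obtain ⟨hg0S, hg0K⟩ := (hFm g0).1 hg0F
      have hdec : ∀ g ∈ F, (fun i => A (g i)) = a → (∏ i, a i) * ∏ i, B (g i) = K := by
        intro g hg hga
        obtain ⟨hg1, hg2⟩ := (hFm g).1 hg
        rw [← hga, ← Finset.prod_mul_distrib, ← hg2]
        exact Finset.prod_congr rfl fun i _ => ((hAB (g i) (hg1 i)).2.1).symm
      have hd0 := hdec g0 hg0F hg0a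
      have ha0 : (∏ i, a i) ≠ 0 := by
        intro h0
        rw [h0, zero_mul] at hd0
        exact hK hd0.symm
      have hK'0 : (∏ i, B (g0 i)) ≠ 0 := by
        intro h0
        rw [h0, mul_zero] at hd0
        exact hK hd0.symm
      have hr : ∀ P : Ideal R, Prime P → P ∣ ∏ i, B (g0 i) → z < nm P := by
        intro P hP hd
        obtain ⟨i, -, hi⟩ := (Prime.dvd_finsetProd_iff hP (fun i => B (g0 i))).1 hd
        exact (hAB _ (hg0S i)).2.2 P hP hi
      obtain ⟨hf1, hf2⟩ := fac_bound hmul nm1 hnm (j := j) hj hz (∏ i, B (g0 i)) hK'0 hr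
      have hle : ((Fac j (∏ i, B (g0 i))).ncard : ℝ) ≤ (j : ℝ) ^ (Real.log (nm K) / Real.log z) := by
        refine hf2.trans (Real.rpow_le_rpow_of_exponent_le hj1 ?_)
        have h3 : 1 ≤ nm (∏ i, a i) := hnm _ ha0
        have h4 : 1 ≤ nm (∏ i, B (g0 i)) := hnm _ hK'0
        have h5 : nm (∏ i, B (g0 i)) ≤ nm K := by
          rw [← hd0, hmul]
          nlinarith
        gcongr
      refine le_trans ?_ hle
      have hcd : Finset.card {g ∈ F | (fun i => A (g i)) = a} ≤ hf1.toFinset.card := by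
        refine Finset.card_le_card_of_injOn (fun g => fun i => B (g i)) ?_ ?_
        · intro g hg
          rw [Finset.mem_coe, Finset.mem_filter] at hg
          rw [Finset.mem_coe, Set.Finite.mem_toFinset]
          have h3 := hdec g hg.1 hg.2
          rw [← hd0] at h3
          exact mul_left_cancel₀ ha0 h3
        · intro g hg g' hg' he
          rw [Finset.mem_coe, Finset.mem_filter] at hg hg'
          obtain ⟨hg1, -⟩ := (hFm g).1 hg.1
          obtain ⟨hg1', -⟩ := (hFm g').1 hg'.1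
          funext i
          have h3 := (hAB (g i) (hg1 i)).2.1
          have h4 := (hAB (g' i) (hg1' i)).2.1
          have h5 : A (g i) = A (g' i) := by
            have := hg.2.trans hg'.2.symm
            exact congrFun this i
          have h6 : B (g i) = B (g' i) := congrFun he i
          rw [h3, h4, h5, h6]
      rw [Set.ncard_eq_toFinset_card _ hf1]
      exact_mod_cast hcd
  have hcW : ((hWf.toFinset.card : ℕ) : ℝ) ≤ Real.log (nm K) / Real.log 2 := by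
    rw [Set.ncard_eq_toFinset_card _ hWf] at hWc
    exact hWc
  rw [← hF, Finset.card_eq_sum_card_fiberwise hmaps]
  push_cast
  calc ∑ a ∈ Fintype.piFinset (fun _ : Fin j => hWf.toFinset),
        (Finset.card {g ∈ F | (fun i => A (g i)) = a} : ℝ)
      ≤ ∑ _a ∈ Fintype.piFinset (fun _ : Fin j => hWf.toFinset),
        (j : ℝ) ^ (Real.log (nm K) / Real.log z) := Finset.sum_le_sum hfib
    _ = (hWf.toFinset.card : ℝ) ^ j * (j : ℝ) ^ (Real.log (nm K) / Real.log z) := by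
        rw [Finset.sum_const, nsmul_eq_mul, Fintype.card_piFinset, Finset.prod_const,
          Finset.card_univ, Fintype.card_fin]
        push_cast
        rfl
    _ ≤ _ := by gcongr

/-- the power trick -/
theorem power_trick2 [IsDedekindDomain R] {c₀ : Ideal R} {χ : Ideal R → ℂ} (hχ : RC c₀ χ)
    (hmul : ∀ I J : Ideal R, nm (I * J) = nm I * nm J) (nm1 : nm (1 : Ideal R) = 1)
    {j k : ℕ} {y w D : ℝ} (hw : 0 ≤ w) (S S' : Finset (Ideal R))
    (hS : ∀ I ∈ S, nm I ≤ y ∧ χ I ≠ 0 ∧ χ I ^ k = 1) (hsub : S' ⊆ S)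
    (hcard : (S.card : ℝ) ≤ w * S'.card)
    (hpri : ∀ g : Fin j → Ideal R, (∀ i, g i ∈ S') → Pri (∏ i, g i))
    (hT : {c : Ideal R | Pri c ∧ nm c ≤ y ^ j ∧ χ c ≠ 0 ∧ χ c ^ k = 1}.Finite)
    (hfib : ∀ K : Ideal R, K ≠ 0 → nm K ≤ y ^ j →
      (Finset.card {g ∈ Fintype.piFinset (fun _ : Fin j => S') | ∏ i, g i = K} : ℝ) ≤ D) :
    (S.card : ℝ) ^ j ≤ w ^ j * (D * (cntP χ k (y ^ j) : ℝ)) := by
  classical
  obtain ⟨T, hTd⟩ : ∃ T, T = hT.toFinset := ⟨_, rfl⟩
  have hTc : cntP χ k (y ^ j) = T.card := by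
    unfold cntP
    rw [Set.ncard_eq_toFinset_card _ hT, hTd]
  have hTm : ∀ c, c ∈ T ↔ Pri c ∧ nm c ≤ y ^ j ∧ χ c ≠ 0 ∧ χ c ^ k = 1 := by
    intro c
    rw [hTd, Set.Finite.mem_toFinset]
    rfl
  have hmaps : ∀ g ∈ Fintype.piFinset (fun _ : Fin j => S'), (∏ i, g i) ∈ T := by
    intro g hg
    rw [Fintype.mem_piFinset] at hg
    have hg' := fun i => hS (g i) (hsub (hg i))
    rw [hTm]
    refine ⟨hpri g hg, ?_, ?_, ?_⟩
    · rw [nm_prod hmul nm1]
      calc ∏ i, nm (g i) ≤ ∏ _i : Fin j, y :=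
            Finset.prod_le_prod (fun i _ => nm_nonneg _) fun i _ => (hg' i).1
        _ = y ^ j := by rw [Finset.prod_const, Finset.card_univ, Fintype.card_fin]
    · rw [chi_prod hχ]
      exact Finset.prod_ne_zero_iff.mpr fun i _ => (hg' i).2.1
    · rw [chi_prod hχ, ← Finset.prod_pow]
      exact Finset.prod_eq_one fun i _ => (hg' i).2.2
  have hcardS' : (S'.card : ℝ) ^ j = ((Fintype.piFinset (fun _ : Fin j => S')).card : ℝ) := by
    rw [Fintype.card_piFinset, Finset.prod_const, Finset.card_univ, Fintype.card_fin]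
    push_cast
    rfl
  have h1 : (S'.card : ℝ) ^ j ≤ D * T.card := by
    rw [hcardS', Finset.card_eq_sum_card_fiberwise hmaps]
    push_cast
    calc ∑ K ∈ T, (Finset.card {g ∈ Fintype.piFinset (fun _ : Fin j => S') | ∏ i, g i = K} : ℝ)
        ≤ ∑ _K ∈ T, D := Finset.sum_le_sum fun K hK =>
          hfib K ((hTm K).1 hK).1.1 ((hTm K).1 hK).2.1
      _ = D * T.card := by rw [Finset.sum_const, nsmul_eq_mul, mul_comm]
  rw [hTc]
  calc (S.card : ℝ) ^ j ≤ (w * S'.card) ^ j := by gcongr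
    _ = w ^ j * (S'.card : ℝ) ^ j := mul_pow _ _ _
    _ ≤ w ^ j * (D * T.card) := by gcongr

end

theorem num {q Y C0 M : ℝ} {j : ℕ} (hq : 0 < q) (hq6 : 6 ≤ Real.log q) (hY2 : 2 ≤ Y)
    (hYq : Y ≤ q ^ (1 / 100 : ℝ)) (hj : j = ⌊Real.log q / Real.log Y⌋₊) (hC0 : 1 ≤ C0)
    (hM0 : 0 ≤ M) (hM : M ≤ C0 * q ^ (103 / 300 : ℝ)) :
    1 ≤ j ∧ Y ^ j ≤ q ∧
    (2 * (2 : ℝ) ^ (Real.log Y / Real.log ((Real.log q) ^ 200))) ^ j *
      ((((j : ℝ) * Real.log Y / Real.log 2) ^ j *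
        (j : ℝ) ^ ((j : ℝ) * Real.log Y / Real.log ((Real.log q) ^ 200))) * M) ≤
      (4 * C0 * Real.log q * Y ^ (2 / 5 : ℝ)) ^ j := by
  have hY0 : 0 < Y := by linarith
  have hY1 : 1 ≤ Y := by linarith
  have hl2 : 0.6931471803 < Real.log 2 := Real.log_two_gt_d9
  have hl20 : 0 < Real.log 2 := by linarith
  obtain ⟨l, hl⟩ : ∃ l, l = Real.log q := ⟨_, rfl⟩
  obtain ⟨t, ht⟩ : ∃ t, t = Real.log Y := ⟨_, rfl⟩
  have ht2 : Real.log 2 ≤ t := by
    rw [ht]
    exact Real.log_le_log (by norm_num) hY2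
  have ht0 : 0 < t := by linarith
  have htl : 100 * t ≤ l := by
    have h3 := Real.log_le_log hY0 hYq
    rw [Real.log_rpow hq, ← hl, ← ht] at h3
    linarith
  rw [← hl] at hq6 hj ⊢
  rw [← ht] at hj ⊢
  have hl0 : 0 < l := by linarith
  have hjle : (j : ℝ) ≤ l / t := by
    rw [hj]
    exact Nat.floor_le (by positivity)
  have hjlt : l / t < (j : ℝ) + 1 := by
    rw [hj]
    exact Nat.lt_floor_add_one _
  have hj100 : 100 ≤ j := by
    rw [hj]
    refine Nat.le_floor ?_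
    rw [le_div_iff₀ ht0]
    push_cast
    exact htl
  have hj100' : (100 : ℝ) ≤ j := by exact_mod_cast hj100
  have hj0 : (0 : ℝ) < j := by linarith
  have hjt : (j : ℝ) * t ≤ l := by rwa [le_div_iff₀ ht0] at hjle
  have hjt2 : l < ((j : ℝ) + 1) * t := by rwa [div_lt_iff₀ ht0] at hjlt
  have hYe : Y = Real.exp t := by rw [ht, Real.exp_log hY0]
  have hqe : q = Real.exp l := by rw [hl, Real.exp_log hq]
  have hYr : ∀ a : ℝ, Y ^ a = Real.exp (t * a) := by
    intro a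
    rw [hYe, ← Real.exp_mul]
  refine ⟨by omega, ?_, ?_⟩
  · rw [hYe, hqe, ← Real.exp_nat_mul]
    exact Real.exp_le_exp.2 hjt
  have hlogl : 0 < Real.log l := Real.log_pos (by linarith)
  have hlz : Real.log (l ^ 200) = 200 * Real.log l := by
    rw [Real.log_pow]
    push_cast
    ring
  rw [hlz]
  obtain ⟨L, hL⟩ : ∃ L, L = t / (200 * Real.log l) := ⟨_, rfl⟩
  have hL0 : 0 < L := by rw [hL]; positivity
  have e1 : (j : ℝ) ^ ((j : ℝ) * t / (200 * Real.log l)) = ((j : ℝ) ^ L) ^ j := by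
    rw [← Real.rpow_natCast, ← Real.rpow_mul hj0.le, hL]
    congr 1
    ring
  rw [e1, ← hL]
  have hjl : 2 * (j : ℝ) ≤ l ^ 2 := by
    have h3 : (j : ℝ) * 0.6931471803 ≤ l := by
      refine le_trans ?_ hjt
      exact mul_le_mul_of_nonneg_left (by linarith) hj0.le
    nlinarith
  have e2 : (2 * (j : ℝ)) ^ L ≤ Y ^ (1 / 100 : ℝ) := by
    calc (2 * (j : ℝ)) ^ L ≤ (l ^ 2) ^ L := Real.rpow_le_rpow (by positivity) hjl hL0.le
      _ = Y ^ (1 / 100 : ℝ) := by
        rw [hYr, ← Real.exp_log (show 0 < l ^ 2 by positivity), ← Real.exp_mul, Real.log_pow, hL]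
        congr 1
        push_cast
        field_simp
        ring
  have e3 : 2 * (2 : ℝ) ^ L * ((j : ℝ) * t / Real.log 2) * (j : ℝ) ^ L ≤
      4 * l * Y ^ (1 / 100 : ℝ) := by
    have h3 : (j : ℝ) * t / Real.log 2 ≤ 2 * l := by
      rw [div_le_iff₀ hl20]
      nlinarith
    have h4 : 2 * (2 : ℝ) ^ L * ((j : ℝ) * t / Real.log 2) * (j : ℝ) ^ L =
        2 * ((j : ℝ) * t / Real.log 2) * (2 * (j : ℝ)) ^ L := by
      rw [Real.mul_rpow (by norm_num) hj0.le]
      ring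
    rw [h4]
    calc 2 * ((j : ℝ) * t / Real.log 2) * (2 * (j : ℝ)) ^ L
        ≤ 2 * (2 * l) * Y ^ (1 / 100 : ℝ) := by gcongr
      _ = _ := by ring
  have e4 : M ≤ (C0 * Y ^ (39 / 100 : ℝ)) ^ j := by
    refine hM.trans ?_
    rw [mul_pow]
    have h3 : C0 ≤ C0 ^ j := le_self_pow₀ hC0 (by omega)
    have h4 : q ^ (103 / 300 : ℝ) ≤ (Y ^ (39 / 100 : ℝ)) ^ j := by
      rw [hYr, hqe, ← Real.exp_mul, ← Real.exp_nat_mul]
      refine Real.exp_le_exp.2 ?_
      nlinarith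
    exact mul_le_mul h3 h4 (by positivity) (by positivity)
  calc (2 * (2 : ℝ) ^ L) ^ j * (((j : ℝ) * t / Real.log 2) ^ j * ((j : ℝ) ^ L) ^ j * M)
      = (2 * (2 : ℝ) ^ L * ((j : ℝ) * t / Real.log 2) * (j : ℝ) ^ L) ^ j * M := by
        simp only [mul_pow]
        ring
    _ ≤ (4 * l * Y ^ (1 / 100 : ℝ)) ^ j * (C0 * Y ^ (39 / 100 : ℝ)) ^ j := by
        exact mul_le_mul (pow_le_pow_left₀ (by positivity) e3 j) e4 hM0 (by positivity)
    _ = (4 * C0 * l * Y ^ (2 / 5 : ℝ)) ^ j := by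
        rw [← mul_pow]
        congr 1
        have h5 : Y ^ (2 / 5 : ℝ) = Y ^ (1 / 100 : ℝ) * Y ^ (39 / 100 : ℝ) := by
          rw [← Real.rpow_add hY0]
          norm_num
        rw [h5]
        ring

end Scount

open Scount in
theorem d_scount (h1 : H_BASIC) (h2 : H_CNT) (h5 : A_BAR) (h6 : A_LINE) (h7 : A_ORI) :
    D_SCOUNT := by
  classical
  intro R ω hR f _ _
  have : IsDedekindDomain R := hR.qr.ded
  obtain ⟨hfinA, -, -⟩ := h2 R ω hR.qr
  obtain ⟨-, -, hnm, hmul, -, hdvd, htop, -, -⟩ := h1 R ω hR.qr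
  have nm1 : nm (1 : Ideal R) = 1 := by rw [Ideal.one_eq_top]; exact (htop ⊤).2 rfl
  have hnm2 : ∀ P : Ideal R, Prime P → 2 ≤ nm P := by
    intro P hP
    have h3 : nm P ≠ 1 := fun h => hP.not_isUnit (Ideal.isUnit_iff.2 ((htop P).1 h))
    have h4 := hnm P hP.ne_zero
    unfold nm at h3 h4 ⊢
    have h5 : Nat.card (R ⧸ P) ≠ 1 := by exact_mod_cast h3
    have h6 : 1 ≤ Nat.card (R ⧸ P) := by exact_mod_cast h4
    have : 2 ≤ Nat.card (R ⧸ P) := by omega
    exact_mod_cast this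
  obtain ⟨C, hC, hline⟩ := h6 R ω hR
  refine ⟨4 * max 1 (2 * C), Real.exp 6, by positivity, ?_⟩
  intro q χ hχ hq6 d hd hdq r hr hrq Y hY hYq
  have hq0 : (0 : ℝ) < q := lt_of_lt_of_le (Real.exp_pos 6) hq6
  have hlq6 : 6 ≤ Real.log q := by
    rw [Real.le_log_iff_exp_le hq0]
    exact hq6
  obtain ⟨z, hz⟩ : ∃ z, z = (Real.log q) ^ 200 := ⟨_, rfl⟩
  have hz1 : 1 < z := by
    rw [hz]
    exact one_lt_pow₀ (by linarith) (by norm_num)
  have hlz : 0 < Real.log z := Real.log_pos hz1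
  by_cases hY2 : Y < 2
  · have hempty : {c : Ideal R | C1 f ((Real.log q) ^ 200) c ∧ nm c ≤ Y ∧ χ c ≠ 0 ∧
        χ c ^ r = 1} = ∅ := by
      rw [Set.eq_empty_iff_forall_notMem]
      rintro c ⟨hc, hn, -, -⟩
      obtain ⟨P, k, c', hP, hk, hcP, -⟩ := dec1 h1 h5 hR hc
      have h3 : P ∣ c := by rw [hcP]; exact (dvd_pow_self P (by omega)).mul_right _
      have h4 := hdvd c P hc.pri.1 h3
      have := hnm2 P hP
      linarith
    rw [hempty, Set.ncard_empty, Nat.cast_zero]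
    have : 0 ≤ Real.log q := by linarith
    positivity
  push Not at hY2
  obtain ⟨j, hj⟩ : ∃ j, j = ⌊Real.log q / Real.log Y⌋₊ := ⟨_, rfl⟩
  have hY0 : 0 ≤ Y := by linarith
  rw [← hz]
  have hfinS : {c : Ideal R | C1 f z c ∧ nm c ≤ Y ∧ χ c ≠ 0 ∧ χ c ^ r = 1}.Finite :=
    (hfinA Y).subset fun c hc => hc.2.1
  have hfinT : {c : Ideal R | Pri c ∧ nm c ≤ Y ^ j ∧ χ c ≠ 0 ∧ χ c ^ r = 1}.Finite :=
    (hfinA (Y ^ j)).subset fun c hc => hc.2.1
  rw [Set.ncard_eq_toFinset_card _ hfinS]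
  have hmem : ∀ c ∈ hfinS.toFinset, C1 f z c ∧ nm c ≤ Y ∧ χ c ≠ 0 ∧ χ c ^ r = 1 := by
    intro c hc
    rw [Set.Finite.mem_toFinset] at hc
    exact hc
  obtain ⟨S', hS', hcard, hpri⟩ := h7 R ω hR hfinS.toFinset
    (2 * (2 : ℝ) ^ (Real.log Y / Real.log z)) (fun c hc => (hmem c hc).1.pri) (by
      intro c hc
      obtain ⟨hc1, hn, -, -⟩ := hmem c hc
      obtain ⟨P, k, c', hP, hk, hcP, hc'⟩ := dec1 h1 h5 hR hc1
      have hc'0 : c' ≠ 0 := by
        intro h0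
        rw [h0, mul_zero] at hcP
        exact hc1.pri.1 hcP
      obtain ⟨hf1, hf2⟩ := fac_bound hmul nm1 hnm (j := 2) (by norm_num) hz1 c' hc'0 hc'
      obtain ⟨hd1, hd2⟩ := div_le_fac hf1
      have hd3 : ({J : Ideal R | J ∣ c'}.ncard : ℝ) ≤ (Fac 2 c').ncard := by exact_mod_cast hd2
      have hpp := pow_primes hd1
      have hfinP : (Prs c').Finite := hd1.subset fun Q hQ => hQ.2.2
      have hsub : {Q : Ideal R | Q.IsPrime ∧ Q ≠ ⊥ ∧ Q ∣ c} ⊆ insert P (Prs c') := by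
        rintro Q ⟨hQ1, hQ2, hQ3⟩
        have hQ : Prime Q := Ideal.prime_of_isPrime hQ2 hQ1
        rw [hcP] at hQ3
        rcases hQ.dvd_or_dvd hQ3 with h | h
        · left
          exact associated_iff_eq.1 (hQ.associated_of_dvd hP (hQ.dvd_of_dvd_pow h))
        · right
          exact ⟨hQ1, hQ2, h⟩
      have hcd : Set.ncard {Q : Ideal R | Q.IsPrime ∧ Q ≠ ⊥ ∧ Q ∣ c} ≤ (Prs c').ncard + 1 :=
        (Set.ncard_le_ncard hsub (hfinP.insert _)).trans (Set.ncard_insert_le _ _)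
      have hc'1 := hnm c' hc'0
      have hc'n : nm c' ≤ Y := by
        refine le_trans ?_ hn
        exact hdvd c c' hc1.pri.1 (by rw [hcP]; exact dvd_mul_left _ _)
      have hexp : Real.log (nm c') / Real.log z ≤ Real.log Y / Real.log z := by
        gcongr
      calc (2 : ℝ) ^ (Set.ncard {Q : Ideal R | Q.IsPrime ∧ Q ≠ ⊥ ∧ Q ∣ c})
          ≤ (2 : ℝ) ^ ((Prs c').ncard + 1) := pow_le_pow_right₀ (by norm_num) hcd
        _ = 2 * (2 : ℝ) ^ (Prs c').ncard := by rw [pow_succ]; ring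
        _ ≤ 2 * (2 : ℝ) ^ (Real.log Y / Real.log z) := by
            refine mul_le_mul_of_nonneg_left ?_ (by norm_num)
            refine hpp.trans (hd3.trans (hf2.trans ?_))
            push_cast
            exact Real.rpow_le_rpow_of_exponent_le (by norm_num) hexp)
  have hl2 : 0 < Real.log 2 := Real.log_pos (by norm_num)
  have hYj : Y ^ j ≤ q :=
    (num (M := 0) hq0 hlq6 hY2 hYq hj (le_max_left 1 (2 * C)) le_rfl (by positivity)).2.1
  have hM : (cntP χ r (Y ^ j) : ℝ) ≤ max 1 (2 * C) * (q : ℝ) ^ (103 / 300 : ℝ) := by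
    refine (hline q χ hχ d hd r hr (Y ^ j) (one_le_pow₀ (by linarith))).trans ?_
    have h8 : Y ^ j / q ≤ 1 := (div_le_one hq0).2 hYj
    have h9 : C * (1 + Y ^ j / q) ≤ max 1 (2 * C) := by
      refine le_trans ?_ (le_max_right 1 (2 * C))
      nlinarith
    have hd0 : (0 : ℝ) < d := lt_of_lt_of_le (by positivity) hdq
    have h10 : (q : ℝ) * r / d ≤ (q : ℝ) ^ (103 / 300 : ℝ) := by
      rw [div_le_iff₀ hd0]
      calc (q : ℝ) * r ≤ (q : ℝ) * (q : ℝ) ^ (1 / 100 : ℝ) := by gcongr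
        _ = (q : ℝ) ^ (103 / 300 : ℝ) * (q : ℝ) ^ (2 / 3 : ℝ) := by
          nth_rewrite 1 [← Real.rpow_one (q : ℝ)]
          rw [← Real.rpow_add hq0, ← Real.rpow_add hq0]
          norm_num
        _ ≤ (q : ℝ) ^ (103 / 300 : ℝ) * d := by gcongr
    exact mul_le_mul h9 h10 (by positivity) (by positivity)
  obtain ⟨hj1, -, hnum⟩ := num hq0 hlq6 hY2 hYq hj (le_max_left 1 (2 * C)) (Nat.cast_nonneg _) hM
  have hj1' : (1 : ℝ) ≤ j := by exact_mod_cast hj1
  have key := power_trick2 (j := j) (k := r) (y := Y)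
    (w := 2 * (2 : ℝ) ^ (Real.log Y / Real.log z))
    (D := ((j : ℝ) * Real.log Y / Real.log 2) ^ j *
        (j : ℝ) ^ ((j : ℝ) * Real.log Y / Real.log z)) hχ.rc hmul nm1
    (by positivity) hfinS.toFinset S' (fun c hc => (hmem c hc).2) hS' hcard (hpri j) hfinT (by
      intro K hK0 hKn
      refine (fib_bound hmul nm1 hnm hnm2 hj1 hz1 S'
        (fun c hc => dec1 h1 h5 hR (hmem c (hS' hc)).1) hK0).trans ?_
      have hK1 := hnm _ hK0
      have hlK : Real.log (nm K) ≤ (j : ℝ) * Real.log Y := by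
        rw [← Real.log_pow]
        exact Real.log_le_log (by linarith) hKn
      have hlK0 : 0 ≤ Real.log (nm K) := Real.log_nonneg hK1
      refine mul_le_mul ?_ ?_ (by positivity)
        (pow_nonneg (div_nonneg (hlK0.trans hlK) hl2.le) _)
      · exact pow_le_pow_left₀ (by positivity) (by gcongr) j
      · exact Real.rpow_le_rpow_of_exponent_le hj1' (by gcongr))
  rw [← hz] at hnum
  have hfin := key.trans hnum
  have hlq0 : 0 ≤ Real.log q := by linarith
  have hR0 : 0 ≤ 4 * max 1 (2 * C) * Real.log q * Y ^ (2 / 5 : ℝ) :=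
    mul_nonneg (mul_nonneg (by positivity) hlq0) (by positivity)
  exact (pow_le_pow_iff_left₀ (Nat.cast_nonneg _) hR0 (by omega)).1 hfin

end Pool.Agent.TH936.AD
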