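import Pool.Agent.TH936.AD.Stmts

/-!
# Project AD, part SSUM: the sum over the ideals `P ^ k c'` is a small part of `log q`
(job 4293 of helper936, written by helper293)
-/

set_option autoImplicit false

open Complex

namespace Pool.Agent.TH936.AD

open Pool.Agent.W192.HK Pool.Agent.TH936.AC Pool.Agent.TH936.AW
open Pool.Agent.W192.CY (VW Vk)

namespace Ssum

theorem log_w1 {x : ℝ} (hx : 1 ≤ x) : Real.log x * x ^ (-1 / 2 : ℝ) ≤ 2 := by
  have hx0 : 0 < x := by linarith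
  have h1 := Real.log_le_rpow_div hx0.le (ε := 1 / 2) (by norm_num)
  have h2 : 0 < x ^ (-1 / 2 : ℝ) := Real.rpow_pos_of_pos hx0 _
  calc Real.log x * x ^ (-1 / 2 : ℝ) ≤ x ^ (1 / 2 : ℝ) / (1 / 2) * x ^ (-1 / 2 : ℝ) :=
        mul_le_mul_of_nonneg_right h1 h2.le
    _ = 2 * (x ^ (1 / 2 : ℝ) * x ^ (-1 / 2 : ℝ)) := by ring
    _ = 2 := by
      rw [← Real.rpow_add hx0]
      norm_num

theorem log_w2 {x : ℝ} (hx : 1 ≤ x) :
    Real.log x * x ^ (-1 / 2 : ℝ) ≤ 20 * x ^ (-9 / 20 : ℝ) := by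
  have hx0 : 0 < x := by linarith
  have h1 := Real.log_le_rpow_div hx0.le (ε := 1 / 20) (by norm_num)
  have h2 : 0 < x ^ (-1 / 2 : ℝ) := Real.rpow_pos_of_pos hx0 _
  calc Real.log x * x ^ (-1 / 2 : ℝ) ≤ x ^ (1 / 20 : ℝ) / (1 / 20) * x ^ (-1 / 2 : ℝ) :=
        mul_le_mul_of_nonneg_right h1 h2.le
    _ = 20 * (x ^ (1 / 20 : ℝ) * x ^ (-1 / 2 : ℝ)) := by ring
    _ = 20 * x ^ (-9 / 20 : ℝ) := by
      rw [← Real.rpow_add hx0]
      norm_num

/-- one block -/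
theorem blk {x z : ℝ} {i : ℕ} (hz : 0 < z) (hx : x = 2 ^ i * z) :
    (2 * x) ^ (2 / 5 : ℝ) * x ^ (-9 / 20 : ℝ) ≤
      2 * (((2 : ℝ) ^ (-1 / 20 : ℝ)) ^ i * z ^ (-1 / 20 : ℝ)) := by
  have hx0 : 0 < x := by rw [hx]; positivity
  have e1 : (2 : ℝ) ^ (2 / 5 : ℝ) ≤ 2 := by
    calc (2 : ℝ) ^ (2 / 5 : ℝ) ≤ 2 ^ (1 : ℝ) :=
          Real.rpow_le_rpow_of_exponent_le (by norm_num) (by norm_num)
      _ = 2 := Real.rpow_one 2
  have e2 : x ^ (2 / 5 : ℝ) * x ^ (-9 / 20 : ℝ) = x ^ (-1 / 20 : ℝ) := by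
    rw [← Real.rpow_add hx0]
    norm_num
  have e3 : x ^ (-1 / 20 : ℝ) = ((2 : ℝ) ^ (-1 / 20 : ℝ)) ^ i * z ^ (-1 / 20 : ℝ) := by
    rw [hx, Real.mul_rpow (by positivity) hz.le]
    congr 1
    rw [← Real.rpow_natCast, ← Real.rpow_mul (by norm_num), mul_comm, Real.rpow_mul (by norm_num),
      Real.rpow_natCast]
  rw [Real.mul_rpow (by norm_num) hx0.le, mul_assoc, e2, ← e3]
  exact mul_le_mul_of_nonneg_right e1 (Real.rpow_pos_of_pos hx0 _).le

open Classical in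
/-- dyadic blocks -/
theorem dyad {ι : Type*} (S : Finset ι) (n : ι → ℝ) {z A Ym : ℝ} (hz : 0 < z) (hA : 0 ≤ A)
    (hn : ∀ c ∈ S, z ≤ n c ∧ n c ≤ Ym)
    (hcnt : ∀ Y, z ≤ Y → Y ≤ 2 * Ym → ((S.filter (fun c => n c ≤ Y)).card : ℝ) ≤
      A * Y ^ (2 / 5 : ℝ)) :
    ∑ c ∈ S, (n c) ^ (-9 / 20 : ℝ) ≤
      2 * (1 - (2 : ℝ) ^ (-1 / 20 : ℝ))⁻¹ * A * z ^ (-1 / 20 : ℝ) := by
  set r : ℝ := (2 : ℝ) ^ (-1 / 20 : ℝ) with hr
  have hr0 : 0 < r := Real.rpow_pos_of_pos (by norm_num) _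
  have hr1 : r < 1 := Real.rpow_lt_one_of_one_lt_of_neg (by norm_num) (by norm_num)
  have hex : ∀ c : ι, ∃ i : ℕ, c ∈ S → 2 ^ i * z ≤ n c ∧ n c < 2 ^ (i + 1) * z := by
    intro c
    by_cases hc : c ∈ S
    · have g1 : 1 ≤ n c / z := (one_le_div hz).2 (hn c hc).1
      obtain ⟨i, hi1, hi2⟩ := exists_nat_pow_near g1 (one_lt_two)
      exact ⟨i, fun _ => ⟨(le_div_iff₀ hz).1 hi1, (div_lt_iff₀ hz).1 hi2⟩⟩
    · exact ⟨0, fun h => absurd h hc⟩
  choose ix hix using hex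
  set I : ℕ := S.sup ix + 1 with hI
  have hterm : ∀ c ∈ S, (n c) ^ (-9 / 20 : ℝ) ≤ ∑ i ∈ Finset.range I,
      if n c ≤ 2 * (2 ^ i * z) ∧ 2 ^ i * z ≤ Ym then (2 ^ i * z : ℝ) ^ (-9 / 20 : ℝ) else 0 := by
    intro c hc
    obtain ⟨g1, g2⟩ := hix c hc
    have g3 : n c ≤ Ym := (hn c hc).2
    have g4 : ix c ∈ Finset.range I := by
      rw [Finset.mem_range, hI]
      exact Nat.lt_succ_of_le (Finset.le_sup hc)
    refine le_trans ?_ (Finset.single_le_sum (f := fun i : ℕ =>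
      if n c ≤ 2 * (2 ^ i * z) ∧ 2 ^ i * z ≤ Ym then (2 ^ i * z : ℝ) ^ (-9 / 20 : ℝ) else 0)
      (fun i _ => ?_) g4)
    · have g5 : n c ≤ 2 * (2 ^ ix c * z) := by
        rw [pow_succ] at g2
        linarith
      rw [if_pos ⟨g5, g1.trans g3⟩]
      exact Real.rpow_le_rpow_of_nonpos (by positivity) g1 (by norm_num)
    · split_ifs
      · positivity
      · exact le_rfl
  have hblk : ∀ i : ℕ, ∑ c ∈ S,
      (if n c ≤ 2 * (2 ^ i * z) ∧ 2 ^ i * z ≤ Ym then (2 ^ i * z : ℝ) ^ (-9 / 20 : ℝ) else 0) ≤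
      2 * A * z ^ (-1 / 20 : ℝ) * r ^ i := by
    intro i
    have hR0 : 0 ≤ 2 * A * z ^ (-1 / 20 : ℝ) * r ^ i := by positivity
    by_cases hiY : 2 ^ i * z ≤ Ym
    · set x : ℝ := 2 ^ i * z with hx
      have hx0 : 0 < x := by positivity
      have hzx : z ≤ 2 * x := by
        have : (1 : ℝ) ≤ 2 ^ i := one_le_pow₀ (by norm_num)
        nlinarith
      have hcard : ∑ c ∈ S, (if n c ≤ 2 * x ∧ x ≤ Ym then x ^ (-9 / 20 : ℝ) else 0) ≤
          A * (2 * x) ^ (2 / 5 : ℝ) * x ^ (-9 / 20 : ℝ) := by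
        rw [← Finset.sum_filter, Finset.sum_const, nsmul_eq_mul]
        refine mul_le_mul_of_nonneg_right ?_ (Real.rpow_pos_of_pos hx0 _).le
        refine le_trans ?_ (hcnt (2 * x) hzx (by linarith))
        rw [Nat.cast_le]
        apply Finset.card_le_card
        intro c hc
        rw [Finset.mem_filter] at hc ⊢
        exact ⟨hc.1, hc.2.1⟩
      refine hcard.trans ?_
      calc A * (2 * x) ^ (2 / 5 : ℝ) * x ^ (-9 / 20 : ℝ) =
            A * ((2 * x) ^ (2 / 5 : ℝ) * x ^ (-9 / 20 : ℝ)) := by ring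
        _ ≤ A * (2 * (r ^ i * z ^ (-1 / 20 : ℝ))) :=
            mul_le_mul_of_nonneg_left (blk hz hx) hA
        _ = _ := by ring
    · refine le_trans (le_of_eq ?_) hR0
      apply Finset.sum_eq_zero
      intro c _
      rw [if_neg fun h => hiY h.2]
  calc ∑ c ∈ S, (n c) ^ (-9 / 20 : ℝ) ≤ ∑ c ∈ S, ∑ i ∈ Finset.range I,
        (if n c ≤ 2 * (2 ^ i * z) ∧ 2 ^ i * z ≤ Ym then (2 ^ i * z : ℝ) ^ (-9 / 20 : ℝ) else 0) :=
        Finset.sum_le_sum hterm
    _ = ∑ i ∈ Finset.range I, ∑ c ∈ S,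
        (if n c ≤ 2 * (2 ^ i * z) ∧ 2 ^ i * z ≤ Ym then (2 ^ i * z : ℝ) ^ (-9 / 20 : ℝ) else 0) :=
        Finset.sum_comm
    _ ≤ ∑ i ∈ Finset.range I, 2 * A * z ^ (-1 / 20 : ℝ) * r ^ i :=
        Finset.sum_le_sum fun i _ => hblk i
    _ = 2 * A * z ^ (-1 / 20 : ℝ) * ∑ i ∈ Finset.range I, r ^ i := by
        rw [Finset.mul_sum]
    _ ≤ 2 * A * z ^ (-1 / 20 : ℝ) * (1 - r)⁻¹ := by
        refine mul_le_mul_of_nonneg_left ?_ (by positivity)
        rw [← tsum_geometric_of_lt_one hr0.le hr1]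
        exact (summable_geometric_of_lt_one hr0.le hr1).sum_le_tsum _ fun i _ => by positivity
    _ = _ := by ring

/-- reciprocals of Euler's function -/
noncomputable def gph : ArithmeticFunction ℝ := ⟨fun n => 1 / (n.totient : ℝ), by simp⟩

theorem gph_mult : gph.IsMultiplicative := by
  refine ⟨by simp [gph], ?_⟩
  intro m n h
  change 1 / ((m * n).totient : ℝ) = 1 / (m.totient : ℝ) * (1 / (n.totient : ℝ))
  rw [Nat.totient_mul h]
  push_cast
  rw [one_div_mul_one_div]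

theorem F_pow {p : ℕ} (hp : p.Prime) (k : ℕ) :
    ∑ r ∈ (p ^ k).divisors, 1 / (r.totient : ℝ) ≤ ((1 - 1 / (p : ℝ))⁻¹) ^ 2 := by
  rw [Nat.sum_divisors_prime_pow hp]
  have hp2 : (2 : ℝ) ≤ p := by exact_mod_cast hp.two_le
  have hp0 : (0 : ℝ) < p := by linarith
  set x : ℝ := 1 / (p : ℝ) with hx
  have hx0 : 0 < x := by positivity
  have hx2 : x ≤ 1 / 2 := by
    rw [hx]
    exact one_div_le_one_div_of_le (by norm_num) hp2
  have h1x : 0 < 1 - x := by linarith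
  rw [Finset.sum_range_succ']
  have h1 : ∀ j : ℕ, 1 / ((p ^ (j + 1)).totient : ℝ) = x ^ j * (x / (1 - x)) := by
    intro j
    rw [Nat.totient_prime_pow_succ hp, Nat.cast_mul, Nat.cast_pow, Nat.cast_sub hp.one_le,
      Nat.cast_one, hx]
    have : (p : ℝ) - 1 ≠ 0 := by linarith
    field_simp
    rw [← mul_pow, mul_one_div_cancel hp0.ne', one_pow]
  have h2 : ∑ j ∈ Finset.range k, 1 / ((p ^ (j + 1)).totient : ℝ) ≤
      (1 - x)⁻¹ * (x / (1 - x)) := by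
    rw [Finset.sum_congr rfl fun j _ => h1 j, ← Finset.sum_mul]
    refine mul_le_mul_of_nonneg_right ?_ (by positivity)
    rw [← tsum_geometric_of_lt_one hx0.le (by linarith)]
    exact (summable_geometric_of_lt_one hx0.le (by linarith)).sum_le_tsum _ fun i _ => by positivity
  have h3 : 1 / ((p ^ 0).totient : ℝ) = 1 := by simp
  rw [h3]
  refine (add_le_add_left h2 1).trans ?_
  rw [div_eq_mul_inv]
  have h4 : (1 - x) * (1 - x)⁻¹ = 1 := mul_inv_cancel₀ h1x.ne'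
  have h5 : 0 < (1 - x)⁻¹ := by positivity
  have e : ((1 - x)⁻¹) ^ 2 - ((1 - x)⁻¹ * (x * (1 - x)⁻¹) + 1) = (x - x ^ 2) * ((1 - x)⁻¹) ^ 2 := by
    have : (1 : ℝ) = (1 - x) ^ 2 * ((1 - x)⁻¹) ^ 2 := by rw [← mul_pow, h4, one_pow]
    linear_combination -this
  have h6 : 0 ≤ (x - x ^ 2) * ((1 - x)⁻¹) ^ 2 := by
    apply mul_nonneg _ (by positivity)
    nlinarith
  linarith

theorem F_le {d : ℕ} (hd : d ≠ 0) :
    ∑ r ∈ d.divisors, 1 / (r.totient : ℝ) ≤
      ((∏ p ∈ d.primeFactors, (1 - 1 / (p : ℝ)))⁻¹) ^ 2 := by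
  have hF : ∀ n : ℕ, ((ArithmeticFunction.zeta : ArithmeticFunction ℝ) * gph) n =
      ∑ r ∈ n.divisors, 1 / (r.totient : ℝ) := by
    intro n
    rw [ArithmeticFunction.coe_zeta_mul_apply]
    rfl
  have hm : ((ArithmeticFunction.zeta : ArithmeticFunction ℝ) * gph).IsMultiplicative :=
    ArithmeticFunction.isMultiplicative_zeta.natCast.mul gph_mult
  rw [← hF, ArithmeticFunction.IsMultiplicative.multiplicative_factorization _ hm hd,
    Finsupp.prod, Nat.support_factorization, ← Finset.prod_inv_distrib, ← Finset.prod_pow]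
  apply Finset.prod_le_prod
  · intro p hp
    rw [hF]
    exact Finset.sum_nonneg fun r _ => by positivity
  · intro p hp
    rw [hF]
    exact F_pow (Nat.prime_of_mem_primeFactors hp) _

theorem one_sub_le_prod {ι : Type*} (S : Finset ι) (x : ι → ℝ) (h0 : ∀ i ∈ S, 0 ≤ x i)
    (h1 : ∀ i ∈ S, x i ≤ 1) : 1 - ∑ i ∈ S, x i ≤ ∏ i ∈ S, (1 - x i) := by
  classical
  induction S using Finset.induction_on with
  | empty => simp
  | insert a s ha ih =>
    rw [Finset.sum_insert ha, Finset.prod_insert ha]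
    have h2 := ih (fun i hi => h0 i (Finset.mem_insert_of_mem hi))
      (fun i hi => h1 i (Finset.mem_insert_of_mem hi))
    have h3 := h0 a (Finset.mem_insert_self a s)
    have h4 := h1 a (Finset.mem_insert_self a s)
    have h5 : 0 ≤ ∑ i ∈ s, x i :=
      Finset.sum_nonneg fun i hi => h0 i (Finset.mem_insert_of_mem hi)
    have h6 : (1 - x a) * (1 - ∑ i ∈ s, x i) ≤ (1 - x a) * ∏ i ∈ s, (1 - x i) :=
      mul_le_mul_of_nonneg_left h2 (by linarith)
    nlinarith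

/-- lower bound of `φ(d) / d` -/
theorem prod_ge {Cm : ℝ} (hCm : 0 < Cm)
    (hmert : ∀ (S : Finset ℕ) (y : ℝ), 3 ≤ y → (∀ p ∈ S, p.Prime ∧ (p : ℝ) ≤ y) →
      1 / (Cm * (Real.log y) ^ 5) ≤ ∏ p ∈ S, (1 - 1 / (p : ℝ)))
    {d : ℕ} (hd : d ≠ 0) (hl : 2 ≤ Real.log (Real.log d)) :
    1 / (2 * Cm * (Real.log (Real.log d)) ^ 5) ≤ ∏ p ∈ d.primeFactors, (1 - 1 / (p : ℝ)) := by
  set y : ℝ := Real.log d with hy
  have hd0 : (0 : ℝ) < d := by exact_mod_cast Nat.pos_of_ne_zero hd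
  have hy0 : 0 < y := by
    by_contra h
    have : y = Real.log d := hy
    have hy1 : y ≤ 0 := not_lt.1 h
    have hd1 : 0 ≤ Real.log (d : ℝ) :=
      Real.log_nonneg (by exact_mod_cast Nat.one_le_iff_ne_zero.2 hd)
    have : y = 0 := le_antisymm hy1 (hy ▸ hd1)
    rw [this, Real.log_zero] at hl
    linarith
  have hy3 : 3 ≤ y := by
    have := (Real.le_log_iff_exp_le hy0).1 hl
    have h2 := Real.add_one_le_exp (2 : ℝ)
    linarith
  classical
  rw [← Finset.prod_filter_mul_prod_filter_not d.primeFactors (fun p : ℕ => (p : ℝ) ≤ y)]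
  have h1 := hmert (d.primeFactors.filter (fun p : ℕ => (p : ℝ) ≤ y)) y hy3 (by
    intro p hp
    rw [Finset.mem_filter] at hp
    exact ⟨Nat.prime_of_mem_primeFactors hp.1, hp.2⟩)
  set S2 := d.primeFactors.filter (fun p : ℕ => ¬ (p : ℝ) ≤ y) with hS2
  have hS2m : ∀ p ∈ S2, p.Prime ∧ y < (p : ℝ) := by
    intro p hp
    rw [hS2, Finset.mem_filter] at hp
    exact ⟨Nat.prime_of_mem_primeFactors hp.1, not_le.1 hp.2⟩
  have hcard : (S2.card : ℝ) * Real.log y ≤ y := by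
    have e1 : (S2.card : ℝ) * Real.log y ≤ ∑ p ∈ S2, Real.log (p : ℝ) := by
      rw [← nsmul_eq_mul, ← Finset.sum_const]
      exact Finset.sum_le_sum fun p hp => Real.log_le_log hy0 (hS2m p hp).2.le
    have e2 : ∑ p ∈ S2, Real.log (p : ℝ) = Real.log ((∏ p ∈ S2, p : ℕ) : ℝ) := by
      rw [Nat.cast_prod, Real.log_prod]
      intro p hp
      exact_mod_cast (hS2m p hp).1.ne_zero
    have e3 : ∏ p ∈ S2, p ≤ d := by
      apply Nat.le_of_dvd (Nat.pos_of_ne_zero hd)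
      refine (Finset.prod_dvd_prod_of_subset _ _ _ (Finset.filter_subset _ _)).trans
        (Nat.prod_primeFactors_dvd d)
    have e4 : 0 < ∏ p ∈ S2, p := Finset.prod_pos fun p hp => (hS2m p hp).1.pos
    rw [hy]
    refine e1.trans ?_
    rw [e2]
    exact Real.log_le_log (by exact_mod_cast e4) (by exact_mod_cast e3)
  have hly : 0 < Real.log y := by linarith
  have h2 : (1 : ℝ) / 2 ≤ ∏ p ∈ S2, (1 - 1 / (p : ℝ)) := by
    refine le_trans ?_ (one_sub_le_prod S2 (fun p : ℕ => 1 / (p : ℝ)) (fun p _ => by positivity)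
      (fun p hp => ?_))
    · have e1 : ∑ p ∈ S2, 1 / (p : ℝ) ≤ S2.card * (1 / y) := by
        rw [← nsmul_eq_mul, ← Finset.sum_const]
        exact Finset.sum_le_sum fun p hp => one_div_le_one_div_of_le hy0 (hS2m p hp).2.le
      have e2 : (S2.card : ℝ) * (1 / y) ≤ 1 / 2 := by
        rw [mul_one_div, div_le_div_iff₀ hy0 (by norm_num)]
        have e3 : (S2.card : ℝ) * 2 ≤ S2.card * Real.log y :=
          mul_le_mul_of_nonneg_left hl (Nat.cast_nonneg _)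
        linarith
      linarith
    · have := (hS2m p hp).1.one_le
      rw [div_le_one (by exact_mod_cast (hS2m p hp).1.pos)]
      exact_mod_cast this
  calc 1 / (2 * Cm * (Real.log y) ^ 5) = 1 / (Cm * (Real.log y) ^ 5) * (1 / 2) := by
        field_simp
    _ ≤ _ := mul_le_mul h1 h2 (by norm_num) (le_trans (by positivity) h1)

theorem F_le' {Cm : ℝ} (hCm : 0 < Cm)
    (hmert : ∀ (S : Finset ℕ) (y : ℝ), 3 ≤ y → (∀ p ∈ S, p.Prime ∧ (p : ℝ) ≤ y) →
      1 / (Cm * (Real.log y) ^ 5) ≤ ∏ p ∈ S, (1 - 1 / (p : ℝ)))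
    {d : ℕ} (hd : d ≠ 0) {ll : ℝ} (hl : 2 ≤ Real.log (Real.log d)) (hll : Real.log (Real.log d) ≤ ll) :
    ∑ r ∈ d.divisors, 1 / (r.totient : ℝ) ≤ (2 * Cm * ll ^ 5) ^ 2 := by
  refine (F_le hd).trans ?_
  have h1 := prod_ge hCm hmert hd hl
  have h0 : 0 < Real.log (Real.log d) := by linarith
  have h2 : 1 / (2 * Cm * ll ^ 5) ≤ ∏ p ∈ d.primeFactors, (1 - 1 / (p : ℝ)) := by
    refine le_trans ?_ h1
    apply one_div_le_one_div_of_le (by positivity)
    exact mul_le_mul_of_nonneg_left (pow_le_pow_left₀ h0.le hll 5) (by positivity)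
  have h3 : 0 < 1 / (2 * Cm * ll ^ 5) := by
    have : 0 < ll := by linarith
    positivity
  apply pow_le_pow_left₀ (inv_nonneg.2 (h3.le.trans h2))
  rw [inv_le_comm₀ (h3.trans_le h2) (by have : 0 < ll := by linarith
                                        positivity)]
  rw [← one_div]
  exact h2

open Filter in
theorem asym (a1 a2 a3 δ' Cb qs : ℝ) (hδ : 0 < δ') : ∃ q0 : ℝ, ∀ x : ℝ, q0 ≤ x →
    qs ≤ x ∧ Cb ≤ x ∧ 1 ≤ x ∧ 4 ≤ Real.log (Real.log x) ∧ 12 ≤ Real.log x ∧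
    2 * x ^ (1 / 100000 : ℝ) ≤ x ^ (1 / 100 : ℝ) ∧
    a1 * (Real.log (Real.log x)) ^ 410 ≤ δ' * Real.log x ∧
    a2 * (Real.log x / Real.log (Real.log x)) ≤ δ' * Real.log x ∧
    a3 ≤ δ' * Real.log x := by
  have hll : Tendsto (fun x : ℝ => Real.log (Real.log x)) atTop atTop :=
    Real.tendsto_log_atTop.comp Real.tendsto_log_atTop
  have e1 : ∀ᶠ x : ℝ in atTop, qs ≤ x := eventually_ge_atTop qs
  have e2 : ∀ᶠ x : ℝ in atTop, Cb ≤ x := eventually_ge_atTop Cb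
  have e3 : ∀ᶠ x : ℝ in atTop, 1 ≤ x := eventually_ge_atTop 1
  have e4 : ∀ᶠ x : ℝ in atTop, 4 ≤ Real.log (Real.log x) := hll.eventually_ge_atTop 4
  have e5 : ∀ᶠ x : ℝ in atTop, 12 ≤ Real.log x := Real.tendsto_log_atTop.eventually_ge_atTop 12
  have e6 : ∀ᶠ x : ℝ in atTop, 2 ≤ x ^ (999 / 100000 : ℝ) :=
    (tendsto_rpow_atTop (by norm_num)).eventually_ge_atTop 2
  have e7 : ∀ᶠ x : ℝ in atTop, a2 / δ' ≤ Real.log (Real.log x) := hll.eventually_ge_atTop _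
  have e8 : ∀ᶠ x : ℝ in atTop, a3 / δ' ≤ Real.log x :=
    Real.tendsto_log_atTop.eventually_ge_atTop _
  have hc : 0 < δ' / (|a1| + 1) := by positivity
  have e9 : ∀ᶠ x : ℝ in atTop, ‖(Real.log (Real.log x)) ^ 410‖ ≤ δ' / (|a1| + 1) * ‖Real.log x‖ :=
    Real.tendsto_log_atTop.eventually
      ((Asymptotics.isLittleO_iff.1 (Real.isLittleO_pow_log_id_atTop (n := 410))) hc)
  have hall := (((e1.and e2).and (e3.and e4)).and ((e5.and e6).and (e7.and e8))).and e9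
  obtain ⟨q0, hq0⟩ := eventually_atTop.1 hall
  refine ⟨q0, fun x hx => ?_⟩
  obtain ⟨⟨⟨⟨h1, h2⟩, h3, h4⟩, ⟨h5, h6⟩, h7, h8⟩, h9⟩ := hq0 x hx
  have hx0 : 0 < x := by linarith
  have hL : 0 < Real.log x := by linarith
  have hl : 0 < Real.log (Real.log x) := by linarith
  refine ⟨h1, h2, h3, h4, h5, ?_, ?_, ?_, ?_⟩
  · have e : x ^ (1 / 100 : ℝ) = x ^ (999 / 100000 : ℝ) * x ^ (1 / 100000 : ℝ) := by
      rw [← Real.rpow_add hx0]
      norm_num
    rw [e]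
    exact mul_le_mul_of_nonneg_right h6 (Real.rpow_pos_of_pos hx0 _).le
  · rw [Real.norm_of_nonneg (by positivity), Real.norm_of_nonneg hL.le] at h9
    have h10 : 0 ≤ (Real.log (Real.log x)) ^ 410 := by positivity
    calc a1 * (Real.log (Real.log x)) ^ 410 ≤ (|a1| + 1) * (Real.log (Real.log x)) ^ 410 :=
          mul_le_mul_of_nonneg_right (by linarith [le_abs_self a1]) h10
      _ ≤ (|a1| + 1) * (δ' / (|a1| + 1) * Real.log x) :=
          mul_le_mul_of_nonneg_left h9 (by positivity)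
      _ = _ := by
        have : |a1| + 1 ≠ 0 := by positivity
        field_simp
  · rw [div_le_iff₀ hδ] at h7
    rw [mul_div_assoc', div_le_iff₀ hl]
    nlinarith
  · rw [div_le_iff₀ hδ] at h8
    linarith

end Ssum

open Ssum in
open Classical in
/-- SSUM -/
theorem d_ssum (hdiv : Pool.Agent.W192.CY.S_DIV) (h1 : H_BASIC) (h2 : H_CNT) (h3 : A_MERT)
    (h4 : D_RBD) (h5 : D_SCOUNT) : D_SSUM := by
  intro R ω hR f hf hram M hM δ hδ
  obtain ⟨Cm, hCm, hmert⟩ := h3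
  obtain ⟨Cs, qs, hCs, hsc⟩ := h5 R ω hR f hf hram
  obtain ⟨hfin, -, Cc, hCc, hcnt, hord⟩ := h2 R ω hR.qr
  obtain ⟨-, -, hnm1, -, hnmsp, -, -⟩ := h1 R ω hR.qr
  obtain ⟨Cd, hCd, -, htot⟩ := hdiv (1 / 10) (by norm_num)
  set K : ℝ := 2 * (1 - (2 : ℝ) ^ (-1 / 20 : ℝ))⁻¹ with hK
  have hr1 : (2 : ℝ) ^ (-1 / 20 : ℝ) < 1 :=
    Real.rpow_lt_one_of_one_lt_of_neg (by norm_num) (by norm_num)
  have hK0 : 0 < K := by
    have : 0 < 1 - (2 : ℝ) ^ (-1 / 20 : ℝ) := by linarith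
    positivity
  have hM0 : (0 : ℝ) < M := by exact_mod_cast hM
  have hδ' : 0 < δ / (3 * M) := by positivity
  obtain ⟨q0, hq0⟩ := asym (4096 * Cm ^ 2 * (2 * Cc)) (4096 * Cm ^ 2 * (20 * K * Cs))
    (2 * Cd * Cc) (δ / (3 * M)) Cc qs hδ'
  refine ⟨q0, ?_⟩
  intro q χ hχ hqq d hd hqd M₁ hM1 hM1M hM1d
  obtain ⟨g1, g2, g3, g4, g5, g6, g7, g8, g9⟩ := hq0 q hqq
  set L : ℝ := Real.log q with hL
  set ll : ℝ := Real.log L with hll
  set Ys : ℝ := (q : ℝ) ^ (1 / 100000 : ℝ) with hYs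
  set z : ℝ := ll ^ 400 with hz
  have hq0' : (0 : ℝ) < q := by linarith
  have hL0 : 0 < L := by linarith
  have hll0 : 0 < ll := by linarith
  have hz1 : 1 ≤ z := one_le_pow₀ (by linarith)
  have hz0 : 0 < z := by linarith
  have hYs1 : 1 ≤ Ys := Real.one_le_rpow g3 (by norm_num)
  have hd0 : d ≠ 0 := hd.pos.ne'
  have hdr : (0 : ℝ) < d := by exact_mod_cast hd.pos
  -- the size of `d`
  have hdle : (d : ℝ) ≤ Cc * (q : ℝ) ^ 2 := by
    have e1 := (hord (sp (q : R)) χ hχ.rc d hd).1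
    rw [hnmsp] at e1
    have e2 : Complex.normSq (((q : R) : R) : ℂ) = (q : ℝ) ^ 2 := by
      have e3 : (((q : R) : R) : ℂ) = (q : ℂ) := by
        rw [SubringClass.coe_natCast]
      rw [e3, Complex.normSq_natCast]
      ring
    rwa [e2] at e1
  have hlogd : Real.log d ≤ 3 * L := by
    have e1 := Real.log_le_log hdr hdle
    rw [Real.log_mul hCc.ne' (by positivity), Real.log_pow] at e1
    have e2 : Real.log Cc ≤ L := Real.log_le_log hCc g2
    push_cast at e1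
    linarith
  have hlogd' : 2 / 3 * L ≤ Real.log d := by
    have e1 := Real.log_le_log (Real.rpow_pos_of_pos hq0' _) hqd
    rwa [Real.log_rpow hq0'] at e1
  have hlld : 2 ≤ Real.log (Real.log d) := by
    have e1 : 8 ≤ Real.log d := by linarith
    rw [Real.le_log_iff_exp_le (by linarith)]
    have e2 : Real.exp 2 = Real.exp 1 * Real.exp 1 := by rw [← Real.exp_add]; norm_num
    have e3 := Real.exp_one_lt_d9
    have e4 := Real.exp_pos 1
    rw [e2]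
    nlinarith
  have hlld' : Real.log (Real.log d) ≤ 2 * ll := by
    have e1 : Real.log (Real.log d) ≤ Real.log (3 * L) :=
      Real.log_le_log (by linarith) hlogd
    rw [Real.log_mul (by norm_num) hL0.ne'] at e1
    have e2 : Real.log 3 ≤ ll := Real.log_le_log (by norm_num) (by linarith)
    linarith
  have hF := F_le' hCm hmert hd0 hlld hlld'
  -- the sum
  have hSf : {c : Ideal R | C1 f (L ^ 200) c ∧ nm c ≤ Ys ∧ χ c ≠ 0}.Finite :=
    (hfin Ys).subset fun c hc => hc.2.1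
  set S : Finset (Ideal R) := hSf.toFinset with hS
  have hmS : ∀ c : Ideal R, c ∈ S ↔ (C1 f (L ^ 200) c ∧ nm c ≤ Ys ∧ χ c ≠ 0) := by
    intro c
    rw [hS, Set.Finite.mem_toFinset]
    exact Iff.rfl
  set w : Ideal R → ℝ := fun c => Real.log (nm c) * (nm c) ^ (-1 / 2 : ℝ) with hw
  set cd : ℝ := ((Ea d M₁).card : ℝ) with hcd
  have hcd0 : 0 ≤ cd := Nat.cast_nonneg _
  have hsum : (∑' c : Ideal R, (if C1 f (L ^ 200) c ∧ nm c ≤ Ys ∧ χ c ≠ 0
      then ‖∑ a ∈ Ea d M₁, pw χ a c‖ * (Real.log (nm c) * (nm c) ^ (-1 / 2 : ℝ)) else 0)) =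
      ∑ c ∈ S, ‖∑ a ∈ Ea d M₁, pw χ a c‖ * w c := by
    rw [tsum_eq_sum (s := S)]
    · refine Finset.sum_congr rfl fun c hc => ?_
      rw [if_pos ((hmS c).1 hc)]
    · intro c hc
      rw [if_neg fun h => hc ((hmS c).2 h)]
  have hn1 : ∀ c ∈ S, 1 ≤ nm c := fun c hc => hnm1 c ((hmS c).1 hc).1.pri.1
  have hw0 : ∀ c ∈ S, 0 ≤ w c := fun c hc =>
    mul_nonneg (Real.log_nonneg (hn1 c hc)) (Real.rpow_nonneg (by linarith [hn1 c hc]) _)
  have hodvd : ∀ c ∈ S, orderOf (χ c) ∣ d := fun c hc =>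
    orderOf_dvd_of_pow_eq_one (hd.pow c ((hmS c).1 hc).2.2)
  have hopos : ∀ c ∈ S, 0 < orderOf (χ c) := fun c hc =>
    Nat.pos_of_dvd_of_pos (hodvd c hc) hd.pos
  have hphi : ∀ c ∈ S, (0 : ℝ) < (orderOf (χ c)).totient := fun c hc => by
    exact_mod_cast Nat.totient_pos.2 (hopos c hc)
  have hterm : ∀ c ∈ S, ‖∑ a ∈ Ea d M₁, pw χ a c‖ * w c ≤
      M₁ * cd * (w c / ((orderOf (χ c)).totient : ℝ)) := by
    intro c hc
    have e1 := h4 R q χ hχ d hd M₁ hM1 hM1d c ((hmS c).1 hc).2.2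
    have e2 : ‖∑ a ∈ Ea d M₁, pw χ a c‖ ≤ M₁ * cd / ((orderOf (χ c)).totient : ℝ) := by
      rw [le_div_iff₀ (hphi c hc), mul_comm]
      exact e1
    calc _ ≤ M₁ * cd / ((orderOf (χ c)).totient : ℝ) * w c :=
          mul_le_mul_of_nonneg_right e2 (hw0 c hc)
      _ = _ := by ring
  -- large orders
  set S2 : Finset (Ideal R) := S.filter (fun c => ¬ ((orderOf (χ c) : ℝ) ≤ (q : ℝ) ^ (1 / 100 : ℝ)))
    with hS2
  set S1 : Finset (Ideal R) := S.filter (fun c => (orderOf (χ c) : ℝ) ≤ (q : ℝ) ^ (1 / 100 : ℝ))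
    with hS1
  have hcardle : ∀ (S' : Finset (Ideal R)) (Y : ℝ), 1 ≤ Y → (∀ c ∈ S', nm c ≤ Y) →
      (S'.card : ℝ) ≤ Cc * Y := by
    intro S' Y hY hS'
    refine le_trans ?_ (hcnt Y hY)
    rw [Nat.cast_le, ← Set.ncard_coe_finset]
    exact Set.ncard_le_ncard (fun c hc => hS' c hc) (hfin Y)
  have hbig : ∑ c ∈ S2, w c / ((orderOf (χ c)).totient : ℝ) ≤ 2 * Cd * Cc := by
    have e1 : ∀ c ∈ S2, w c / ((orderOf (χ c)).totient : ℝ) ≤
        2 * Cd * (q : ℝ) ^ (-9 / 1000 : ℝ) := by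
      intro c hc
      rw [hS2, Finset.mem_filter] at hc
      have f1 := hopos c hc.1
      have f2 := htot (orderOf (χ c)) f1
      have f3 : (q : ℝ) ^ (1 / 100 : ℝ) ≤ (orderOf (χ c) : ℝ) := (not_le.1 hc.2).le
      have f4 : ((q : ℝ) ^ (1 / 100 : ℝ)) ^ (1 - 1 / 10 : ℝ) ≤ (orderOf (χ c) : ℝ) ^ (1 - 1 / 10 : ℝ) :=
        Real.rpow_le_rpow (Real.rpow_nonneg hq0'.le _) f3 (by norm_num)
      rw [← Real.rpow_mul hq0'.le] at f4
      have f5 : (q : ℝ) ^ (9 / 1000 : ℝ) ≤ Cd * ((orderOf (χ c)).totient : ℝ) := by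
        refine le_trans (le_of_eq ?_) (f4.trans f2)
        norm_num
      have f6 := hphi c hc.1
      rw [div_le_iff₀ f6]
      have f7 : w c ≤ 2 := log_w1 (hn1 c hc.1)
      have f8 : (q : ℝ) ^ (9 / 1000 : ℝ) * (q : ℝ) ^ (-9 / 1000 : ℝ) = 1 := by
        rw [← Real.rpow_add hq0']
        norm_num
      have f9 : 0 < (q : ℝ) ^ (-9 / 1000 : ℝ) := Real.rpow_pos_of_pos hq0' _
      calc w c ≤ 2 * ((q : ℝ) ^ (9 / 1000 : ℝ) * (q : ℝ) ^ (-9 / 1000 : ℝ)) := by rw [f8]; linarith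
        _ ≤ 2 * (Cd * ((orderOf (χ c)).totient : ℝ) * (q : ℝ) ^ (-9 / 1000 : ℝ)) := by
          refine mul_le_mul_of_nonneg_left ?_ (by norm_num)
          exact mul_le_mul_of_nonneg_right f5 f9.le
        _ = _ := by ring
    have e2 : (S2.card : ℝ) ≤ Cc * Ys := hcardle S2 Ys hYs1 (fun c hc => by
      rw [hS2, Finset.mem_filter] at hc
      exact ((hmS c).1 hc.1).2.1)
    calc _ ≤ ∑ c ∈ S2, 2 * Cd * (q : ℝ) ^ (-9 / 1000 : ℝ) := Finset.sum_le_sum e1
      _ = (S2.card : ℝ) * (2 * Cd * (q : ℝ) ^ (-9 / 1000 : ℝ)) := by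
        rw [Finset.sum_const, nsmul_eq_mul]
      _ ≤ Cc * Ys * (2 * Cd * (q : ℝ) ^ (-9 / 1000 : ℝ)) :=
        mul_le_mul_of_nonneg_right e2 (by positivity)
      _ = 2 * Cd * Cc * (Ys * (q : ℝ) ^ (-9 / 1000 : ℝ)) := by ring
      _ ≤ 2 * Cd * Cc * 1 := by
        refine mul_le_mul_of_nonneg_left ?_ (by positivity)
        rw [hYs, ← Real.rpow_add hq0']
        exact Real.rpow_le_one_of_one_le_of_nonpos g3 (by norm_num)
      _ = _ := by ring
  -- small orders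
  set Tm : ℝ := 2 * Cc * z + 20 * (K * (Cs * L) * z ^ (-1 / 20 : ℝ)) with hTm
  have hTm0 : 0 ≤ Tm := by positivity
  have hT : ∀ r ∈ d.divisors, ∑ c ∈ S1.filter (fun c => orderOf (χ c) = r), w c ≤ Tm := by
    intro r hr
    by_cases hrq : (r : ℝ) ≤ (q : ℝ) ^ (1 / 100 : ℝ)
    · set Sr : Finset (Ideal R) := S1.filter (fun c => orderOf (χ c) = r) with hSr
      have hSrm : ∀ c ∈ Sr, c ∈ S ∧ orderOf (χ c) = r := by
        intro c hc
        rw [hSr, Finset.mem_filter, hS1, Finset.mem_filter] at hc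
        exact ⟨hc.1.1, hc.2⟩
      rw [← Finset.sum_filter_add_sum_filter_not Sr (fun c => nm c ≤ z)]
      apply add_le_add
      · have e1 : ((Sr.filter (fun c => nm c ≤ z)).card : ℝ) ≤ Cc * z :=
          hcardle _ z hz1 fun c hc => (Finset.mem_filter.1 hc).2
        calc _ ≤ ∑ c ∈ Sr.filter (fun c => nm c ≤ z), (2 : ℝ) :=
              Finset.sum_le_sum fun c hc => log_w1 (hn1 c (hSrm c (Finset.mem_filter.1 hc).1).1)
          _ = ((Sr.filter (fun c => nm c ≤ z)).card : ℝ) * 2 := by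
            rw [Finset.sum_const, nsmul_eq_mul]
          _ ≤ Cc * z * 2 := mul_le_mul_of_nonneg_right e1 (by norm_num)
          _ = _ := by ring
      · have e1 := dyad (Sr.filter (fun c => ¬ nm c ≤ z)) (fun c => nm c) (A := Cs * L) (Ym := Ys)
          hz0 (by positivity) (by
            intro c hc
            rw [Finset.mem_filter] at hc
            exact ⟨(not_le.1 hc.2).le, ((hmS c).1 (hSrm c hc.1).1).2.1⟩) (by
            intro Y hY hY2
            refine le_trans ?_ (hsc q χ hχ g1 d hd hqd r (Nat.dvd_of_mem_divisors hr) hrq Y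
              (hz1.trans hY) (hY2.trans g6))
            rw [Nat.cast_le, ← Set.ncard_coe_finset]
            refine Set.ncard_le_ncard ?_ ((hfin Y).subset fun c hc => hc.2.1)
            intro c hc
            rw [Finset.coe_filter, Set.mem_ofPred_eq, Finset.mem_filter] at hc
            obtain ⟨⟨f1, f2⟩, f3⟩ := hc
            obtain ⟨f4, f5⟩ := hSrm c f1
            obtain ⟨f6, f7, f8⟩ := (hmS c).1 f4
            refine ⟨f6, f3, f8, ?_⟩
            rw [← f5]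
            exact pow_orderOf_eq_one _)
        calc _ ≤ ∑ c ∈ Sr.filter (fun c => ¬ nm c ≤ z), 20 * (nm c) ^ (-9 / 20 : ℝ) :=
              Finset.sum_le_sum fun c hc => log_w2 (hn1 c (hSrm c (Finset.mem_filter.1 hc).1).1)
          _ = 20 * ∑ c ∈ Sr.filter (fun c => ¬ nm c ≤ z), (nm c) ^ (-9 / 20 : ℝ) := by
            rw [Finset.mul_sum]
          _ ≤ _ := mul_le_mul_of_nonneg_left e1 (by norm_num)
    · rw [Finset.filter_filter]
      rw [Finset.sum_eq_zero]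
      · exact hTm0
      · intro c hc
        rw [Finset.mem_filter] at hc
        exfalso
        apply hrq
        rw [← hc.2.2]
        exact hc.2.1
  have hsmall : ∑ c ∈ S1, w c / ((orderOf (χ c)).totient : ℝ) ≤
      (2 * Cm * (2 * ll) ^ 5) ^ 2 * Tm := by
    rw [← Finset.sum_fiberwise_of_maps_to (t := d.divisors) (g := fun c => orderOf (χ c))
      (fun c hc => by
        rw [hS1, Finset.mem_filter] at hc
        exact Nat.mem_divisors.2 ⟨hodvd c hc.1, hd0⟩)]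
    calc _ ≤ ∑ r ∈ d.divisors, 1 / (r.totient : ℝ) * Tm := by
          refine Finset.sum_le_sum fun r hr => ?_
          have e1 : ∑ c ∈ S1.filter (fun c => orderOf (χ c) = r),
              w c / ((orderOf (χ c)).totient : ℝ) =
              1 / (r.totient : ℝ) * ∑ c ∈ S1.filter (fun c => orderOf (χ c) = r), w c := by
            rw [Finset.mul_sum]
            refine Finset.sum_congr rfl fun c hc => ?_
            rw [(Finset.mem_filter.1 hc).2]
            ring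
          rw [e1]
          exact mul_le_mul_of_nonneg_left (hT r hr) (by positivity)
      _ = (∑ r ∈ d.divisors, 1 / (r.totient : ℝ)) * Tm := by rw [Finset.sum_mul]
      _ ≤ _ := mul_le_mul_of_nonneg_right hF hTm0
  -- conclusion
  have hz20 : z ^ (-1 / 20 : ℝ) = (ll ^ 20)⁻¹ := by
    rw [hz, ← Real.rpow_natCast, ← Real.rpow_mul hll0.le, ← Real.rpow_natCast,
      ← Real.rpow_neg hll0.le]
    norm_num
  have hfinal : (2 * Cm * (2 * ll) ^ 5) ^ 2 * Tm ≤ δ / (3 * M) * L + δ / (3 * M) * L := by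
    have e1 : (2 * Cm * (2 * ll) ^ 5) ^ 2 * Tm = 4096 * Cm ^ 2 * (2 * Cc) * ll ^ 410 +
        4096 * Cm ^ 2 * (20 * K * Cs) * (L / ll ^ 10) := by
      rw [hTm, hz20, hz]
      field_simp
      ring
    have e2 : L / ll ^ 10 ≤ L / ll := by
      apply div_le_div_of_nonneg_left hL0.le hll0
      calc ll = ll ^ 1 := (pow_one ll).symm
        _ ≤ ll ^ 10 := pow_le_pow_right₀ (by linarith) (by norm_num)
    rw [e1]
    refine add_le_add g7 (le_trans ?_ g8)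
    exact mul_le_mul_of_nonneg_left e2 (by positivity)
  have hM1M' : (M₁ : ℝ) ≤ M := by exact_mod_cast hM1M
  have hM10 : (0 : ℝ) ≤ M₁ := Nat.cast_nonneg _
  have htotal : ∑ c ∈ S, w c / ((orderOf (χ c)).totient : ℝ) ≤ δ / M * L := by
    rw [← Finset.sum_filter_add_sum_filter_not S
      (fun c => (orderOf (χ c) : ℝ) ≤ (q : ℝ) ^ (1 / 100 : ℝ))]
    have e1 : δ / (3 * M) * L + δ / (3 * M) * L + δ / (3 * M) * L = δ / M * L := by
      field_simp
      ring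
    rw [← e1]
    exact add_le_add (hsmall.trans hfinal) (hbig.trans g9)
  have hpos : 0 ≤ ∑ c ∈ S, w c / ((orderOf (χ c)).totient : ℝ) :=
    Finset.sum_nonneg fun c hc => div_nonneg (hw0 c hc) (hphi c hc).le
  rw [hsum]
  calc ∑ c ∈ S, ‖∑ a ∈ Ea d M₁, pw χ a c‖ * w c ≤
        ∑ c ∈ S, M₁ * cd * (w c / ((orderOf (χ c)).totient : ℝ)) := Finset.sum_le_sum hterm
    _ = M₁ * cd * ∑ c ∈ S, w c / ((orderOf (χ c)).totient : ℝ) := by rw [Finset.mul_sum]
    _ ≤ M * cd * ∑ c ∈ S, w c / ((orderOf (χ c)).totient : ℝ) := by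
      refine mul_le_mul_of_nonneg_right ?_ hpos
      exact mul_le_mul_of_nonneg_right hM1M' hcd0
    _ ≤ M * cd * (δ / M * L) := mul_le_mul_of_nonneg_left htotal (by positivity)
    _ = δ * L * cd := by
      field_simp

end Pool.Agent.TH936.AD
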